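import Mathlib

/-!
# Multifold coverings of convex bodies by translates of the interior (MP_eba1ef_gt): definitions

Project MFH (owner helper67). For every `d` there is `N` such that every convex body in `ℝ ^ d` is
covered `N`-fold by `N * 2 ^ d` translates of its interior, and fewer suffice for some `N` unless
the body is a parallelotope.
-/

set_option autoImplicit false

open MeasureTheory Set Module
open scoped ENNReal Pointwise

namespace Pool.Agent.MFH

/-- Euclidean space -/
abbrev Es (d : ℕ) : Type := EuclideanSpace ℝ (Fin d)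

/-- convex bodies -/
structure Body {d : ℕ} (K : Set (Es d)) : Prop where
  cv : Convex ℝ K
  cp : IsCompact K
  ne : (interior K).Nonempty

/-- the number of the translates `t j + interior K` which contain `x` -/
noncomputable def cnt {d M : ℕ} (K : Set (Es d)) (t : Fin M → Es d) (x : Es d) : ℕ :=
  open Classical in (Finset.univ.filter (fun j => x - t j ∈ interior K)).card

/-- some `M` translates of the interior of `K` cover every point of `K` at least `N` times -/
def Multi {d : ℕ} (K : Set (Es d)) (N M : ℕ) : Prop :=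
  ∃ t : Fin M → Es d, ∀ x ∈ K, N ≤ cnt K t x

/-- there is a fractional cover of `K` by translates of its interior of total weight less than
`W` -/
def FracLT {d : ℕ} (K : Set (Es d)) (W : ℝ) : Prop :=
  ∃ (n : ℕ) (t : Fin n → Es d) (w : Fin n → ℝ), (∀ j, 0 ≤ w j) ∧
    (∀ x ∈ K, 1 ≤ ∑ j, (open Classical in if x - t j ∈ interior K then w j else 0)) ∧
    ∑ j, w j < W

/-- parallelotopes -/
def Para {d : ℕ} (K : Set (Es d)) : Prop :=
  ∃ (x₀ : Es d) (v : Fin d → Es d), LinearIndependent ℝ v ∧
    K = {x | ∃ c : Fin d → ℝ, (∀ i, 0 ≤ c i ∧ c i ≤ 1) ∧ x = x₀ + ∑ i, c i • v i}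

/-- an extremal measure: a probability measure on `K` which gives mass at most `2 ^ (-d)` to every
translate of the interior of `K` -/
structure Ext {d : ℕ} (K : Set (Es d)) (μ : Measure (Es d)) : Prop where
  pr : μ univ = 1
  su : μ Kᶜ = 0
  le : ∀ z : Es d, μ {y | y - z ∈ interior K} ≤ ((2 : ℝ≥0∞) ^ d)⁻¹

/-- `K` is the convex hull of `2 ^ d` points `V` and the translates `v + K`, `v ∈ V`, tile `2 K` -/
structure Tile {d : ℕ} (K : Set (Es d)) (V : Finset (Es d)) : Prop where
  hull : K = convexHull ℝ (V : Set (Es d))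
  card : V.card = 2 ^ d
  one : ∀ᵐ x : Es d, x ∈ (2 : ℝ) • K →
    (open Classical in (V.filter (fun v => x - v ∈ interior K)).card) = 1

/-- volume of the cap of depth `s` below the level `b` in direction `u` -/
noncomputable def cap {d : ℕ} (K : Set (Es d)) (u : Es d) (b s : ℝ) : ℝ :=
  (volume {x | x ∈ K ∧ b - s ≤ inner ℝ x u}).toReal

/-- normalized bodies: between the standard simplex and the cube `[-1, 1] ^ d` -/
structure Nrm {d : ℕ} (K : Set (Es d)) : Prop where
  lo : ∀ x : Es d, (∀ i, 0 ≤ x i) → ∑ i, x i ≤ 1 → x ∈ K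
  hi : ∀ x ∈ K, ∀ i, |x i| ≤ 1

end Pool.Agent.MFH
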