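import Pool.Agent.MFH.Stab

/-!
# Multifold coverings for all large multiplicities
-/

set_option autoImplicit false

open MeasureTheory Set Module
open scoped ENNReal Pointwise

namespace Pool.Agent.MFH

theorem mono_N {d : ℕ} {K : Set (Es d)} {N N' M : ℕ} (hN : N' ≤ N) (h : Multi K N M) :
    Multi K N' M := by
  obtain ⟨t, ht⟩ := h
  exact ⟨t, fun x hx => hN.trans (ht x hx)⟩

/-- a saving for one multiplicity gives coverings for all large multiplicities -/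
theorem step {d : ℕ} {K : Set (Es d)} {N₀ : ℕ} (h0 : 1 ≤ N₀)
    (h : Multi K N₀ (N₀ * 2 ^ d - 1)) (N : ℕ) :
    Multi K N ((N / N₀ + 1) * (N₀ * 2 ^ d - 1)) := by
  have h1 := MUM_.mult d K N₀ (N₀ * 2 ^ d - 1) (N / N₀ + 1) h
  refine mono_N ?_ h1
  have h2 := Nat.lt_mul_div_succ N h0
  rw [mul_comm]
  exact h2.le

theorem large_of {d : ℕ} {K : Set (Es d)} {N₀ : ℕ} (h0 : 1 ≤ N₀)
    (h : Multi K N₀ (N₀ * 2 ^ d - 1)) {N : ℕ} (hN : N₀ * (N₀ * 2 ^ d) ≤ N) :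
    Multi K N (N * 2 ^ d) := by
  have h1 := step h0 h N
  refine MUM_.pad d K N _ _ ?_ h1
  have h2 : N₀ * 2 ^ d ≤ N / N₀ := (Nat.le_div_iff_mul_le h0).mpr (by rw [mul_comm]; exact hN)
  have h3 : (N / N₀) * N₀ ≤ N := Nat.div_mul_le_self N N₀
  set q := N / N₀ with hq
  set P := N₀ * 2 ^ d with hP
  have hP1 : 1 ≤ P := Nat.mul_pos h0 (by positivity)
  have h4 : (q + 1) * (P - 1) + (q + 1) = (q + 1) * P := by
    rw [← Nat.mul_succ, Nat.succ_eq_add_one, Nat.sub_add_cancel hP1]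
  have h5 : (q + 1) * P = q * N₀ * 2 ^ d + P := by
    rw [hP]; ring
  have h6 : q * N₀ * 2 ^ d ≤ N * 2 ^ d := Nat.mul_le_mul_right _ h3
  omega

/-- for every body: a fractional cover of weight less than `2 ^ d`, or a cover with `2 ^ d`
translates -/
theorem dicho (hLIM : T_LIM) (hTIL : T_TIL) (hCOV : T_COV) {d : ℕ} {K : Set (Es d)}
    (hK : Body K) : FracLT K (2 ^ d) ∨ Multi K 1 (2 ^ d) := by
  by_cases hF : FracLT K (2 ^ d)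
  · exact Or.inl hF
  · obtain ⟨μ, hμ⟩ := hLIM d K hK hF
    obtain ⟨V, hV⟩ := hTIL d K μ hK hμ
    exact Or.inr (hCOV d K V hK hV.hull hV.card.le)

/-- all large multiplicities, normalized bodies -/
theorem large_nrm (hLIM : T_LIM) (hTIL : T_TIL) (hCOV : T_COV) (hRAT : T_RAT) (hBLA : T_BLA)
    (hOPN : T_OPN) (d : ℕ) :
    ∃ N₀ : ℕ, ∀ N : ℕ, N₀ ≤ N → ∀ K : Set (Es d), Body K → Nrm K →
      Multi K N (N * 2 ^ d) := by
  by_contra hcon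
  push Not at hcon
  choose NN hNN Kf hB hn hM using hcon
  obtain ⟨K', φ, hφ, hK', hconv⟩ := hBLA d Kf hB hn
  have hφn : ∀ n, n ≤ φ n := fun n => by
    have := hφ.id_le n
    simpa only [id] using this
  rcases dicho hLIM hTIL hCOV hK' with hF | h1
  · obtain ⟨N₀, h0, hM0⟩ := hRAT d K' hF
    obtain ⟨ε, hε, hopn⟩ := hOPN d K' N₀ (N₀ * 2 ^ d - 1) hK' hM0
    obtain ⟨n, ⟨hn1, hn2⟩, hn3⟩ := ((hconv ε hε).and
      (Filter.eventually_ge_atTop (N₀ * (N₀ * 2 ^ d)))).exists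
    have h2 := hopn _ (hB (φ n)) hn1 hn2
    exact hM (φ n) (large_of h0 h2 ((hn3.trans (hφn n)).trans (hNN (φ n))))
  · obtain ⟨ε, hε, hopn⟩ := hOPN d K' 1 (2 ^ d) hK' h1
    obtain ⟨n, hn1, hn2⟩ := (hconv ε hε).exists
    have h2 := MUM_.mult d _ 1 (2 ^ d) (NN (φ n)) (hopn _ (hB (φ n)) hn1 hn2)
    rw [mul_one] at h2
    exact hM (φ n) h2

/-- all large multiplicities -/
theorem large (hLIM : T_LIM) (hTIL : T_TIL) (hCOV : T_COV) (hRAT : T_RAT) (hBLA : T_BLA)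
    (hOPN : T_OPN) (hNOR : T_NOR) (hAFF : T_AFF) (d : ℕ) :
    ∃ N₀ : ℕ, ∀ N : ℕ, N₀ ≤ N → ∀ K : Set (Es d), Body K → Multi K N (N * 2 ^ d) := by
  obtain ⟨N₀, h⟩ := large_nrm hLIM hTIL hCOV hRAT hBLA hOPN d
  refine ⟨N₀, fun N hN K hK => ?_⟩
  obtain ⟨A, hA⟩ := hNOR d K hK
  obtain ⟨h1, h2⟩ := hAFF d K A
  exact h2 N _ (h N hN _ (h1 hK) hA)

/-- stability, with a saving proportional to the multiplicity -/
theorem stab_large (hLIM : T_LIM) (hTIL : T_TIL) (hPAR : T_PAR) (hRAT : T_RAT) (hBLA : T_BLA)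
    (hOPN : T_OPN) (hNOR : T_NOR) (hAFF : T_AFF) (d : ℕ) (δ : ℝ) (hδ : 0 < δ) :
    ∃ (η : ℝ) (N₁ : ℕ), 0 < η ∧ ∀ N : ℕ, N₁ ≤ N → ∀ K : Set (Es d), Body K → ¬ Close δ K →
      ∃ M : ℕ, (M : ℝ) ≤ (1 - η) * (N * 2 ^ d) ∧ Multi K N M := by
  obtain ⟨N₀, h0, h⟩ := stab hLIM hTIL hPAR hRAT hBLA hOPN hNOR hAFF d δ hδ
  have h0' : (0 : ℝ) < N₀ := by exact_mod_cast h0
  have h2d : (0 : ℝ) < 2 ^ d := by positivity
  have hPR : (0 : ℝ) < (N₀ : ℝ) * 2 ^ d := by positivity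
  refine ⟨1 / (2 * (N₀ * 2 ^ d)), 2 * N₀ * (N₀ * 2 ^ d), by positivity,
    fun N hN K hK hc => ⟨_, ?_, step h0 (h K hK hc) N⟩⟩
  have hP1 : 1 ≤ N₀ * 2 ^ d := Nat.mul_pos h0 (by positivity)
  have hq : ((N / N₀ : ℕ) : ℝ) ≤ (N : ℝ) / N₀ := Nat.cast_div_le
  have hNR : (2 : ℝ) * N₀ * (N₀ * 2 ^ d) ≤ N := by exact_mod_cast hN
  push_cast [Nat.cast_sub hP1]
  have h1 : ((N / N₀ : ℕ) : ℝ) * N₀ ≤ N := by
    rw [le_div_iff₀ h0'] at hq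
    exact hq
  have hP1' : (0 : ℝ) ≤ (N₀ : ℝ) * 2 ^ d - 1 := by
    have : (1 : ℝ) ≤ (N₀ : ℝ) * 2 ^ d := by exact_mod_cast hP1
    linarith
  have h2 : (((N / N₀ : ℕ) : ℝ) + 1) * ((N₀ : ℝ) * 2 ^ d - 1) ≤
      ((N : ℝ) / N₀ + 1) * ((N₀ : ℝ) * 2 ^ d - 1) :=
    mul_le_mul_of_nonneg_right (by linarith) hP1'
  refine h2.trans ?_
  have h3 : ((N : ℝ) / N₀ + 1) * ((N₀ : ℝ) * 2 ^ d - 1) =
      N * 2 ^ d - N / N₀ + (N₀ * 2 ^ d - 1) := by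
    field_simp
  have h4 : (1 - 1 / (2 * ((N₀ : ℝ) * 2 ^ d))) * (N * 2 ^ d) =
      N * 2 ^ d - N / (2 * N₀) := by
    field_simp
  rw [h3, h4]
  have h5 : (N₀ : ℝ) * 2 ^ d ≤ N / (2 * N₀) := by
    rw [le_div_iff₀ (by positivity)]
    linarith
  have h6 : (N : ℝ) / N₀ = N / (2 * N₀) + N / (2 * N₀) := by
    field_simp
    ring
  rw [h6]
  linarith

end Pool.Agent.MFH
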