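import Pool.Agent.MFH.P_MUM

/-!
# Multifold coverings: assembly
-/

set_option autoImplicit false

open MeasureTheory Set Module
open scoped ENNReal Pointwise

namespace Pool.Agent.MFH

/-- every body has a multifold covering with `2 ^ d` translates per layer -/
theorem one (hLIM : T_LIM) (hTIL : T_TIL) (hCOV : T_COV) (hRAT : T_RAT) {d : ℕ}
    {K : Set (Es d)} (hK : Body K) : ∃ N : ℕ, 1 ≤ N ∧ Multi K N (N * 2 ^ d) := by
  by_cases hF : FracLT K (2 ^ d)
  · obtain ⟨N, hN, hM⟩ := hRAT d K hF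
    exact ⟨N, hN, MUM_.pad d K N _ _ (Nat.sub_le _ _) hM⟩
  · obtain ⟨μ, hμ⟩ := hLIM d K hK hF
    obtain ⟨V, hV⟩ := hTIL d K μ hK hμ
    refine ⟨1, le_rfl, ?_⟩
    rw [one_mul]
    exact hCOV d K V hK hV.hull hV.card.le

/-- a body with no fractional cover of weight less than `2 ^ d` is a parallelotope -/
theorem para_of_not_frac (hLIM : T_LIM) (hTIL : T_TIL) (hPAR : T_PAR) {d : ℕ}
    {K : Set (Es d)} (hK : Body K) (hF : ¬ FracLT K (2 ^ d)) : Para K := by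
  obtain ⟨μ, hμ⟩ := hLIM d K hK hF
  obtain ⟨V, hV⟩ := hTIL d K μ hK hμ
  exact hPAR d K V hK hV

/-- a body which is not a parallelotope has a multifold covering which saves one translate -/
theorem strict (hLIM : T_LIM) (hTIL : T_TIL) (hPAR : T_PAR) (hRAT : T_RAT) {d : ℕ}
    {K : Set (Es d)} (hK : Body K) (hP : ¬ Para K) :
    ∃ N : ℕ, 1 ≤ N ∧ Multi K N (N * 2 ^ d - 1) := by
  by_cases hF : FracLT K (2 ^ d)
  · exact hRAT d K hF
  · exact absurd (para_of_not_frac hLIM hTIL hPAR hK hF) hP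

/-- uniformity for normalized bodies -/
theorem uni_nrm (hLIM : T_LIM) (hTIL : T_TIL) (hCOV : T_COV) (hRAT : T_RAT) (hBLA : T_BLA)
    (hOPN : T_OPN) (d : ℕ) :
    ∃ N : ℕ, 1 ≤ N ∧ ∀ K : Set (Es d), Body K → Nrm K → Multi K N (N * 2 ^ d) := by
  by_contra hcon
  push Not at hcon
  choose! Kf hB hn hM using hcon
  obtain ⟨K', φ, hφ, hK', hconv⟩ := hBLA d (fun n => Kf (n + 1).factorial)
    (fun n => hB _ (Nat.succ_le_of_lt (Nat.factorial_pos _)))
    (fun n => hn _ (Nat.succ_le_of_lt (Nat.factorial_pos _)))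
  obtain ⟨N, hN, hMN⟩ := one hLIM hTIL hCOV hRAT hK'
  obtain ⟨ε, hε, hopn⟩ := hOPN d K' N (N * 2 ^ d) hK' hMN
  obtain ⟨n, ⟨hn1, hn2⟩, hn3⟩ := ((hconv ε hε).and (Filter.eventually_ge_atTop N)).exists
  have h1 : Multi (Kf (φ n + 1).factorial) N (N * 2 ^ d) :=
    hopn _ (hB _ (Nat.succ_le_of_lt (Nat.factorial_pos _))) hn1 hn2
  have h2 : N ∣ (φ n + 1).factorial := by
    refine Nat.dvd_factorial (by omega) ?_
    have := hφ.id_le n
    simp only [id] at this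
    omega
  obtain ⟨k, hk⟩ := h2
  refine hM (φ n + 1).factorial (Nat.succ_le_of_lt (Nat.factorial_pos _)) ?_
  have h3 := MUM_.mult d _ N (N * 2 ^ d) k h1
  have h4 : (φ n + 1).factorial = k * N := by rw [hk, mul_comm]
  have h5 : (φ n + 1).factorial * 2 ^ d = k * (N * 2 ^ d) := by rw [h4]; ring
  rw [h5]
  rw [← h4] at h3
  exact h3

/-- uniformity for all bodies -/
theorem uni (hLIM : T_LIM) (hTIL : T_TIL) (hCOV : T_COV) (hRAT : T_RAT) (hBLA : T_BLA)
    (hOPN : T_OPN) (hNOR : T_NOR) (hAFF : T_AFF) (d : ℕ) :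
    ∃ N : ℕ, 1 ≤ N ∧ ∀ K : Set (Es d), Body K → Multi K N (N * 2 ^ d) := by
  obtain ⟨N, hN, h⟩ := uni_nrm hLIM hTIL hCOV hRAT hBLA hOPN d
  refine ⟨N, hN, fun K hK => ?_⟩
  obtain ⟨A, hA⟩ := hNOR d K hK
  obtain ⟨h1, h2⟩ := hAFF d K A
  exact h2 N _ (h _ (h1 hK) hA)

/-- a multifold covering gives a fractional cover -/
theorem frac_of_multi {d : ℕ} {K : Set (Es d)} {N M : ℕ} (hN : 1 ≤ N) (h : Multi K N M)
    {W : ℝ} (hW : (M : ℝ) < N * W) : FracLT K W := by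
  classical
  obtain ⟨t, ht⟩ := h
  have hN0 : (0 : ℝ) < N := by exact_mod_cast hN
  refine ⟨M, t, fun _ => (N : ℝ)⁻¹, fun _ => by positivity, fun x hx => ?_, ?_⟩
  · have h1 := ht x hx
    have h2 : (∑ j, (if x - t j ∈ interior K then (N : ℝ)⁻¹ else 0)) =
        (cnt K t x : ℝ) * (N : ℝ)⁻¹ := by
      rw [← Finset.sum_filter, Finset.sum_const, nsmul_eq_mul]
      unfold cnt
      congr 3
    have h3 : (1 : ℝ) ≤ (cnt K t x : ℝ) * (N : ℝ)⁻¹ := by
      rw [← div_eq_mul_inv, le_div_iff₀ hN0, one_mul]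
      exact_mod_cast h1
    rw [← h2] at h3
    convert! h3
  · rw [Finset.sum_const, Finset.card_univ, Fintype.card_fin, nsmul_eq_mul, ← div_eq_mul_inv,
      div_lt_iff₀ hN0]
    linarith

/-- parallelotopes have no fractional cover of weight less than `2 ^ d` -/
theorem not_frac_of_para (hRAT : T_RAT) (hPLB : T_PLB) {d : ℕ} {K : Set (Es d)}
    (hP : Para K) : ¬ FracLT K (2 ^ d) := by
  intro hF
  obtain ⟨N, hN, hM⟩ := hRAT d K hF
  have h1 := hPLB d K N _ hP hM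
  have h2 : 0 < N * 2 ^ d := Nat.mul_pos hN (by positivity)
  omega

end Pool.Agent.MFH
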