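import Pool.Agent.MFH.Targets

set_option autoImplicit false

/-!
# AFF: affine invariance
-/

namespace Pool.Agent.MFH

open MeasureTheory Set Module
open scoped ENNReal Pointwise

namespace AFF_

lemma interior_image {d : ℕ} (K : Set (Es d)) (A : Es d ≃ᵃ[ℝ] Es d) :
    interior (A '' K) = A '' interior K := by
  have h := (A.toHomeomorphOfFiniteDimensional).image_interior K
  rw [AffineEquiv.coe_toHomeomorphOfFiniteDimensional] at h
  exact h.symm

lemma cont {d : ℕ} (A : Es d ≃ᵃ[ℝ] Es d) : Continuous A := by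
  have h := (A.toHomeomorphOfFiniteDimensional).continuous
  rwa [AffineEquiv.coe_toHomeomorphOfFiniteDimensional] at h

lemma map_sub {d : ℕ} (A : Es d ≃ᵃ[ℝ] Es d) (x t : Es d) :
    A (x - A.linear.symm t) = A x - t := by
  have h := A.map_vadd x (-(A.linear.symm t))
  rw [vadd_eq_add, vadd_eq_add, map_neg, LinearEquiv.apply_symm_apply] at h
  rw [sub_eq_add_neg, add_comm, h]
  abel

end AFF_

open AFF_ in
theorem p_AFF : T_AFF := by
  intro d K A
  refine ⟨fun h => ⟨?_, h.cp.image (cont A), ?_⟩, ?_⟩
  · exact h.cv.affine_image (A : Es d →ᵃ[ℝ] Es d)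
  · rw [interior_image]
    exact h.ne.image _
  · rintro N M ⟨t, ht⟩
    refine ⟨fun j => A.linear.symm (t j), fun x hx => ?_⟩
    refine (ht (A x) (mem_image_of_mem _ hx)).trans_eq ?_
    unfold cnt
    congr 1
    ext j
    simp only [Finset.mem_filter, Finset.mem_univ, true_and]
    rw [interior_image, ← map_sub]
    exact A.injective.mem_set_image

end Pool.Agent.MFH
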