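import Pool.Agent.MFH.Targets

set_option autoImplicit false

/-!
# ATM: extreme points are atoms of an extremal measure
-/

open MeasureTheory Set Module
open scoped ENNReal Pointwise

namespace Pool.Agent.MFH

namespace ATM_

/-- near twice an extreme point the summands are near the extreme point -/
lemma near {d : ℕ} {K : Set (Es d)} (hK : Body K) {v : Es d} (hv : v ∈ K.extremePoints ℝ)
    {r : ℝ} (hr : 0 < r) : ∃ δ : ℝ, 0 < δ ∧ ∀ x y : Es d, dist x ((2 : ℝ) • v) < δ → y ∈ K →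
      x - y ∈ K → dist y v < r := by
  have hC : IsCompact (K ∩ {y | r ≤ dist y v}) :=
    hK.cp.inter_right (isClosed_le continuous_const (by fun_prop))
  have hA : IsCompact ((fun y : Es d => (2 : ℝ) • v - y) '' (K ∩ {y | r ≤ dist y v})) :=
    hC.image (by fun_prop)
  have hdis : Disjoint ((fun y : Es d => (2 : ℝ) • v - y) '' (K ∩ {y | r ≤ dist y v})) K := by
    rw [Set.disjoint_left]
    rintro _ ⟨y, ⟨hyK, hyr⟩, rfl⟩ hy2
    simp only [Set.mem_setOf_eq] at hyr
    have hseg : v ∈ openSegment ℝ y ((2 : ℝ) • v - y) := by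
      refine ⟨1 / 2, 1 / 2, by norm_num, by norm_num, by norm_num, ?_⟩
      module
    have h1 := (mem_extremePoints.1 hv).2 y hyK _ hy2 hseg
    rw [h1.1, dist_self] at hyr
    linarith
  obtain ⟨δ, hδ, hd⟩ := hdis.exists_thickenings hA hK.cp.isClosed
  refine ⟨δ, hδ, fun x y hx hy hxy => ?_⟩
  by_contra hcon
  push Not at hcon
  have h3 : x - y ∈ Metric.thickening δ
      ((fun y : Es d => (2 : ℝ) • v - y) '' (K ∩ {y | r ≤ dist y v})) := by
    rw [Metric.mem_thickening_iff]
    refine ⟨(2 : ℝ) • v - y, ⟨y, ⟨hy, hcon⟩, rfl⟩, ?_⟩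
    rwa [dist_sub_right]
  exact Set.disjoint_left.1 hd h3 (Metric.self_subset_thickening hδ K hxy)

lemma ball_le (hEQU : T_EQU) {d : ℕ} {K : Set (Es d)} {μ : Measure (Es d)} (hK : Body K)
    (hμ : Ext K μ) {v : Es d} (hv : v ∈ K.extremePoints ℝ) {r : ℝ} (hr : 0 < r) :
    ((2 : ℝ≥0∞) ^ d)⁻¹ ≤ μ (Metric.closedBall v r) := by
  obtain ⟨δ, hδ, hnear⟩ := near hK hv hr
  have hvK : v ∈ K := (mem_extremePoints.1 hv).1
  have hcv : Convex ℝ ((2 : ℝ) • K) := hK.cv.smul 2
  have hint : (interior ((2 : ℝ) • K)).Nonempty := by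
    rw [interior_smul₀ (by norm_num : (2 : ℝ) ≠ 0)]
    exact hK.ne.smul_set
  have hcl : (2 : ℝ) • v ∈ closure (interior ((2 : ℝ) • K)) := by
    rw [hcv.closure_interior_eq_closure_of_nonempty_interior hint]
    exact subset_closure (Set.smul_mem_smul_set hvK)
  obtain ⟨x1, hx1a, hx1b⟩ := Metric.mem_closure_iff.1 hcl δ hδ
  have hO : IsOpen (Metric.ball ((2 : ℝ) • v) δ ∩ interior ((2 : ℝ) • K)) :=
    Metric.isOpen_ball.inter isOpen_interior
  have hOne : (Metric.ball ((2 : ℝ) • v) δ ∩ interior ((2 : ℝ) • K)).Nonempty :=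
    ⟨x1, by rw [Metric.mem_ball, dist_comm]; exact hx1b, hx1a⟩
  have hpos := hO.measure_pos volume hOne
  have hae := hEQU d K μ hK hμ
  obtain ⟨x, ⟨hxb, hxi⟩, hx⟩ : ∃ x ∈ Metric.ball ((2 : ℝ) • v) δ ∩ interior ((2 : ℝ) • K),
      (x ∈ (2 : ℝ) • K → μ {y | x - y ∈ interior K} = ((2 : ℝ≥0∞) ^ d)⁻¹) := by
    by_contra hcon
    push Not at hcon
    rw [ae_iff] at hae
    have h1 : volume (Metric.ball ((2 : ℝ) • v) δ ∩ interior ((2 : ℝ) • K)) = 0 := by
      refine measure_mono_null (fun x hx => ?_) hae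
      have h2 := hcon x hx
      simp only [Set.mem_setOf_eq]
      push Not
      exact h2
    exact hpos.ne' h1
  rw [← hx (interior_subset hxi)]
  calc μ {y | x - y ∈ interior K} ≤ μ (Metric.closedBall v r ∪ Kᶜ) := by
        refine measure_mono fun y hy => ?_
        by_cases hyK : y ∈ K
        · left
          rw [Metric.mem_closedBall]
          exact (hnear x y (Metric.mem_ball.1 hxb) hyK (interior_subset hy)).le
        · exact Or.inr hyK
    _ ≤ μ (Metric.closedBall v r) + μ Kᶜ := measure_union_le _ _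
    _ = μ (Metric.closedBall v r) := by rw [hμ.su, add_zero]

end ATM_

open ATM_ in
theorem p_ATM (hEQU : T_EQU) : T_ATM := by
  intro d K μ hK hμ v hv
  have : IsFiniteMeasure μ := ⟨by rw [hμ.pr]; exact ENNReal.one_lt_top⟩
  have h1 := tendsto_measure_cthickening_of_isCompact (μ := μ) (isCompact_singleton (x := v))
  have h2 : Filter.Tendsto (fun r => μ (Metric.cthickening r {v})) (nhdsWithin 0 (Set.Ioi 0))
      (nhds (μ {v})) := h1.mono_left nhdsWithin_le_nhds
  refine ge_of_tendsto h2 ?_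
  filter_upwards [self_mem_nhdsWithin] with r hr
  rw [Metric.cthickening_singleton v (le_of_lt hr)]
  exact ball_le hEQU hK hμ hv hr

end Pool.Agent.MFH
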