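import Pool.Agent.MFH.Targets

/-!
# MFH, target BLA: selection theorem of Blaschke for normalized convex bodies
-/

set_option autoImplicit false

open MeasureTheory Set Module
open scoped ENNReal Pointwise

namespace Pool.Agent.MFH

namespace BLA_

open TopologicalSpace Metric

theorem compact_cube (d : ℕ) : IsCompact {x : Es d | ∀ i, |x i| ≤ 1} := by
  have h1 : IsCompact ((EuclideanSpace.equiv (Fin d) ℝ).toHomeomorph ⁻¹'
      (Set.univ.pi fun _ : Fin d => Icc (-1 : ℝ) 1)) :=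
    (EuclideanSpace.equiv (Fin d) ℝ).toHomeomorph.isCompact_preimage.2
      (isCompact_univ_pi fun _ => isCompact_Icc)
  refine h1.of_isClosed_subset ?_ ?_
  · have h2 : {x : Es d | ∀ i, |x i| ≤ 1} = ⋂ i, {x : Es d | |x i| ≤ 1} := by
      ext x
      simp
    rw [h2]
    exact isClosed_iInter fun i => isClosed_le (by fun_prop) continuous_const
  · intro x hx i _
    exact abs_le.1 (hx i)

theorem simplex_interior (d : ℕ) {K : Set (Es d)}
    (h : ∀ x : Es d, (∀ i, 0 ≤ x i) → ∑ i, x i ≤ 1 → x ∈ K) : (interior K).Nonempty := by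
  have hU : IsOpen ((⋂ i, {x : Es d | 0 < x i}) ∩ {x : Es d | ∑ i, x i < 1}) :=
    (isOpen_iInter_of_finite fun i => isOpen_lt continuous_const (by fun_prop)).inter
      (isOpen_lt (by fun_prop) continuous_const)
  have hd : (0 : ℝ) < (d : ℝ) + 1 := by positivity
  refine ⟨WithLp.toLp 2 (fun _ => ((d : ℝ) + 1)⁻¹), interior_maximal ?_ hU ⟨?_, ?_⟩⟩
  · rintro x ⟨h1, h2⟩
    rw [mem_iInter] at h1
    exact h x (fun i => (h1 i).le) (le_of_lt h2)
  · rw [mem_iInter]
    intro i
    show (0 : ℝ) < ((d : ℝ) + 1)⁻¹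
    positivity
  · show ∑ _i : Fin d, ((d : ℝ) + 1)⁻¹ < 1
    rw [Finset.sum_const, Finset.card_univ, Fintype.card_fin, nsmul_eq_mul,
      ← div_eq_mul_inv, div_lt_one hd]
    linarith

end BLA_

open BLA_ TopologicalSpace Metric in
theorem p_BLA : T_BLA := by
  intro d K hB hN
  obtain ⟨L, hL⟩ : ∃ L : ℕ → NonemptyCompacts (Es d), ∀ n, (L n : Set (Es d)) = K n :=
    ⟨fun n => ⟨⟨K n, (hB n).cp⟩, (hB n).ne.mono interior_subset⟩, fun n => rfl⟩
  have hc := NonemptyCompacts.isCompact_subsets_of_isCompact (compact_cube d)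
  have hLQ : ∀ n, L n ∈ {L : NonemptyCompacts (Es d) | ↑L ⊆ {x : Es d | ∀ i, |x i| ≤ 1}} := by
    intro n
    show (L n : Set (Es d)) ⊆ {x : Es d | ∀ i, |x i| ≤ 1}
    rw [hL]
    exact fun x hx => (hN n).hi x hx
  obtain ⟨L', -, φ, hφ, hlim⟩ := hc.tendsto_subseq hLQ
  have hcl : IsClosed (L' : Set (Es d)) := L'.isCompact.isClosed
  have hinc : ∀ ε : ℝ, 0 < ε → ∀ᶠ n in Filter.atTop,
      K (φ n) ⊆ cthickening ε (L' : Set (Es d)) ∧
      (L' : Set (Es d)) ⊆ cthickening ε (K (φ n)) := by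
    intro ε hε
    have h1 := EMetric.tendsto_nhds.1 hlim (ENNReal.ofReal ε) (ENNReal.ofReal_pos.2 hε)
    filter_upwards [h1] with n hn
    have h2 : hausdorffEDist (L (φ n) : Set (Es d)) (L' : Set (Es d)) < ENNReal.ofReal ε := hn
    rw [hL] at h2
    constructor
    · intro x hx
      exact (infEDist_le_hausdorffEDist_of_mem hx).trans h2.le
    · intro x hx
      refine (infEDist_le_hausdorffEDist_of_mem hx).trans ?_
      rw [hausdorffEDist_comm]
      exact h2.le
  have hmem : ∀ x : Es d, (∀ ε : ℝ, 0 < ε → x ∈ cthickening ε (L' : Set (Es d))) →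
      x ∈ (L' : Set (Es d)) := by
    intro x hx
    rw [← hcl.closure_eq, closure_eq_iInter_cthickening]
    exact mem_iInter₂.2 hx
  refine ⟨L', φ, hφ, ⟨?_, L'.isCompact, ?_⟩, hinc⟩
  · intro x hx y hy a b ha hb hab
    refine hmem _ fun ε hε => ?_
    obtain ⟨n, hn1, hn2⟩ := (hinc (ε / 2) (half_pos hε)).exists
    have h3 : a • x + b • y ∈ cthickening (ε / 2) (K (φ n)) :=
      (hB (φ n)).cv.cthickening (ε / 2) (hn2 hx) (hn2 hy) ha hb hab
    have h4 := cthickening_subset_of_subset (ε / 2) hn1 h3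
    have h5 := cthickening_cthickening_subset (half_pos hε).le (half_pos hε).le _ h4
    rwa [add_halves] at h5
  · refine simplex_interior d fun x h0 h1 => hmem x fun ε hε => ?_
    obtain ⟨n, hn1, -⟩ := (hinc ε hε).exists
    exact hn1 ((hN (φ n)).lo x h0 h1)

end Pool.Agent.MFH
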