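import Pool.Agent.MFH.Targets

/-!
# CAP: cap volumes of a tiling body
-/

set_option autoImplicit false

open MeasureTheory Set Module
open scoped ENNReal Pointwise

namespace Pool.Agent.MFH

namespace CAP_

/-- caps -/
def C {d : ℕ} (K : Set (Es d)) (u : Es d) (c : ℝ) : Set (Es d) := {x | x ∈ K ∧ c ≤ inner ℝ x u}

theorem half_closed {d : ℕ} (u : Es d) (c : ℝ) : IsClosed {x : Es d | c ≤ inner ℝ x u} :=
  isClosed_le continuous_const (continuous_id.inner continuous_const)

theorem C_lt_top {d : ℕ} {K : Set (Es d)} (hK : Body K) (u : Es d) (c : ℝ) :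
    volume (C K u c) ≠ ∞ :=
  ((measure_mono (fun _ hx => hx.1)).trans_lt hK.cp.measure_lt_top).ne

/-- the open cap has the same volume -/
theorem C_int {d : ℕ} {K : Set (Es d)} (hK : Body K) (u : Es d) (c : ℝ) :
    volume (C (interior K) u c) = volume (C K u c) := by
  apply le_antisymm
  · exact measure_mono fun x hx => ⟨interior_subset hx.1, hx.2⟩
  · have h1 : C K u c ⊆ C (interior K) u c ∪ frontier K := by
      intro x hx
      by_cases h : x ∈ interior K
      · exact Or.inl ⟨h, hx.2⟩
      · exact Or.inr ⟨subset_closure hx.1, h⟩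
    calc volume (C K u c) ≤ volume (C (interior K) u c ∪ frontier K) := measure_mono h1
      _ ≤ volume (C (interior K) u c) + volume (frontier K) := measure_union_le _ _
      _ = volume (C (interior K) u c) := by
        rw [hK.cv.addHaar_frontier volume, add_zero]

end CAP_

open CAP_ in
theorem p_CAP : T_CAP := by
  intro d K V u b hK hT s
  classical
  have hVK : ∀ v ∈ V, v ∈ K := by
    intro v hv
    rw [hT.hull]
    exact subset_convexHull ℝ _ hv
  set A : Set (Es d) := C ((2 : ℝ) • K) u (2 * b - 2 * s) with hA
  set Av : Es d → Set (Es d) := fun v =>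
    {x | x - v ∈ interior K ∧ 2 * b - 2 * s ≤ inner ℝ x u} with hAv
  have hAm : MeasurableSet A := by
    apply MeasurableSet.inter
    · exact (hK.cp.smul (2 : ℝ)).isClosed.measurableSet
    · exact (half_closed u _).measurableSet
  have hAvm : ∀ v, MeasurableSet (Av v) := by
    intro v
    apply MeasurableSet.inter
    · exact (isOpen_interior.preimage (continuous_id.sub continuous_const)).measurableSet
    · exact (half_closed u _).measurableSet
  -- volume of A
  have h1 : volume A = 2 ^ d * volume (C K u (b - s)) := by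
    have e1 : A = (2 : ℝ) • C K u (b - s) := by
      ext x
      constructor
      · rintro ⟨hx, hx2⟩
        obtain ⟨y, hy, rfl⟩ := mem_smul_set.mp hx
        refine mem_smul_set.mpr ⟨y, ⟨hy, ?_⟩, rfl⟩
        rw [real_inner_smul_left] at hx2
        linarith
      · intro hx
        obtain ⟨y, hy, rfl⟩ := mem_smul_set.mp hx
        refine ⟨mem_smul_set.mpr ⟨y, hy.1, rfl⟩, ?_⟩
        rw [real_inner_smul_left]
        linarith [hy.2]
    rw [e1, Measure.addHaar_smul, finrank_euclideanSpace_fin, abs_of_nonneg (by positivity),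
      ENNReal.ofReal_pow (by norm_num)]
    norm_num
  -- volume of the parts
  have h2 : ∀ v, volume (Av v) = volume (C K u (b - (2 * s - (b - inner ℝ v u)))) := by
    intro v
    rw [← C_int hK]
    have e1 : Av v = (fun x => x - v) ⁻¹' C (interior K) u
        (b - (2 * s - (b - inner ℝ v u))) := by
      ext x
      show (x - v ∈ interior K ∧ 2 * b - 2 * s ≤ inner ℝ x u) ↔
        (x - v ∈ interior K ∧ b - (2 * s - (b - inner ℝ v u)) ≤ inner ℝ (x - v) u)
      rw [inner_sub_left]
      constructor
      · rintro ⟨h, h'⟩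
        exact ⟨h, by linarith⟩
      · rintro ⟨h, h'⟩
        exact ⟨h, by linarith⟩
    rw [e1]
    exact (measurePreserving_sub_right volume v).measure_preimage
      (MeasurableSet.inter isOpen_interior.measurableSet
        (half_closed u _).measurableSet).nullMeasurableSet
  -- the parts are in A
  have h3 : ∀ v ∈ V, Av v ⊆ A := by
    intro v hv x hx
    refine ⟨?_, hx.2⟩
    have hy : x - v ∈ K := interior_subset hx.1
    refine mem_smul_set.mpr ⟨(1 / 2 : ℝ) • v + (1 / 2 : ℝ) • (x - v), ?_, ?_⟩
    · exact hK.cv (hVK v hv) hy (by norm_num) (by norm_num) (by norm_num)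
    · rw [← smul_add, smul_smul]
      norm_num
  -- the sum of the indicators
  have h4 : ∀ᵐ x : Es d, ∑ v ∈ V, (Av v).indicator (fun _ => (1 : ℝ≥0∞)) x =
      A.indicator (fun _ => (1 : ℝ≥0∞)) x := by
    filter_upwards [hT.one] with x hx
    by_cases hxA : x ∈ A
    · rw [indicator_of_mem hxA]
      have hc := hx hxA.1
      have e1 : ∀ v ∈ V, (Av v).indicator (fun _ => (1 : ℝ≥0∞)) x =
          if x - v ∈ interior K then 1 else 0 := by
        intro v _
        by_cases h : x - v ∈ interior K
        · rw [if_pos h, indicator_of_mem]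
          exact ⟨h, hxA.2⟩
        · rw [if_neg h, indicator_of_notMem]
          exact fun h' => h h'.1
      rw [Finset.sum_congr rfl e1, Finset.sum_boole]
      have e2 : (V.filter (fun v => x - v ∈ interior K)).card = 1 := by
        convert hc
      rw [e2]
      simp
    · rw [indicator_of_notMem hxA]
      refine Finset.sum_eq_zero fun v hv => ?_
      exact indicator_of_notMem (fun h => hxA (h3 v hv h)) _
  have h5 : ∑ v ∈ V, volume (Av v) = volume A := by
    have e1 : ∀ v, volume (Av v) = ∫⁻ x, (Av v).indicator (fun _ => (1 : ℝ≥0∞)) x := by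
      intro v
      rw [lintegral_indicator_const (hAvm v), one_mul]
    have e2 : volume A = ∫⁻ x, A.indicator (fun _ => (1 : ℝ≥0∞)) x := by
      rw [lintegral_indicator_const hAm, one_mul]
    rw [e2, ← lintegral_congr_ae h4, lintegral_finsetSum]
    · exact Finset.sum_congr rfl fun v _ => e1 v
    · exact fun v _ => measurable_const.indicator (hAvm v)
  have h6 : (2 : ℝ≥0∞) ^ d * volume (C K u (b - s)) =
      ∑ v ∈ V, volume (C K u (b - (2 * s - (b - inner ℝ v u)))) := by
    rw [← h1, ← h5]
    exact Finset.sum_congr rfl fun v _ => h2 v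
  have h7 := congrArg ENNReal.toReal h6
  rw [ENNReal.toReal_mul, ENNReal.toReal_sum (fun v _ => C_lt_top hK u _)] at h7
  unfold cap
  rw [ENNReal.toReal_pow] at h7
  exact h7

end Pool.Agent.MFH
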