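import Pool.Agent.MFH.Targets

/-!
# MFH: the target T_COV (polytopes with at most `2 ^ d` vertices)
-/

set_option autoImplicit false

open MeasureTheory Set Module
open scoped ENNReal Pointwise

namespace Pool.Agent.MFH

namespace COV_

/-- a point of a polytope with `k` vertices is `ε • v + (1 - ε) • p` with a vertex `v`,
`ε = 1 / k` -/
theorem split {d : ℕ} {V : Finset (Es d)} (hV : V.Nonempty) {x : Es d}
    (hx : x ∈ convexHull ℝ (V : Set (Es d))) :
    ∃ v ∈ V, ∃ p ∈ convexHull ℝ (V : Set (Es d)),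
      x = ((V.card : ℝ)⁻¹) • v + (1 - (V.card : ℝ)⁻¹) • p := by
  classical
  set ε : ℝ := (V.card : ℝ)⁻¹ with hε
  have hk : (0 : ℝ) < V.card := by exact_mod_cast hV.card_pos
  have hk1 : (1 : ℝ) ≤ V.card := by exact_mod_cast hV.card_pos
  have hε0 : 0 < ε := inv_pos.mpr hk
  have hε1 : ε ≤ 1 := inv_le_one_of_one_le₀ hk1
  rw [Finset.mem_convexHull'] at hx
  obtain ⟨w, hw0, hw1, hwx⟩ := hx
  -- a large coefficient
  have hbig : ∃ v ∈ V, ε ≤ w v := by
    by_contra hcon
    push Not at hcon
    have h1 : ∑ y ∈ V, w y < ∑ _y ∈ V, ε := Finset.sum_lt_sum_of_nonempty hV hcon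
    rw [hw1, Finset.sum_const, nsmul_eq_mul, hε, mul_inv_cancel₀ hk.ne'] at h1
    exact lt_irrefl _ h1
  obtain ⟨v, hv, hvε⟩ := hbig
  refine ⟨v, hv, ?_⟩
  rcases hε1.lt_or_eq with hlt | heq
  · have h1ε : 0 < 1 - ε := by linarith
    set w' : Es d → ℝ := fun y => (w y - if y = v then ε else 0) / (1 - ε) with hw'
    have hs : ∑ y ∈ V, (if y = v then ε else 0) = ε := by
      rw [Finset.sum_ite_eq' V v (fun _ => ε), if_pos hv]
    have hs2 : ∑ y ∈ V, (if y = v then ε else 0) • y = ε • v := by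
      have : ∀ y ∈ V, (if y = v then ε else 0) • y = if y = v then ε • v else 0 := by
        intro y _
        by_cases h : y = v
        · rw [if_pos h, if_pos h, h]
        · rw [if_neg h, if_neg h, zero_smul]
      rw [Finset.sum_congr rfl this, Finset.sum_ite_eq' V v (fun _ => ε • v), if_pos hv]
    refine ⟨∑ y ∈ V, w' y • y, ?_, ?_⟩
    · rw [Finset.mem_convexHull']
      refine ⟨w', ?_, ?_, rfl⟩
      · intro y hy
        refine div_nonneg ?_ h1ε.le
        by_cases h : y = v
        · rw [if_pos h, h]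
          linarith
        · rw [if_neg h, sub_zero]
          exact hw0 y hy
      · rw [hw', ← Finset.sum_div, Finset.sum_sub_distrib, hw1, hs, div_self h1ε.ne']
    · have e : (1 - ε) • ∑ y ∈ V, w' y • y = x - ε • v := by
        rw [Finset.smul_sum]
        have : ∀ y ∈ V, (1 - ε) • w' y • y = w y • y - (if y = v then ε else 0) • y := by
          intro y _
          rw [hw', smul_smul, mul_div_cancel₀ _ h1ε.ne', sub_smul]
        rw [Finset.sum_congr rfl this, Finset.sum_sub_distrib, hwx, hs2]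
      rw [e]
      abel
  · have hc : V.card = 1 := by
      have : (V.card : ℝ) = 1 := by
        rw [hε, inv_eq_one] at heq
        exact heq
      exact_mod_cast this
    obtain ⟨a, ha⟩ := Finset.card_eq_one.mp hc
    have hva : v = a := by
      rw [ha, Finset.mem_singleton] at hv
      exact hv
    refine ⟨v, subset_convexHull ℝ _ hv, ?_⟩
    rw [heq, one_smul, sub_self, zero_smul, add_zero, ← hwx, hva]
    rw [ha, Finset.sum_singleton] at hw1 ⊢
    rw [hw1, one_smul]

end COV_

open COV_ in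
/-- the target COV -/
theorem p_COV : T_COV := by
  classical
  intro d K V hK hKV hV
  obtain ⟨o, ho⟩ := hK.ne
  have hoK : o ∈ K := interior_subset ho
  have hVne : V.Nonempty := by
    rw [Finset.nonempty_iff_ne_empty]
    intro h
    rw [hKV, h] at hoK
    simp at hoK
  have : Nonempty V := hVne.to_subtype
  have hcard : Fintype.card V ≤ Fintype.card (Fin (2 ^ d)) := by
    rw [Fintype.card_coe, Fintype.card_fin]
    exact hV
  obtain ⟨f⟩ := Function.Embedding.nonempty_of_card_le hcard
  have hf := Function.leftInverse_invFun f.injective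
  refine ⟨fun j => ((V.card : ℝ)⁻¹) • (((Function.invFun f j : V) : Es d) - o), ?_⟩
  intro x hx
  have hx' := hx
  rw [hKV] at hx'
  obtain ⟨v, hv, p, hp, hxe⟩ := split hVne hx'
  rw [← hKV] at hp
  have hk : (0 : ℝ) < V.card := by exact_mod_cast hVne.card_pos
  have hk1 : (1 : ℝ) ≤ V.card := by exact_mod_cast hVne.card_pos
  have hint : ((V.card : ℝ)⁻¹) • o + (1 - (V.card : ℝ)⁻¹) • p ∈ interior K := by
    refine hK.cv.combo_interior_self_mem_interior ho hp (inv_pos.mpr hk) ?_ (by ring)
    have := inv_le_one_of_one_le₀ hk1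
    linarith
  unfold cnt
  rw [Nat.one_le_iff_ne_zero, ← Nat.pos_iff_ne_zero, Finset.card_pos]
  refine ⟨f ⟨v, hv⟩, ?_⟩
  rw [Finset.mem_filter]
  refine ⟨Finset.mem_univ _, ?_⟩
  have e : x - ((V.card : ℝ)⁻¹) • (((Function.invFun f (f ⟨v, hv⟩) : V) : Es d) - o) =
      ((V.card : ℝ)⁻¹) • o + (1 - (V.card : ℝ)⁻¹) • p := by
    rw [hf ⟨v, hv⟩, hxe]
    simp only [smul_sub]
    abel
  rw [e]
  exact hint

end Pool.Agent.MFH
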