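import Pool.Agent.MFH.Targets

/-!
# MFH-EQU : equality in the second moment
-/

set_option autoImplicit false

open MeasureTheory Set Module
open scoped ENNReal Pointwise

namespace Pool.Agent.MFH

namespace EQU_

theorem zero_off {d : ℕ} {K : Set (Es d)} {μ : Measure (Es d)} (hK : Body K) (hμ : Ext K μ)
    {x : Es d} (hx : x ∉ (2 : ℝ) • K) : μ {y | x - y ∈ interior K} = 0 := by
  refine measure_mono_null ?_ hμ.su
  intro y hy hyK
  apply hx
  have h1 : x - y ∈ K := interior_subset hy
  refine Set.mem_smul_set.2 ⟨(1 / 2 : ℝ) • y + (1 / 2 : ℝ) • (x - y),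
    hK.cv hyK h1 (by norm_num) (by norm_num) (by norm_num), ?_⟩
  module

theorem meas {d : ℕ} (K : Set (Es d)) (μ : Measure (Es d)) [IsProbabilityMeasure μ] :
    Measurable fun x : Es d => μ {y | x - y ∈ interior K} := by
  have hU : MeasurableSet {p : Es d × Es d | p.1 - p.2 ∈ interior K} :=
    (isOpen_interior.preimage (continuous_fst.sub continuous_snd)).measurableSet
  exact measurable_measure_prodMk_left hU

theorem meas' {d : ℕ} (K : Set (Es d)) (μ : Measure (Es d)) [IsProbabilityMeasure μ] :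
    Measurable fun z : Es d => μ {y | y - z ∈ interior K} := by
  have hU : MeasurableSet {p : Es d × Es d | p.2 - p.1 ∈ interior K} :=
    (isOpen_interior.preimage (continuous_snd.sub continuous_fst)).measurableSet
  exact measurable_measure_prodMk_left hU

end EQU_

open EQU_ in
theorem p_EQU (hSQM : T_SQM) : T_EQU := by
  intro d K μ hK hμ
  have : IsProbabilityMeasure μ := ⟨hμ.pr⟩
  obtain ⟨h1, h2, h3⟩ := hSQM d K hK μ hμ.pr
  set H : Es d → ℝ≥0∞ := fun x => μ {y | x - y ∈ interior K} with hH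
  set F : Es d → ℝ≥0∞ := fun z => μ {y | y - z ∈ interior K} with hF
  set q : ℝ≥0∞ := ((2 : ℝ≥0∞) ^ d)⁻¹ with hq
  have hHm : Measurable H := meas K μ
  have hFm : Measurable F := meas' K μ
  have hHle : ∀ x, H x ≤ 1 := fun x => prob_le_one
  have hq0 : q ≠ 0 := ENNReal.inv_ne_zero.2 (ENNReal.pow_ne_top (by norm_num))
  have hqt : q ≠ ⊤ := ENNReal.inv_ne_top.2 (pow_ne_zero _ (by norm_num))
  have hVt : volume K ≠ ⊤ := hK.cp.measure_lt_top.ne
  -- second moment
  have hF2 : ∫⁻ z, F z ^ 2 ≤ q * volume K := by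
    calc ∫⁻ z, F z ^ 2 ≤ ∫⁻ z, q * F z := by
          refine lintegral_mono fun z => ?_
          rw [pow_two]
          exact mul_le_mul' (hμ.le z) le_rfl
      _ = q * volume K := by rw [lintegral_const_mul _ hFm, h1]
  have hH2 : ∫⁻ x, H x ^ 2 ≤ q * volume K := by
    rw [← h3]
    exact hF2
  -- the doubled body
  have hcp : IsCompact ((2 : ℝ) • K) := hK.cp.smul 2
  have hms : MeasurableSet ((2 : ℝ) • K) := hcp.isClosed.measurableSet
  have hvol : volume ((2 : ℝ) • K) = (2 : ℝ≥0∞) ^ d * volume K := by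
    rw [Measure.addHaar_smul, finrank_euclideanSpace_fin, abs_of_nonneg (by positivity),
      ENNReal.ofReal_pow (by norm_num)]
    norm_num
  set ν : Measure (Es d) := volume.restrict ((2 : ℝ) • K) with hν
  have : IsFiniteMeasure ν := ⟨by
    rw [hν, Measure.restrict_apply_univ]
    exact hcp.measure_lt_top⟩
  have hHν : ∫⁻ x, H x ∂ν = volume K := by
    rw [← h2, hν, ← lintegral_indicator hms]
    refine lintegral_congr fun x => ?_
    by_cases hx : x ∈ (2 : ℝ) • K
    · rw [indicator_of_mem hx]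
    · rw [indicator_of_notMem hx]
      exact (zero_off hK hμ hx).symm
  have hHν2 : ∫⁻ x, H x ^ 2 ∂ν ≤ q * volume K := (setLIntegral_le_lintegral _ _).trans hH2
  -- real version
  set hr : Es d → ℝ := fun x => (H x).toReal with hhr
  have hrm : Measurable hr := hHm.ennreal_toReal
  have hr0 : ∀ x, 0 ≤ hr x := fun x => ENNReal.toReal_nonneg
  have hr1 : ∀ x, hr x ≤ 1 := fun x => by
    have := ENNReal.toReal_mono ENNReal.one_ne_top (hHle x)
    simpa using this
  have hI1 : Integrable hr ν := by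
    refine Integrable.mono' (integrable_const (1 : ℝ)) hrm.aestronglyMeasurable
      (ae_of_all _ fun x => ?_)
    rw [Real.norm_eq_abs, abs_of_nonneg (hr0 x)]
    exact hr1 x
  have hI2 : Integrable (fun x => hr x ^ 2) ν := by
    refine Integrable.mono' (integrable_const (1 : ℝ)) (hrm.pow_const 2).aestronglyMeasurable
      (ae_of_all _ fun x => ?_)
    rw [Real.norm_eq_abs, abs_of_nonneg (by positivity)]
    exact pow_le_one₀ (hr0 x) (hr1 x)
  have hE1 : ∫ x, hr x ∂ν = (volume K).toReal := by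
    rw [← hHν, hhr]
    exact integral_toReal hHm.aemeasurable
      (ae_of_all _ fun x => lt_of_le_of_lt (hHle x) ENNReal.one_lt_top)
  have hE2 : ∫ x, hr x ^ 2 ∂ν ≤ q.toReal * (volume K).toReal := by
    have e1 : ∫ x, hr x ^ 2 ∂ν = (∫⁻ x, H x ^ 2 ∂ν).toReal := by
      rw [← integral_toReal (hHm.pow_const 2).aemeasurable
        (ae_of_all _ fun x => lt_of_le_of_lt (pow_le_one' (hHle x) 2)
          ENNReal.one_lt_top)]
      refine integral_congr_ae (ae_of_all _ fun x => ?_)
      simp only [hhr, ENNReal.toReal_pow]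
    rw [e1, ← ENNReal.toReal_mul]
    exact ENNReal.toReal_mono (ENNReal.mul_ne_top hqt hVt) hHν2
  set c : ℝ := q.toReal with hc
  have hcd : c * (2 : ℝ) ^ d = 1 := by
    rw [hc, hq, ENNReal.toReal_inv, ENNReal.toReal_pow, ENNReal.toReal_ofNat]
    exact inv_mul_cancel₀ (by positivity)
  have hνu : (ν univ).toReal = (2 : ℝ) ^ d * (volume K).toReal := by
    rw [hν, Measure.restrict_apply_univ, hvol, ENNReal.toReal_mul, ENNReal.toReal_pow,
      ENNReal.toReal_ofNat]
  have hI3 : Integrable (fun x => (hr x - c) ^ 2) ν := by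
    have : (fun x => (hr x - c) ^ 2) = fun x => hr x ^ 2 - 2 * c * hr x + c ^ 2 := by
      funext x
      ring
    rw [this]
    exact (hI2.sub (hI1.const_mul _)).add (integrable_const _)
  have hE3 : ∫ x, (hr x - c) ^ 2 ∂ν ≤ 0 := by
    have e1 : ∫ x, (hr x - c) ^ 2 ∂ν =
        ∫ x, hr x ^ 2 ∂ν - 2 * c * ∫ x, hr x ∂ν + c ^ 2 * (ν univ).toReal := by
      have e2 : (fun x => (hr x - c) ^ 2) = fun x => (hr x ^ 2 - 2 * c * hr x) + c ^ 2 := by
        funext x
        ring
      have hIc : Integrable (fun x => 2 * c * hr x) ν := hI1.const_mul _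
      have hId : Integrable (fun x => hr x ^ 2 - 2 * c * hr x) ν := hI2.sub hIc
      rw [e2, integral_add hId (integrable_const _), integral_sub hI2 hIc, integral_const_mul,
        integral_const, smul_eq_mul, measureReal_def]
      ring
    rw [e1, hE1, hνu]
    have e3 : c ^ 2 * ((2 : ℝ) ^ d * (volume K).toReal) = c * (volume K).toReal := by
      calc c ^ 2 * ((2 : ℝ) ^ d * (volume K).toReal)
          = (c * (2 : ℝ) ^ d) * (c * (volume K).toReal) := by ring
        _ = c * (volume K).toReal := by rw [hcd, one_mul]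
    rw [e3]
    linarith
  have hE4 : ∫ x, (hr x - c) ^ 2 ∂ν = 0 :=
    le_antisymm hE3 (integral_nonneg fun x => sq_nonneg _)
  have hae : ∀ᵐ x ∂ν, (hr x - c) ^ 2 = 0 := by
    have := (integral_eq_zero_iff_of_nonneg (fun x => sq_nonneg _) hI3).1 hE4
    filter_upwards [this] with x hx
    exact hx
  rw [hν, ae_restrict_iff' hms] at hae
  filter_upwards [hae] with x hx hxK
  have h4 : hr x = c := by
    have := hx hxK
    nlinarith [pow_eq_zero_iff (two_ne_zero) |>.1 this]
  have h5 : H x = q := by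
    have h6 : H x ≠ ⊤ := ne_top_of_le_ne_top ENNReal.one_ne_top (hHle x)
    exact (ENNReal.toReal_eq_toReal_iff' h6 hqt).1 h4
  exact h5

end Pool.Agent.MFH
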