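import Pool.Agent.MFH.Targets

/-!
# FAC: facet normals in all directions
-/

set_option autoImplicit false

open MeasureTheory Set Module
open scoped ENNReal Pointwise

namespace Pool.Agent.MFH

namespace FAC_

variable {d : ℕ}

/-- a point near `e` outside all proper subspaces spanned by subsets of `W` -/
theorem generic (W : Finset (Es d)) (e : Es d) {δ : ℝ} (hδ : 0 < δ) :
    ∃ y : Es d, dist y e < δ ∧
      ∀ B : Set (Es d), B ⊆ (W : Set (Es d)) → Submodule.span ℝ B ≠ ⊤ →
        y ∉ Submodule.span ℝ B := by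
  classical
  by_contra hcon
  push Not at hcon
  set I : Set (Set (Es d)) := {B | B ⊆ (W : Set (Es d)) ∧ Submodule.span ℝ B ≠ ⊤} with hI
  have hfin : I.Finite := by
    refine (W.finite_toSet.finite_subsets).subset ?_
    intro B hB
    exact hB.1
  have h0 : volume (⋃ B ∈ I, ((Submodule.span ℝ B : Submodule ℝ (Es d)) : Set (Es d))) = 0 := by
    rw [measure_biUnion_null_iff hfin.countable]
    intro B hB
    exact Measure.addHaar_submodule volume _ hB.2
  have h1 : Metric.ball e δ ⊆
      ⋃ B ∈ I, ((Submodule.span ℝ B : Submodule ℝ (Es d)) : Set (Es d)) := by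
    intro y hy
    obtain ⟨B, hB, hB1, hB2⟩ := hcon y hy
    simp only [mem_iUnion]
    exact ⟨B, ⟨hB, hB1⟩, hB2⟩
  have h2 : 0 < volume (Metric.ball e δ) := Metric.measure_ball_pos volume e hδ
  exact h2.ne' (measure_mono_null h1 h0)

/-- slabs of the cone over a facet -/
theorem slab (hd : 1 ≤ d) (B : Set (Es d)) (hBf : B.Finite)
    (hspan : Submodule.span ℝ B = ⊤) (g : Es d →L[ℝ] ℝ) (hg : ∀ w ∈ B, g w = 1) :
    ∃ c : ℝ, 0 < c ∧ ∀ h : ℝ, 0 ≤ h → h ≤ 1 →
      c * h ≤ (volume {z | z ∈ convexHull ℝ (insert 0 B) ∧ 1 - h ≤ g z}).toReal := by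
  set D : Set (Es d) := convexHull ℝ (insert 0 B) with hD
  have hcp : IsCompact D := (hBf.insert 0).isCompact_convexHull ℝ
  have hDfin : volume D ≠ ⊤ := hcp.measure_lt_top.ne
  have hint : (interior D).Nonempty := by
    rw [hD, interior_convexHull_nonempty_iff_affineSpan_eq_top]
    apply SetLike.coe_injective
    rw [affineSpan_insert_zero, hspan]
    rfl
  have hpos : 0 < volume D := Measure.measure_pos_of_nonempty_interior volume hint
  have hB : B.Nonempty := by
    by_contra hne
    rw [Set.not_nonempty_iff_eq_empty] at hne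
    rw [hne, Submodule.span_empty] at hspan
    have : Nontrivial (Es d) := by
      have : Nonempty (Fin d) := ⟨⟨0, hd⟩⟩
      infer_instance
    exact bot_ne_top hspan
  have h0D : (0 : Es d) ∈ D := subset_convexHull ℝ _ (mem_insert _ _)
  have hcvD : Convex ℝ D := convex_convexHull ℝ _
  refine ⟨(volume D).toReal, ENNReal.toReal_pos hpos.ne' hDfin, fun h hh0 hh1 => ?_⟩
  set A : Set (Es d) := {z | z ∈ D ∧ 1 - h ≤ g z} with hA
  have hAfin : volume A ≠ ⊤ := measure_ne_top_of_subset (fun z hz => hz.1) hDfin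
  have hsub : D ⊆ A ∪ (1 - h) • D := by
    intro z hz
    by_cases hzg : 1 - h ≤ g z
    · exact Or.inl ⟨hz, hzg⟩
    · right
      push Not at hzg
      have hz' := hz
      rw [hD, convexHull_insert hB, mem_convexJoin] at hz'
      obtain ⟨a, ha, w, hw, hzw⟩ := hz'
      rw [mem_singleton_iff] at ha
      subst ha
      obtain ⟨p, q, hp, hq, hpq, rfl⟩ := hzw
      have hgw : g w = 1 := by
        have hsub1 : convexHull ℝ B ⊆ {w | g w = 1} := by
          apply convexHull_min hg
          have := convex_hyperplane (𝕜 := ℝ) (f := g) g.toLinearMap.isLinear (1 : ℝ)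
          exact this
        exact hsub1 hw
      have hgz : g (p • (0 : Es d) + q • w) = q := by
        rw [map_add, map_smul, map_smul, hgw, map_zero]
        simp
      rw [hgz] at hzg
      have h1h : 0 < 1 - h := lt_of_le_of_lt hq hzg
      refine ⟨(q / (1 - h)) • w, ?_, ?_⟩
      · have hwD : w ∈ D := convexHull_mono (subset_insert _ _) hw
        have hq1 : q / (1 - h) ≤ 1 := by
          rw [div_le_one h1h]
          exact hzg.le
        have := hcvD h0D hwD (a := 1 - q / (1 - h)) (b := q / (1 - h)) (by linarith)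
          (by positivity) (by ring)
        simpa using this
      · simp only [smul_smul]
        rw [mul_div_cancel₀ _ h1h.ne']
        simp
  have hvol : volume ((1 - h) • D) = ENNReal.ofReal ((1 - h) ^ d) * volume D := by
    rw [Measure.addHaar_smul]
    congr 2
    rw [finrank_euclideanSpace_fin, abs_of_nonneg (by have : 0 ≤ 1 - h := by linarith
                                                      positivity)]
  have hle : volume D ≤ volume A + ENNReal.ofReal ((1 - h) ^ d) * volume D := by
    rw [← hvol]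
    exact (measure_mono hsub).trans (measure_union_le _ _)
  have hle' : (volume D).toReal ≤ (volume A).toReal + (1 - h) ^ d * (volume D).toReal := by
    have h1 := ENNReal.toReal_mono (by finiteness) hle
    rw [ENNReal.toReal_add hAfin (by finiteness), ENNReal.toReal_mul,
      ENNReal.toReal_ofReal (by have : 0 ≤ 1 - h := by linarith
                                positivity)] at h1
    exact h1
  have hpw : (1 - h) ^ d ≤ 1 - h := by
    have h1 : (1 - h) ^ d ≤ (1 - h) ^ 1 :=
      pow_le_pow_of_le_one (by linarith) (by linarith) hd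
    simpa using h1
  have hv0 : 0 ≤ (volume D).toReal := ENNReal.toReal_nonneg
  nlinarith [mul_le_mul_of_nonneg_right hpw hv0]

/-- the supporting functional at the end of the ray in direction `y` -/
theorem support {K : Set (Es d)} (hK : Body K) {o : Es d} (ho : o ∈ interior K) {y : Es d}
    (hy : y ≠ 0) : ∃ (g : Es d →L[ℝ] ℝ) (s : ℝ), 0 < s ∧ o + s • y ∈ K ∧ g (s • y) = 1 ∧
      ∀ z ∈ K, g (z - o) ≤ 1 := by
  have hyn : 0 < ‖y‖ := norm_pos_iff.2 hy
  have hcont : Continuous fun s : ℝ => o + s • y := by fun_prop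
  set T : Set ℝ := {s | 0 ≤ s ∧ o + s • y ∈ K} with hT
  obtain ⟨R, hR⟩ := hK.cp.isBounded.subset_closedBall o
  have hTc : IsCompact T := by
    have hcl : IsClosed T := by
      have h1 : T = Ici 0 ∩ (fun s : ℝ => o + s • y) ⁻¹' K := rfl
      rw [h1]
      exact isClosed_Ici.inter (hK.cp.isClosed.preimage hcont)
    refine (isCompact_Icc (a := (0 : ℝ)) (b := R / ‖y‖)).of_isClosed_subset hcl ?_
    intro s hs
    refine ⟨hs.1, ?_⟩
    have h1 := hR hs.2
    rw [Metric.mem_closedBall, dist_self_add_left, norm_smul, Real.norm_of_nonneg hs.1] at h1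
    rw [le_div_iff₀ hyn]
    exact h1
  have hU : IsOpen ((fun s : ℝ => o + s • y) ⁻¹' interior K) :=
    isOpen_interior.preimage hcont
  have h0T : (0 : ℝ) ∈ T := by
    refine ⟨le_rfl, ?_⟩
    simpa using interior_subset ho
  obtain ⟨s, hs⟩ := hTc.exists_isGreatest ⟨0, h0T⟩
  have hs0 : 0 < s := by
    have h1 : (0 : ℝ) ∈ (fun s : ℝ => o + s • y) ⁻¹' interior K := by
      simpa using ho
    obtain ⟨ε, hε, hball⟩ := Metric.isOpen_iff.1 hU 0 h1
    have h2 : ε / 2 ∈ Metric.ball (0 : ℝ) ε := by
      rw [Metric.mem_ball, Real.dist_eq, sub_zero, abs_of_pos (by linarith)]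
      linarith
    have h3 : ε / 2 ∈ T := ⟨by linarith, interior_subset (hball h2)⟩
    have h4 := hs.2 h3
    linarith
  have hx : o + s • y ∉ interior K := by
    intro h1
    obtain ⟨ε, hε, hball⟩ := Metric.isOpen_iff.1 hU s h1
    have h2 : s + ε / 2 ∈ Metric.ball s ε := by
      rw [Metric.mem_ball, Real.dist_eq, add_sub_cancel_left, abs_of_pos (by linarith)]
      linarith
    have h3 : s + ε / 2 ∈ T := ⟨by linarith, interior_subset (hball h2)⟩
    have h4 := hs.2 h3
    linarith
  obtain ⟨f, hf⟩ := geometric_hahn_banach_open_point hK.cv.interior isOpen_interior hx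
  have hfK : ∀ z ∈ K, f z ≤ f (o + s • y) := by
    intro z hz
    have h1 : z ∈ closure (interior K) := by
      rw [hK.cv.closure_interior_eq_closure_of_nonempty_interior hK.ne]
      exact subset_closure hz
    have h2 : closure (interior K) ⊆ {z | f z ≤ f (o + s • y)} :=
      closure_minimal (fun a ha => (hf a ha).le)
        (isClosed_le f.continuous continuous_const)
    exact h2 h1
  have hfo : 0 < f (s • y) := by
    have h1 := hf o ho
    rw [map_add] at h1
    linarith
  refine ⟨(f (s • y))⁻¹ • f, s, hs0, hs.1.2, ?_, fun z hz => ?_⟩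
  · simp only [FunLike.coe_smul, Pi.smul_apply, smul_eq_mul]
    exact inv_mul_cancel₀ hfo.ne'
  · simp only [FunLike.coe_smul, Pi.smul_apply, smul_eq_mul]
    rw [inv_mul_le_iff₀ hfo, mul_one, map_sub]
    have h1 := hfK z hz
    rw [map_add] at h1
    linarith

end FAC_

/-- Facet normals in all directions. -/
theorem p_FAC : T_FAC := by
  classical
  intro d K V hK hKV e he
  have hd : 1 ≤ d := by
    by_contra hcon
    have hd0 : d = 0 := by omega
    subst hd0
    exact he (Subsingleton.elim _ _)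
  obtain ⟨o, ho⟩ := hK.ne
  have hen : 0 < ‖e‖ := norm_pos_iff.2 he
  obtain ⟨r, hr, hball⟩ := Metric.nhds_basis_closedBall.mem_iff.1 (mem_interior_iff_mem_nhds.1 ho)
  obtain ⟨R₀, hR₀⟩ := hK.cp.isBounded.subset_closedBall o
  set R : ℝ := max R₀ 1 with hR
  have hRpos : 0 < R := lt_of_lt_of_le one_pos (le_max_right _ _)
  have hRK : ∀ z ∈ K, ‖z - o‖ ≤ R := by
    intro z hz
    have h1 := hR₀ hz
    rw [Metric.mem_closedBall, dist_eq_norm] at h1
    exact h1.trans (le_max_left _ _)
  set W : Finset (Es d) := V.image fun v => v - o with hW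
  set δ : ℝ := min (‖e‖ / 2) (r * ‖e‖ / (2 * R)) with hδ
  have hδ0 : 0 < δ := by
    rw [hδ]
    apply lt_min
    · positivity
    · positivity
  obtain ⟨y, hye, hygen⟩ := FAC_.generic W e hδ0
  rw [dist_eq_norm] at hye
  have hye1 : ‖y - e‖ < ‖e‖ / 2 := lt_of_lt_of_le hye (min_le_left _ _)
  have hye2 : ‖y - e‖ < r * ‖e‖ / (2 * R) := lt_of_lt_of_le hye (min_le_right _ _)
  have hyn : ‖e‖ / 2 < ‖y‖ := by
    have h1 : ‖e‖ ≤ ‖y‖ + ‖y - e‖ := by
      have h2 := norm_sub_le y (y - e)
      have h3 : y - (y - e) = e := by abel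
      rwa [h3] at h2
    linarith
  have hy0 : y ≠ 0 := by
    intro h
    rw [h, norm_zero] at hyn
    linarith
  obtain ⟨g, s, hs0, hsK, hgs, hgK⟩ := FAC_.support hK ho hy0
  have hgy : g y = 1 / s := by
    rw [map_smul, smul_eq_mul] at hgs
    field_simp
    linarith
  have hsR : s * ‖y‖ ≤ R := by
    have h1 := hRK _ hsK
    rwa [add_sub_cancel_left, norm_smul, Real.norm_of_nonneg hs0.le] at h1
  have hgw : ∀ w : Es d, g w ≤ ‖w‖ / r := by
    intro w
    by_cases hw : w = 0
    · rw [hw]
      simp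
    · have hwn : 0 < ‖w‖ := norm_pos_iff.2 hw
      have h1 : o + (r / ‖w‖) • w ∈ K := by
        apply hball
        rw [Metric.mem_closedBall, dist_self_add_left, norm_smul, Real.norm_of_nonneg
          (by positivity), div_mul_cancel₀ _ hwn.ne']
      have h2 := hgK _ h1
      rw [add_sub_cancel_left, map_smul, smul_eq_mul, div_mul_eq_mul_div,
        div_le_one hwn] at h2
      rw [le_div_iff₀ hr]
      linarith
  have hge : 0 < g e := by
    have h1 : g e = 1 / s - g (y - e) := by
      rw [map_sub, hgy]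
      ring
    have h2 := hgw (y - e)
    have h3 : ‖y‖ / R ≤ 1 / s := by
      rw [div_le_div_iff₀ hRpos hs0]
      linarith
    have h4 : ‖y - e‖ / r < ‖y‖ / R := by
      rw [div_lt_div_iff₀ hr hRpos]
      rw [lt_div_iff₀ (by positivity)] at hye2
      nlinarith
    linarith
  set u : Es d := (InnerProductSpace.toDual ℝ (Es d)).symm g with hu
  have hinner : ∀ x : Es d, inner ℝ x u = g x := by
    intro x
    rw [real_inner_comm, hu, InnerProductSpace.toDual_symm_apply]
  have hVK : ∀ v ∈ V, v ∈ K := by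
    intro v hv
    rw [hKV]
    exact subset_convexHull ℝ _ hv
  -- the facet
  set B : Set (Es d) := {w | ∃ v ∈ V, w = v - o ∧ g w = 1} with hB
  have hBW : B ⊆ (W : Set (Es d)) := by
    rintro w ⟨v, hv, rfl, -⟩
    rw [hW, Finset.coe_image]
    exact ⟨v, hv, rfl⟩
  have hx := hsK
  rw [hKV, Finset.mem_convexHull'] at hx
  obtain ⟨a, ha0, ha1, hax⟩ := hx
  have hsy : ∑ v ∈ V, a v • (v - o) = s • y := by
    simp only [smul_sub, Finset.sum_sub_distrib, ← Finset.sum_smul, hax, ha1, one_smul]
    abel
  have hzero : ∀ v ∈ V, a v * (1 - g (v - o)) = 0 := by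
    have h1 : ∑ v ∈ V, a v * (1 - g (v - o)) = 0 := by
      have h2 : g (∑ v ∈ V, a v • (v - o)) = 1 := by rw [hsy, hgs]
      rw [map_sum] at h2
      simp only [map_smul, smul_eq_mul] at h2
      have h3 : ∑ v ∈ V, a v * (1 - g (v - o))
          = ∑ v ∈ V, a v - ∑ v ∈ V, a v * g (v - o) := by
        rw [← Finset.sum_sub_distrib]
        exact Finset.sum_congr rfl fun v _ => by ring
      rw [h3, h2, ha1, sub_self]
    exact (Finset.sum_eq_zero_iff_of_nonneg fun v hv => mul_nonneg (ha0 v hv)
      (by linarith [hgK v (hVK v hv)])).1 h1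
  have hmemB : ∀ v ∈ V, a v ≠ 0 → v - o ∈ B := by
    intro v hv hav
    have h1 := hzero v hv
    have h2 : 1 - g (v - o) = 0 := by
      rcases mul_eq_zero.1 h1 with h | h
      · exact absurd h hav
      · exact h
    exact ⟨v, hv, rfl, by linarith⟩
  have hyspan : y ∈ Submodule.span ℝ B := by
    have h1 : s • y ∈ Submodule.span ℝ B := by
      rw [← hsy]
      refine Submodule.sum_mem _ fun v hv => ?_
      by_cases hav : a v = 0
      · rw [hav, zero_smul]
        exact Submodule.zero_mem _
      · exact Submodule.smul_mem _ _ (Submodule.subset_span (hmemB v hv hav))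
    have h2 := Submodule.smul_mem (Submodule.span ℝ B) s⁻¹ h1
    rwa [smul_smul, inv_mul_cancel₀ hs0.ne', one_smul] at h2
  have hspan : Submodule.span ℝ B = ⊤ := by
    by_contra hcon
    exact hygen B hBW hcon hyspan
  obtain ⟨v₀, hv₀, hav₀⟩ : ∃ v ∈ V, a v ≠ 0 := by
    apply Finset.exists_ne_zero_of_sum_ne_zero
    rw [ha1]
    exact one_ne_zero
  obtain ⟨c, hc, hslab⟩ := FAC_.slab hd B (W.finite_toSet.subset hBW) hspan g (by
    rintro w ⟨v, hv, -, hgw⟩
    exact hgw)
  have hDK : ∀ z ∈ convexHull ℝ (insert 0 B), o + z ∈ K := by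
    have h1 : convexHull ℝ (insert 0 B) ⊆ (fun z => o + z) ⁻¹' K := by
      apply convexHull_min
      · rw [insert_subset_iff]
        constructor
        · simpa using interior_subset ho
        · rintro w ⟨v, hv, rfl, -⟩
          simpa using hVK v hv
      · exact hK.cv.translate_preimage_right o
    exact fun z hz => h1 hz
  refine ⟨u, 1 + g o, c, ?_, ?_, ⟨v₀, hv₀, ?_⟩, hc, fun h hh0 hh1 => ?_⟩
  · rw [hinner]
    exact hge
  · intro x hx
    rw [hinner]
    have h1 := hgK x hx
    rw [map_sub] at h1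
    linarith
  · rw [hinner]
    obtain ⟨v, hv, hveq, hgv⟩ := hmemB v₀ hv₀ hav₀
    rw [map_sub] at hgv
    linarith
  · refine (hslab h hh0 hh1).trans ?_
    unfold cap
    have hfin : volume {x | x ∈ K ∧ 1 + g o - h ≤ inner ℝ x u} ≠ ⊤ :=
      measure_ne_top_of_subset (fun z hz => hz.1) hK.cp.measure_lt_top.ne
    apply ENNReal.toReal_mono hfin
    rw [← measure_preimage_add volume o {x | x ∈ K ∧ 1 + g o - h ≤ inner ℝ x u}]
    apply measure_mono
    rintro z ⟨hz1, hz2⟩
    refine ⟨hDK z hz1, ?_⟩
    change 1 + g o - h ≤ inner ℝ (o + z) u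
    rw [hinner, map_add]
    linarith

end Pool.Agent.MFH
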