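import Pool.Agent.MFH.Targets

/-!
# FNV: the extremal measure is uniform on the vertices
-/

set_option autoImplicit false

open MeasureTheory Set Module
open scoped ENNReal Pointwise

namespace Pool.Agent.MFH

namespace FNV_

theorem q0 (d : ℕ) : ((2 : ℝ≥0∞) ^ d)⁻¹ ≠ 0 :=
  ENNReal.inv_ne_zero.mpr (ENNReal.pow_ne_top (by norm_num))

theorem q1 (d : ℕ) : ((2 : ℝ≥0∞) ^ d)⁻¹ ≠ ⊤ :=
  ENNReal.inv_ne_top.mpr (pow_ne_zero _ (by norm_num))

theorem q2 (d : ℕ) : ((2 : ℝ≥0∞) ^ d)⁻¹ * ((2 ^ d : ℕ) : ℝ≥0∞) = 1 := by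
  push_cast
  exact ENNReal.inv_mul_cancel (pow_ne_zero _ (by norm_num)) (ENNReal.pow_ne_top (by norm_num))

/-- a positive coefficient in a convex combination can be moved to an interior point -/
theorem combo {d : ℕ} {K : Set (Es d)} (hK : Convex ℝ K) {o : Es d} (ho : o ∈ interior K)
    {V : Finset (Es d)} (hV : (V : Set (Es d)) ⊆ K) {w : Es d → ℝ} (hw0 : ∀ y ∈ V, 0 ≤ w y)
    (hw1 : ∑ y ∈ V, w y = 1) {v : Es d} (hv : v ∈ V) (hwv : 0 < w v) :
    (∑ y ∈ V, w y • y) - w v • (v - o) ∈ interior K := by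
  classical
  have h1 : ∑ y ∈ V, w y • y = w v • v + ∑ y ∈ V.erase v, w y • y :=
    (Finset.add_sum_erase V (fun y => w y • y) hv).symm
  have h2 : w v + ∑ y ∈ V.erase v, w y = 1 := by
    rw [← hw1]
    exact Finset.add_sum_erase V w hv
  obtain ⟨b, hb⟩ : ∃ b, b = ∑ y ∈ V.erase v, w y := ⟨_, rfl⟩
  have hw0' : ∀ y ∈ V.erase v, 0 ≤ w y := fun y hy => hw0 y (Finset.mem_of_mem_erase hy)
  have hb0 : 0 ≤ b := by
    rw [hb]
    exact Finset.sum_nonneg hw0'
  have hy : ∃ y ∈ K, b • y = ∑ y ∈ V.erase v, w y • y := by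
    rcases hb0.eq_or_lt with h | h
    · refine ⟨o, interior_subset ho, ?_⟩
      rw [← h, zero_smul]
      have h3 := (Finset.sum_eq_zero_iff_of_nonneg hw0').1 (hb.symm.trans h.symm)
      exact (Finset.sum_eq_zero fun y hy => by rw [h3 y hy, zero_smul]).symm
    · refine ⟨∑ y ∈ V.erase v, (b⁻¹ * w y) • y, ?_, ?_⟩
      · refine hK.sum_mem (fun y hy => mul_nonneg (by positivity) (hw0' y hy)) ?_
          (fun y hy => hV (Finset.mem_coe.2 (Finset.mem_of_mem_erase hy)))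
        rw [← Finset.mul_sum, ← hb]
        exact inv_mul_cancel₀ h.ne'
      · rw [Finset.smul_sum]
        refine Finset.sum_congr rfl fun y _ => ?_
        rw [smul_smul, ← mul_assoc, mul_inv_cancel₀ h.ne', one_mul]
  obtain ⟨y, hyK, hy⟩ := hy
  have h3 : (∑ y ∈ V, w y • y) - w v • (v - o) = w v • o + b • y := by
    rw [h1, hy, smul_sub]
    abel
  rw [h3]
  exact hK.combo_interior_self_mem_interior ho hyK hwv hb0 (by rw [hb]; exact h2)

end FNV_

open FNV_ in
theorem p_FNV (hATM : T_ATM) : T_FNV := by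
  classical
  intro d K μ hK hμ
  have hfin : IsFiniteMeasure μ := ⟨by rw [hμ.pr]; exact ENNReal.one_lt_top⟩
  have hat : ∀ v ∈ K.extremePoints ℝ, ((2 : ℝ≥0∞) ^ d)⁻¹ ≤ μ {v} := hATM d K μ hK hμ
  -- finitely many extreme points
  have hEf : (K.extremePoints ℝ).Finite := by
    by_contra h
    obtain ⟨T, hT, hTc⟩ := Set.Infinite.exists_subset_card_eq h (2 ^ d + 1)
    have h1 : ∑ v ∈ T, μ {v} ≤ 1 := by
      rw [sum_measure_singleton, ← hμ.pr]
      exact measure_mono (subset_univ _)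
    have h2 : ∑ v ∈ T, ((2 : ℝ≥0∞) ^ d)⁻¹ ≤ ∑ v ∈ T, μ {v} :=
      Finset.sum_le_sum fun v hv => hat v (hT hv)
    rw [Finset.sum_const, hTc, nsmul_eq_mul] at h2
    have h3 : ((2 ^ d + 1 : ℕ) : ℝ≥0∞) * ((2 : ℝ≥0∞) ^ d)⁻¹ = 1 + ((2 : ℝ≥0∞) ^ d)⁻¹ := by
      rw [Nat.cast_add, add_mul, mul_comm, q2, Nat.cast_one, one_mul]
    rw [h3] at h2
    have h4 : 1 + ((2 : ℝ≥0∞) ^ d)⁻¹ ≤ 1 + 0 := by
      rw [add_zero]
      exact h2.trans h1
    have h5 := (ENNReal.add_le_add_iff_left ENNReal.one_ne_top).1 h4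
    exact q0 d (le_antisymm h5 zero_le)
  obtain ⟨V, hV⟩ : ∃ V : Finset (Es d), (V : Set (Es d)) = K.extremePoints ℝ :=
    ⟨hEf.toFinset, hEf.coe_toFinset⟩
  have hVK : (V : Set (Es d)) ⊆ K := by
    rw [hV]
    exact extremePoints_subset
  have hhull : K = convexHull ℝ (V : Set (Es d)) := by
    have h1 := closure_convexHull_extremePoints hK.cp hK.cv
    rw [← hV] at h1
    have h2 : IsClosed (convexHull ℝ (V : Set (Es d))) :=
      (Set.Finite.isCompact_convexHull (𝕜 := ℝ) V.finite_toSet).isClosed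
    rw [h2.closure_eq] at h1
    exact h1.symm
  obtain ⟨o, ho⟩ := hK.ne
  have hop : ∀ z : Es d, IsOpen {y : Es d | y - z ∈ interior K} := fun z =>
    isOpen_interior.preimage (continuous_id.sub continuous_const)
  have hle : ∀ z : Es d, μ {y | y - z ∈ interior K} ≤ ((2 : ℝ≥0∞) ^ d)⁻¹ := hμ.le
  have hqv : ∀ v ∈ V, ((2 : ℝ≥0∞) ^ d)⁻¹ ≤ μ {v} := fun v hv =>
    hat v (by rw [← hV]; exact Finset.mem_coe.2 hv)
  have hsub : ∀ v z : Es d, v - z ∈ interior K → ({v} : Set (Es d)) ⊆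
      {y | y - z ∈ interior K} := by
    intro v z h
    exact singleton_subset_iff.2 h
  have hnull : ∀ v ∈ V, ∀ z : Es d, v - z ∈ interior K →
      μ ({y | y - z ∈ interior K} \ {v}) = 0 := by
    intro v hv z hz
    rw [measure_sdiff (hsub v z hz) (measurableSet_singleton v).nullMeasurableSet
      (measure_ne_top μ _)]
    exact tsub_eq_zero_of_le ((hle z).trans (hqv v hv))
  have hmass : ∀ v ∈ V, μ {v} = ((2 : ℝ≥0∞) ^ d)⁻¹ := by
    intro v hv
    refine le_antisymm ?_ (hqv v hv)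
    refine (measure_mono (hsub v (v - o) ?_)).trans (hle (v - o))
    rw [sub_sub_cancel]
    exact ho
  -- no mass outside `V`
  have hout : μ (K \ (V : Set (Es d))) = 0 := by
    refine measure_null_of_locally_null _ fun t ht => ?_
    obtain ⟨htK, htV⟩ := ht
    rw [hhull, Finset.mem_convexHull'] at htK
    obtain ⟨w, hw0, hw1, hwt⟩ := htK
    obtain ⟨v, hv, hwv⟩ : ∃ v ∈ V, 0 < w v := by
      by_contra h
      push Not at h
      have h1 : ∑ y ∈ V, w y ≤ 0 := Finset.sum_nonpos h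
      rw [hw1] at h1
      linarith
    have hwv1 : w v ≤ 1 := by
      rw [← hw1]
      exact Finset.single_le_sum hw0 hv
    have h1 := combo hK.cv ho hVK hw0 hw1 hv hwv
    rw [hwt] at h1
    have h2 : v - w v • (v - o) ∈ interior K := by
      have h3 : v - w v • (v - o) = w v • o + (1 - w v) • v := by
        rw [smul_sub, sub_smul, one_smul]
        abel
      rw [h3]
      exact hK.cv.combo_interior_self_mem_interior ho (hVK (Finset.mem_coe.2 hv)) hwv
        (by linarith) (by ring)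
    refine ⟨{y | y - w v • (v - o) ∈ interior K} \ {v}, ?_, hnull v hv _ h2⟩
    refine mem_nhdsWithin_of_mem_nhds (IsOpen.mem_nhds ?_ ⟨h1, ?_⟩)
    · exact (hop _).sdiff isClosed_singleton
    · intro h3
      rw [mem_singleton_iff] at h3
      exact htV (by rw [h3]; exact Finset.mem_coe.2 hv)
  have hVc : μ (V : Set (Es d))ᶜ = 0 := by
    refine measure_mono_null (fun y hy => ?_) (measure_union_null hμ.su hout)
    by_cases h : y ∈ K
    · exact Or.inr ⟨h, hy⟩
    · exact Or.inl h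
  have hval : ∀ s : Set (Es d), μ s = ((2 : ℝ≥0∞) ^ d)⁻¹ *
      (((V.filter (fun v => v ∈ s)).card : ℕ) : ℝ≥0∞) := by
    intro s
    have h1 : ((V.filter (fun v => v ∈ s) : Finset (Es d)) : Set (Es d)) = s ∩ V := by
      ext y
      simp only [Finset.coe_filter, Set.mem_ofPred_eq, mem_inter_iff, Finset.mem_coe]
      exact and_comm
    have h2 : μ s = μ (s ∩ V) := by
      refine le_antisymm ?_ (measure_mono inter_subset_left)
      calc μ s ≤ μ (s ∩ V ∪ (V : Set (Es d))ᶜ) := by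
            refine measure_mono fun y hy => ?_
            by_cases h : y ∈ (V : Set (Es d))
            · exact Or.inl ⟨hy, h⟩
            · exact Or.inr h
        _ ≤ μ (s ∩ V) + μ (V : Set (Es d))ᶜ := measure_union_le _ _
        _ = μ (s ∩ V) := by rw [hVc, add_zero]
    rw [h2, ← h1, ← sum_measure_singleton]
    rw [Finset.sum_congr rfl fun v hv => hmass v (Finset.mem_filter.1 hv).1, Finset.sum_const,
      nsmul_eq_mul, mul_comm]
  refine ⟨V, hhull, ?_, fun s _ => ?_⟩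
  · have h1 := hval univ
    rw [hμ.pr] at h1
    have h2 : (1 : ℝ≥0∞) = ((2 : ℝ≥0∞) ^ d)⁻¹ * ((V.card : ℕ) : ℝ≥0∞) := by
      refine h1.trans (congrArg (fun n : ℕ => ((2 : ℝ≥0∞) ^ d)⁻¹ * (n : ℝ≥0∞))
        (congrArg Finset.card ?_))
      ext v
      simp only [Finset.mem_filter, mem_univ, and_true]
    rw [← q2 d] at h2
    have h3 := (ENNReal.mul_right_inj (q0 d) (q1 d)).1 h2
    exact (Nat.cast_inj.1 h3).symm
  · rw [hval s]

end Pool.Agent.MFH
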