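import Pool.Agent.MFH.Targets
import Pool.Agent.FracH.Frac

/-!
# MFH, GAM: finite games
-/

set_option autoImplicit false

open MeasureTheory Set Module
open scoped ENNReal Pointwise

namespace Pool.Agent.MFH

/-- the discrete probability measure -/
theorem GAM_.disc {d : ℕ} {K : Set (Es d)} (hc : IsCompact K) {ρ q : ℝ} (hq0 : 0 < q)
    (hcl : ∀ μ : Measure (Es d), μ univ = 1 → μ Kᶜ = 0 →
      ∃ z : Es d, ENNReal.ofReal q < μ {y | y - z ∈ ρ • K}) {n : ℕ} (x : Fin n → Es d)
    (hx : ∀ i, x i ∈ K) (m : Fin n → ℝ) (hm : ∀ i, 0 ≤ m i) (hm0 : 0 < ∑ i, m i) :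
    ∃ z : Es d, q * ∑ i, m i ≤
      ∑ i, m i * ({y | y - z ∈ ρ • K} : Set (Es d)).indicator (fun _ => (1 : ℝ)) (x i) := by
  classical
  set S := ∑ i, m i with hS
  set μ : Measure (Es d) := ∑ i, ENNReal.ofReal (m i / S) • Measure.dirac (x i) with hμ
  have happ : ∀ s : Set (Es d), MeasurableSet s → μ s =
      ENNReal.ofReal (∑ i, m i / S * s.indicator (fun _ => (1 : ℝ)) (x i)) := by
    intro s hs
    rw [hμ, Measure.finsetSum_apply, ENNReal.ofReal_sum_of_nonneg]
    · refine Finset.sum_congr rfl fun i _ => ?_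
      rw [Measure.smul_apply, Measure.dirac_apply' _ hs]
      by_cases h : x i ∈ s
      · simp [h]
      · simp [h]
    · intro i _
      exact mul_nonneg (div_nonneg (hm i) hm0.le) (indicator_nonneg (fun _ _ => zero_le_one) _)
  have huniv : μ univ = 1 := by
    rw [happ _ MeasurableSet.univ]
    simp only [indicator_univ, mul_one]
    rw [← Finset.sum_div, ← hS, div_self hm0.ne', ENNReal.ofReal_one]
  have hKA : μ Kᶜ = 0 := by
    rw [happ _ hc.measurableSet.compl]
    simp [hx]
  obtain ⟨z, hz⟩ := hcl μ huniv hKA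
  refine ⟨z, ?_⟩
  have hms : MeasurableSet ({y | y - z ∈ ρ • K} : Set (Es d)) :=
    (hc.smul ρ).measurableSet.preimage (by fun_prop)
  rw [happ _ hms] at hz
  have h1 := (ENNReal.ofReal_lt_ofReal_iff_of_nonneg hq0.le).1 hz
  have h2 : ∑ i, m i / S * ({y | y - z ∈ ρ • K} : Set (Es d)).indicator (fun _ => (1 : ℝ)) (x i) =
      (∑ i, m i * ({y | y - z ∈ ρ • K} : Set (Es d)).indicator (fun _ => (1 : ℝ)) (x i)) / S := by
    rw [Finset.sum_div]
    refine Finset.sum_congr rfl fun i _ => ?_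
    ring
  rw [h2, lt_div_iff₀ hm0] at h1
  exact h1.le

theorem p_GAM : T_GAM := by
  classical
  intro d K hB hfr ρ hρ hρ1 q hq
  by_contra hcon
  apply hfr
  have hK := hB.cv
  have hc := hB.cp
  have h2d : (0 : ℝ) < ((2 : ℝ) ^ d)⁻¹ := by positivity
  have hq0 : 0 < q := h2d.trans hq
  have hcl : ∀ μ : Measure (Es d), μ univ = 1 → μ Kᶜ = 0 →
      ∃ z : Es d, ENNReal.ofReal q < μ {y | y - z ∈ ρ • K} := by
    intro μ h1 h2
    by_contra h3
    push Not at h3
    exact hcon ⟨μ, h1, h2, h3⟩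
  obtain ⟨o, ho⟩ := hB.ne
  set δ := (1 - ρ) / 2 with hδ
  have hδ0 : 0 < δ := by rw [hδ]; linarith
  have hρδ : ρ + δ < 1 := by rw [hδ]; linarith
  -- finite net
  set O : Es d → Set (Es d) := fun x => {y | y - x + δ • o ∈ δ • interior K} with hO
  have hOo : ∀ x, IsOpen (O x) := by
    intro x
    have : IsOpen (δ • interior K) := isOpen_interior.smul₀ hδ0.ne'
    exact this.preimage (by fun_prop)
  obtain ⟨F, hF⟩ := hc.elim_nhds_subcover' (fun x _ => O x) (by
    intro x hx
    refine (hOo x).mem_nhds ?_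
    show x - x + δ • o ∈ δ • interior K
    rw [sub_self, zero_add]
    exact smul_mem_smul_set ho)
  set n := F.card with hn
  set e := F.equivFin.symm with he
  set x : Fin n → Es d := fun i => ((e i : K) : Es d) with hx
  have hxK : ∀ i, x i ∈ K := fun i => (e i : K).2
  -- the game
  set vv : Es d → (Fin n → ℝ) := fun z i =>
    ({y | y - z ∈ ρ • K} : Set (Es d)).indicator (fun _ => (1 : ℝ)) (x i) with hvv
  have hfin : (Set.range vv).Finite := by
    refine Set.Finite.subset (Set.Finite.pi (fun _ : Fin n => Set.toFinite ({0, 1} : Set ℝ))) ?_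
    rintro _ ⟨z, rfl⟩ i _
    simp only [hvv]
    by_cases h : x i ∈ ({y | y - z ∈ ρ • K} : Set (Es d))
    · rw [indicator_of_mem h]
      simp
    · rw [indicator_of_notMem h]
      simp
  obtain ⟨v, hv, hvq⟩ := Pool.Agent.FracH.minimax (Set.range vv) hfin ⟨vv 0, 0, rfl⟩ q (by
    intro m hm hm0
    obtain ⟨z, hz⟩ := GAM_.disc hc hq0 hcl x hxK m hm hm0
    exact ⟨vv z, ⟨z, rfl⟩, hz⟩)
  rw [mem_convexHull_iff_exists_fintype] at hv
  obtain ⟨ι, hι, w, zz, hw0, hw1, hzz, hsum⟩ := hv
  choose z hz using hzz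
  set e2 := (Fintype.equivFin ι).symm with he2
  refine ⟨Fintype.card ι, fun j => z (e2 j) - δ • o - (1 - (ρ + δ)) • o, fun j => w (e2 j) / q,
    ?_, ?_, ?_⟩
  · intro j
    exact div_nonneg (hw0 _) hq0.le
  · intro y hy
    have hy2 := hF hy
    simp only [mem_iUnion, exists_prop] at hy2
    obtain ⟨p, hpF, hyp⟩ := hy2
    -- index of `p`
    obtain ⟨i, hi⟩ : ∃ i, x i = p := by
      refine ⟨F.equivFin ⟨p, hpF⟩, ?_⟩
      simp [hx, he]
    have hyi : y - x i + δ • o ∈ δ • interior K := by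
      rw [hi]
      exact hyp
    have hvi := hvq i
    rw [← hsum] at hvi
    have h1 : (∑ k, w k • zz k) i = ∑ k, w k *
        ({y | y - z k ∈ ρ • K} : Set (Es d)).indicator (fun _ => (1 : ℝ)) (x i) := by
      rw [Finset.sum_apply]
      refine Finset.sum_congr rfl fun k _ => ?_
      rw [Pi.smul_apply, smul_eq_mul, ← hz k]
    rw [h1] at hvi
    have h2 : 1 ≤ ∑ k, w k / q *
        ({y | y - z k ∈ ρ • K} : Set (Es d)).indicator (fun _ => (1 : ℝ)) (x i) := by
      have : ∑ k, w k / q *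
          ({y | y - z k ∈ ρ • K} : Set (Es d)).indicator (fun _ => (1 : ℝ)) (x i) =
          (∑ k, w k *
            ({y | y - z k ∈ ρ • K} : Set (Es d)).indicator (fun _ => (1 : ℝ)) (x i)) / q := by
        rw [Finset.sum_div]
        refine Finset.sum_congr rfl fun k _ => ?_
        ring
      rw [this, le_div_iff₀ hq0, one_mul]
      exact hvi
    refine h2.trans ?_
    rw [← Equiv.sum_comp e2]
    refine Finset.sum_le_sum fun j _ => ?_
    have hwj : 0 ≤ w (e2 j) / q := div_nonneg (hw0 _) hq0.le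
    by_cases hin : (x i) ∈ ({y | y - z (e2 j) ∈ ρ • K} : Set (Es d))
    · have hgoal : y - (z (e2 j) - δ • o - (1 - (ρ + δ)) • o) ∈ interior K := by
        have hm1 : x i - z (e2 j) ∈ ρ • K := hin
        obtain ⟨k2, hk2, hk2e⟩ := hyi
        simp only at hk2e
        have hmem := Pool.Agent.FracH.add_mem_smul hK hρ.le hδ0.le hm1
          (smul_mem_smul_set (interior_subset hk2) : δ • k2 ∈ δ • K)
        obtain ⟨k, hkK, hke⟩ := hmem
        simp only at hke
        have hint : (1 - (ρ + δ)) • o + (ρ + δ) • k ∈ interior K :=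
          hK.combo_interior_self_mem_interior ho hkK (by linarith) (by positivity) (by ring)
        have heq : y - (z (e2 j) - δ • o - (1 - (ρ + δ)) • o) =
            (1 - (ρ + δ)) • o + (ρ + δ) • k := by
          rw [hke, hk2e]
          module
        rw [heq]
        exact hint
      rw [indicator_of_mem hin, if_pos hgoal, mul_one]
    · rw [indicator_of_notMem hin, mul_zero]
      split_ifs
      · exact hwj
      · exact le_rfl
  · rw [← Finset.sum_div, Equiv.sum_comp e2 w, hw1, one_div]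
    exact inv_lt_of_inv_lt₀ (by positivity) hq

end Pool.Agent.MFH
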