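import Pool.Agent.MFH.Targets

/-!
# MFH-HOM: homotheties of slabs
-/

set_option autoImplicit false

open MeasureTheory Set Module
open scoped ENNReal Pointwise

namespace Pool.Agent.MFH

namespace HOM_

/-- the slab -/
def slab {d : ℕ} (K : Set (Es d)) (u : Es d) (b α β : ℝ) : Set (Es d) :=
  {x | x ∈ K ∧ b - β ≤ inner ℝ x u ∧ inner ℝ x u < b - α}

theorem meas_cap {d : ℕ} {K : Set (Es d)} (hK : Body K) (u : Es d) (c : ℝ) :
    MeasurableSet {x | x ∈ K ∧ c ≤ inner ℝ x u} := by
  have h1 : MeasurableSet {x : Es d | c ≤ inner ℝ x u} :=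
    measurableSet_le measurable_const (by fun_prop)
  exact hK.cp.measurableSet.inter h1

theorem meas_slab {d : ℕ} {K : Set (Es d)} (hK : Body K) (u : Es d) (b α β : ℝ) :
    MeasurableSet (slab K u b α β) := by
  have h1 : MeasurableSet {x : Es d | b - β ≤ inner ℝ x u} :=
    measurableSet_le measurable_const (by fun_prop)
  have h2 : MeasurableSet {x : Es d | inner ℝ x u < b - α} :=
    measurableSet_lt (by fun_prop) measurable_const
  exact hK.cp.measurableSet.inter (h1.inter h2)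

theorem vol_ne_top {d : ℕ} {K : Set (Es d)} (hK : Body K) {A : Set (Es d)} (hA : A ⊆ K) :
    volume A ≠ ⊤ :=
  ((measure_mono hA).trans_lt hK.cp.measure_lt_top).ne

theorem cap_sub {d : ℕ} {K : Set (Es d)} (hK : Body K) (u : Es d) (b : ℝ) {α β : ℝ}
    (h : α ≤ β) : cap K u b β - cap K u b α = (volume (slab K u b α β)).toReal := by
  have h1 : {x | x ∈ K ∧ b - β ≤ inner ℝ x u} =
      slab K u b α β ∪ {x | x ∈ K ∧ b - α ≤ inner ℝ x u} := by
    ext x
    simp only [slab, mem_union, mem_ofPred_eq]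
    constructor
    · rintro ⟨h1, h2⟩
      rcases lt_or_ge (inner ℝ x u) (b - α) with h3 | h3
      · exact Or.inl ⟨h1, h2, h3⟩
      · exact Or.inr ⟨h1, h3⟩
    · rintro (⟨h1, h2, -⟩ | ⟨h1, h2⟩)
      · exact ⟨h1, h2⟩
      · exact ⟨h1, by linarith⟩
  have h2 : Disjoint (slab K u b α β) {x | x ∈ K ∧ b - α ≤ inner ℝ x u} := by
    rw [Set.disjoint_left]
    rintro x ⟨-, -, h3⟩ ⟨-, h4⟩
    exact absurd h3 (not_lt.mpr h4)
  unfold cap
  rw [h1, measure_union h2 (meas_cap hK u _), ENNReal.toReal_add]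
  · ring
  · exact vol_ne_top hK fun x hx => hx.1
  · exact vol_ne_top hK fun x hx => hx.1

theorem main {d : ℕ} {K : Set (Es d)} (hK : Body K) (u : Es d) (b W : ℝ) (p : Es d)
    (hp : p ∈ K) (hpu : inner ℝ p u = b - W) (r : ℝ) (hr0 : 0 < r) (hr1 : r ≤ 1) (α β : ℝ)
    (hαβ : α ≤ β) :
    r ^ d * (cap K u b β - cap K u b α) ≤
      cap K u b (W - r * (W - β)) - cap K u b (W - r * (W - α)) := by
  have h0 : W - r * (W - α) ≤ W - r * (W - β) := by nlinarith
  rw [cap_sub hK u b hαβ, cap_sub hK u b h0]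
  have h1 : AffineMap.homothety p r '' slab K u b α β ⊆
      slab K u b (W - r * (W - α)) (W - r * (W - β)) := by
    rintro _ ⟨x, ⟨hx, hx1, hx2⟩, rfl⟩
    have h2 : AffineMap.homothety p r x = (1 - r) • p + r • x := by
      rw [AffineMap.homothety_apply, vsub_eq_sub, vadd_eq_add, smul_sub, sub_smul, one_smul]
      abel
    have h3 : inner ℝ (AffineMap.homothety p r x) u = (1 - r) * (b - W) + r * inner ℝ x u := by
      rw [h2, inner_add_left, inner_smul_left, inner_smul_left, hpu]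
      simp
    refine ⟨?_, ?_, ?_⟩
    · rw [h2]
      exact hK.cv hp hx (by linarith) hr0.le (by ring)
    · rw [h3]
      nlinarith
    · rw [h3]
      nlinarith
  have h2 : volume (AffineMap.homothety p r '' slab K u b α β) =
      ENNReal.ofReal (r ^ d) * volume (slab K u b α β) := by
    rw [Measure.addHaar_image_homothety, abs_of_nonneg (by positivity)]
    simp
  have h3 := ENNReal.toReal_mono (vol_ne_top hK fun x hx => hx.1) (measure_mono h1 (μ := volume))
  rw [h2, ENNReal.toReal_mul, ENNReal.toReal_ofReal (by positivity)] at h3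
  exact h3

end HOM_

open HOM_ in
theorem p_HOM : T_HOM := by
  intro d K u b W hK h1 h2 r hr0 hr1 α β hαβ
  obtain ⟨p, hp, hpu⟩ := h1
  obtain ⟨q, hq, hqu⟩ := h2
  refine ⟨?_, HOM_.main hK u b W q hq hqu r hr0 hr1 α β hαβ⟩
  have h3 := HOM_.main hK u b 0 p hp (by rw [hpu, sub_zero]) r hr0 hr1 α β hαβ
  have h4 : ∀ t : ℝ, (0 : ℝ) - r * (0 - t) = r * t := fun t => by ring
  rw [h4, h4] at h3
  exact h3

end Pool.Agent.MFH
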