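import Pool.Agent.MFH.Targets

/-!
# MFH, target LIM: the limit measure
-/

set_option autoImplicit false

open MeasureTheory Set Module Filter Topology
open scoped ENNReal Pointwise

namespace Pool.Agent.MFH

namespace LIM_

variable {d : ℕ}

/-- the shrunk translate of the interior -/
def U (K : Set (Es d)) (o z : Es d) (r : ℝ) : Set (Es d) :=
  {y | r⁻¹ • (y - z - (1 - r) • o) ∈ interior K}

theorem open_U (K : Set (Es d)) (o z : Es d) (r : ℝ) : IsOpen (U K o z r) := by
  unfold U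
  exact isOpen_interior.preimage (by fun_prop)

/-- elements of `U` -/
theorem mem_U {K : Set (Es d)} {o z y : Es d} {r : ℝ} (hr : 0 < r) :
    y ∈ U K o z r ↔ ∃ w ∈ interior K, y - z = (1 - r) • o + r • w := by
  constructor
  · intro h
    refine ⟨_, h, ?_⟩
    rw [smul_smul, mul_inv_cancel₀ hr.ne', one_smul]
    abel
  · rintro ⟨w, hw, he⟩
    show r⁻¹ • (y - z - (1 - r) • o) ∈ interior K
    rw [he, add_sub_cancel_left, smul_smul, inv_mul_cancel₀ hr.ne', one_smul]
    exact hw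

/-- `U` is contained in a translate of `ρ • K` -/
theorem U_sub {K : Set (Es d)} (hK : Convex ℝ K) {o z : Es d} (ho : o ∈ interior K) {r ρ : ℝ}
    (hr : 0 < r) (hρ : r ≤ ρ) : U K o z r ⊆ {y | y - (z + (1 - ρ) • o) ∈ ρ • K} := by
  intro y hy
  obtain ⟨w, hw, he⟩ := (mem_U hr).mp hy
  have hρ0 : 0 < ρ := hr.trans_le hρ
  refine ⟨((ρ - r) / ρ) • o + (r / ρ) • w, ?_, ?_⟩
  · refine hK (interior_subset ho) (interior_subset hw) (div_nonneg (by linarith) hρ0.le)
      (div_nonneg hr.le hρ0.le) ?_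
    rw [← add_div, sub_add_cancel, div_self hρ0.ne']
  · show ρ • (((ρ - r) / ρ) • o + (r / ρ) • w) = y - (z + (1 - ρ) • o)
    rw [← sub_sub, he, smul_add, smul_smul, smul_smul, mul_div_cancel₀ _ hρ0.ne',
      mul_div_cancel₀ _ hρ0.ne', sub_smul, sub_smul, sub_smul]
    abel

/-- `U` is increasing in `r` -/
theorem U_mono {K : Set (Es d)} (hK : Convex ℝ K) {o z : Es d} (ho : o ∈ interior K) {r ρ : ℝ}
    (hr : 0 < r) (hρ : r ≤ ρ) : U K o z r ⊆ U K o z ρ := by
  intro y hy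
  obtain ⟨w, hw, he⟩ := (mem_U hr).mp hy
  have hρ0 : 0 < ρ := hr.trans_le hρ
  rw [mem_U hρ0]
  refine ⟨((ρ - r) / ρ) • o + (r / ρ) • w, ?_, ?_⟩
  · refine hK.interior ho hw (div_nonneg (by linarith) hρ0.le)
      (div_nonneg hr.le hρ0.le) ?_
    rw [← add_div, sub_add_cancel, div_self hρ0.ne']
  · rw [he, smul_add, smul_smul, smul_smul, mul_div_cancel₀ _ hρ0.ne',
      mul_div_cancel₀ _ hρ0.ne', sub_smul, sub_smul, sub_smul]
    abel

/-- the radii -/
noncomputable def rr (k : ℕ) : ℝ := 1 - 1 / ((k : ℝ) + 2)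

theorem rr_pos (k : ℕ) : 0 < rr k := by
  unfold rr
  have : (0 : ℝ) < (k : ℝ) + 2 := by positivity
  rw [sub_pos, div_lt_one this]
  have : (0 : ℝ) ≤ k := Nat.cast_nonneg k
  linarith

theorem rr_lt (k : ℕ) : rr k < 1 := by
  unfold rr
  have : (0 : ℝ) < 1 / ((k : ℝ) + 2) := by positivity
  linarith

theorem rr_mono {k l : ℕ} (h : k ≤ l) : rr k ≤ rr l := by
  unfold rr
  have h1 : (k : ℝ) ≤ l := by exact_mod_cast h
  have h2 : (0 : ℝ) ≤ k := Nat.cast_nonneg k
  have : 1 / ((l : ℝ) + 2) ≤ 1 / ((k : ℝ) + 2) :=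
    one_div_le_one_div_of_le (by linarith) (by linarith)
  linarith

theorem rr_tendsto : Tendsto rr atTop (𝓝 1) := by
  unfold rr
  have h1 : Tendsto (fun k : ℕ => (k : ℝ) + 2) atTop atTop :=
    tendsto_atTop_add_const_right _ _ tendsto_natCast_atTop_atTop
  have h2 : Tendsto (fun k : ℕ => 1 / ((k : ℝ) + 2)) atTop (𝓝 0) := by
    simp only [one_div]
    exact h1.inv_tendsto_atTop
  have h3 := h2.const_sub 1
  rwa [sub_zero] at h3

/-- the union of the sets `U` -/
theorem iUnion_U {K : Set (Es d)} {o : Es d} (z : Es d) :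
    {y | y - z ∈ interior K} ⊆ ⋃ k, U K o z (rr k) := by
  intro y hy
  have h1 : Tendsto (fun k : ℕ => (rr k)⁻¹ • (y - z - (1 - rr k) • o)) atTop
      (𝓝 ((1 : ℝ)⁻¹ • (y - z - (1 - (1 : ℝ)) • o))) := by
    refine Tendsto.smul (rr_tendsto.inv₀ one_ne_zero) ?_
    refine tendsto_const_nhds.sub ?_
    exact (rr_tendsto.const_sub 1).smul_const o
  have h2 : (1 : ℝ)⁻¹ • (y - z - (1 - (1 : ℝ)) • o) = y - z := by simp
  rw [h2] at h1
  have h3 := h1.eventually (isOpen_interior.mem_nhds hy)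
  obtain ⟨k, hk⟩ := h3.exists
  exact mem_iUnion.mpr ⟨k, hk⟩

end LIM_

open LIM_ in
theorem p_LIM (hGAM : T_GAM) : T_LIM := by
  intro d K hK hF
  obtain ⟨o, ho⟩ := hK.ne
  have hex : ∀ n : ℕ, ∃ μ : Measure (Es d), μ univ = 1 ∧ μ Kᶜ = 0 ∧
      ∀ z : Es d, μ {y | y - z ∈ rr n • K} ≤
        ENNReal.ofReal (((2 : ℝ) ^ d)⁻¹ + 1 / ((n : ℝ) + 1)) := by
    intro n
    refine hGAM d K hK hF (rr n) (rr_pos n) (rr_lt n) _ ?_
    have : (0 : ℝ) < 1 / ((n : ℝ) + 1) := by positivity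
    linarith
  choose m hm1 hm2 hm3 using hex
  have hKm : MeasurableSet K := hK.cp.measurableSet
  have hemb : MeasurableEmbedding (Subtype.val : K → Es d) := MeasurableEmbedding.subtype_coe hKm
  have hKs : CompactSpace K := isCompact_iff_compactSpace.mp hK.cp
  have hmK : ∀ n, m n K = 1 := by
    intro n
    have h1 := measure_add_measure_compl (μ := m n) hKm
    rw [hm1 n, hm2 n, add_zero] at h1
    exact h1
  have hprob : ∀ n, IsProbabilityMeasure ((m n).comap (Subtype.val : K → Es d)) := by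
    intro n
    refine ⟨?_⟩
    rw [hemb.comap_apply, image_univ, Subtype.range_coe_subtype]
    exact hmK n
  set P : ℕ → ProbabilityMeasure K := fun n => ⟨(m n).comap (Subtype.val : K → Es d), hprob n⟩
    with hP
  set ν : ProbabilityMeasure K := (Ultrafilter.map P (hyperfilter ℕ)).lim with hν
  have hlim : Tendsto P (hyperfilter ℕ : Filter ℕ) (𝓝 ν) :=
    Ultrafilter.le_nhds_lim (Ultrafilter.map P (hyperfilter ℕ))
  have hmeas : Measurable (Subtype.val : K → Es d) := measurable_subtype_coe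
  refine ⟨(ν : Measure K).map Subtype.val, ?_, ?_, ?_⟩
  · rw [Measure.map_apply hmeas MeasurableSet.univ]
    simp
  · rw [Measure.map_apply hmeas hKm.compl]
    have : (Subtype.val ⁻¹' Kᶜ : Set K) = ∅ := by
      ext x
      simp
    rw [this]
    simp
  · intro z
    have hk : ∀ k, ((ν : Measure K).map Subtype.val) (U K o z (rr k)) ≤ ((2 : ℝ≥0∞) ^ d)⁻¹ := by
      intro k
      rw [Measure.map_apply hmeas (open_U K o z (rr k)).measurableSet]
      have h1 := ProbabilityMeasure.le_liminf_measure_open_of_tendsto hlim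
        ((open_U K o z (rr k)).preimage continuous_subtype_val)
      refine h1.trans ?_
      have h2 : Tendsto (fun n : ℕ => ENNReal.ofReal (((2 : ℝ) ^ d)⁻¹ + 1 / ((n : ℝ) + 1)))
          (hyperfilter ℕ : Filter ℕ) (𝓝 (((2 : ℝ≥0∞) ^ d)⁻¹)) := by
        have h3 : Tendsto (fun n : ℕ => ENNReal.ofReal (((2 : ℝ) ^ d)⁻¹ + 1 / ((n : ℝ) + 1)))
            atTop (𝓝 (ENNReal.ofReal (((2 : ℝ) ^ d)⁻¹ + 0))) :=
          ENNReal.tendsto_ofReal (tendsto_one_div_add_atTop_nhds_zero_nat.const_add _)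
        have h4 : ENNReal.ofReal (((2 : ℝ) ^ d)⁻¹ + 0) = ((2 : ℝ≥0∞) ^ d)⁻¹ := by
          rw [add_zero, ENNReal.ofReal_inv_of_pos (by positivity),
            ENNReal.ofReal_pow (by norm_num)]
          norm_num
        rw [h4] at h3
        exact h3.mono_left Nat.hyperfilter_le_atTop
      rw [← h2.liminf_eq]
      refine liminf_le_liminf ?_
      have h5 : ∀ᶠ n : ℕ in atTop, k ≤ n := eventually_ge_atTop k
      have h6 : ∀ᶠ n : ℕ in (hyperfilter ℕ : Filter ℕ), k ≤ n := Nat.hyperfilter_le_atTop h5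
      refine h6.mono fun n hn => ?_
      show ((m n).comap (Subtype.val : K → Es d)) (Subtype.val ⁻¹' U K o z (rr k)) ≤ _
      rw [hemb.comap_apply]
      refine (measure_mono ?_).trans (hm3 n (z + (1 - rr n) • o))
      refine (image_preimage_subset _ _).trans ?_
      exact U_sub hK.cv ho (rr_pos k) (rr_mono hn)
    have hmono : Monotone (fun k => U K o z (rr k)) := fun k l hkl =>
      U_mono hK.cv ho (rr_pos k) (rr_mono hkl)
    refine (measure_mono (iUnion_U (o := o) z)).trans ?_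
    rw [hmono.measure_iUnion]
    exact iSup_le hk

end Pool.Agent.MFH
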