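import Pool.Agent.MFH.Targets

/-!
# MUM: multiples and more translates
-/

set_option autoImplicit false

open MeasureTheory Set Module
open scoped ENNReal Pointwise

namespace Pool.Agent.MFH

namespace MUM_

theorem mult (d : ℕ) (K : Set (Es d)) (N M k : ℕ) (h : Multi K N M) :
    Multi K (k * N) (k * M) := by
  classical
  obtain ⟨t, ht⟩ := h
  refine ⟨fun j => t (finProdFinEquiv.symm j).2, fun x hx => ?_⟩
  have h1 : cnt K (fun j : Fin (k * M) => t (finProdFinEquiv.symm j).2) x = k * cnt K t x := by
    unfold cnt
    have e : (Finset.univ.filter (fun j : Fin (k * M) =>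
        x - t (finProdFinEquiv.symm j).2 ∈ interior K)) =
        ((Finset.univ : Finset (Fin k)) ×ˢ
          (Finset.univ.filter (fun j : Fin M => x - t j ∈ interior K))).map
            finProdFinEquiv.toEmbedding := by
      ext j
      simp only [Finset.mem_filter, Finset.mem_univ, true_and, Finset.mem_map,
        Finset.mem_product, Equiv.coe_toEmbedding]
      constructor
      · intro hj
        exact ⟨finProdFinEquiv.symm j, hj, Equiv.apply_symm_apply _ _⟩
      · rintro ⟨a, ha, rfl⟩
        rwa [Equiv.symm_apply_apply]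
    have h2 := congrArg Finset.card e
    rw [Finset.card_map, Finset.card_product, Finset.card_univ, Fintype.card_fin] at h2
    convert! h2
  rw [h1]
  exact Nat.mul_le_mul_left k (ht x hx)

theorem pad (d : ℕ) (K : Set (Es d)) (N M M' : ℕ) (hM : M ≤ M') (h : Multi K N M) :
    Multi K N M' := by
  classical
  obtain ⟨t, ht⟩ := h
  refine ⟨fun j => if hj : (j : ℕ) < M then t ⟨j, hj⟩ else 0, fun x hx => ?_⟩
  refine (ht x hx).trans ?_
  unfold cnt
  refine Finset.card_le_card_of_injOn (fun j : Fin M => Fin.castLE hM j) ?_ ?_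
  · intro j hj
    simp only [Finset.coe_filter, Finset.mem_univ, true_and, Set.mem_ofPred_eq] at hj ⊢
    have h1 : ((Fin.castLE hM j : Fin M') : ℕ) < M := by simp
    rw [dif_pos h1]
    exact hj
  · intro a _ b _ hab
    exact Fin.castLE_injective hM hab

end MUM_

theorem p_MUM : T_MUM := ⟨MUM_.mult, MUM_.pad⟩

end Pool.Agent.MFH
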