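import Pool.Agent.MFH.Targets

set_option autoImplicit false

/-!
# MFH, NOR: normal position (maximal determinant)
-/

open MeasureTheory Set Module
open scoped ENNReal Pointwise

namespace Pool.Agent.MFH

namespace NOR_

/-- the standard basis -/
noncomputable def e (d : ℕ) : Basis (Fin d) ℝ (Es d) := (EuclideanSpace.basisFun (Fin d) ℝ).toBasis

/-- the determinant of `d + 1` points -/
noncomputable def F {d : ℕ} (p : Es d × (Fin d → Es d)) : ℝ :=
  |(e d).det (fun i => p.2 i - p.1)|

theorem F_cont {d : ℕ} : Continuous (F (d := d)) := by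
  have h1 : Continuous fun v : Fin d → Es d => (e d).det v := by
    have : (fun v : Fin d → Es d => (e d).det v) =
        fun v => Matrix.det (Matrix.of fun i j => v j i) := by
      funext v
      rw [Basis.det_apply]
      congr 1
    rw [this]
    refine Continuous.matrix_det ?_
    refine continuous_matrix fun i j => ?_
    fun_prop
  unfold F
  refine (h1.comp ?_).abs
  fun_prop

theorem det_update {d : ℕ} (f : Es d [⋀^Fin d]→ₗ[ℝ] ℝ) (b : Basis (Fin d) ℝ (Es d)) (i : Fin d)
    (w : Es d) : f (Function.update b i w) = b.repr w i * f b := by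
  have h := AlternatingMap.eq_smul_basis_det (b : Basis (Fin d) ℝ (Es d)) f
  have h2 : b.det (Function.update b i w) = b.repr w i := by
    rw [Basis.det_apply, Basis.toMatrix_update, Basis.toMatrix_self]
    rw [← Matrix.cramer_apply]
    simp
  calc f (Function.update b i w) = (f b • b.det) (Function.update b i w) := by rw [← h]
    _ = b.repr w i * f b := by
      rw [AlternatingMap.smul_apply, h2, smul_eq_mul, mul_comm]

end NOR_

open NOR_ in
theorem p_NOR : T_NOR := by
  intro d K hK
  obtain ⟨o, ho⟩ := hK.ne
  obtain ⟨ε, hε, hball⟩ := Metric.isOpen_iff.1 isOpen_interior o ho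
  have hKne : K.Nonempty := ⟨o, interior_subset ho⟩
  have hcomp : IsCompact (K ×ˢ (Set.pi univ (fun _ : Fin d => K))) :=
    hK.cp.prod (isCompact_univ_pi fun _ => hK.cp)
  have hne : (K ×ˢ (Set.pi univ (fun _ : Fin d => K))).Nonempty :=
    ⟨(o, fun _ => o), interior_subset ho, fun _ _ => interior_subset ho⟩
  obtain ⟨⟨x0, y⟩, ⟨hx0, hy⟩, hmax⟩ := hcomp.exists_isMaxOn hne F_cont.continuousOn
  have hy' : ∀ i, y i ∈ K := fun i => hy i (mem_univ i)
  have hmax' : ∀ p ∈ K ×ˢ (Set.pi univ (fun _ : Fin d => K)), F p ≤ F (x0, y) := hmax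
  -- positivity
  have hpos : 0 < F (x0, y) := by
    have h1 : F (o, fun i => o + (ε / 2) • e d i) = (ε / 2) ^ d := by
      unfold F
      have h2 : (fun i => (o + (ε / 2) • e d i) - o) = fun i => (ε / 2) • e d i := by
        funext i; rw [add_sub_cancel_left]
      simp only at h2 ⊢
      rw [h2]
      have h3 := (e d).det.map_smul_univ (fun _ : Fin d => ε / 2) (e d)
      rw [h3]
      rw [Basis.det_self, Finset.prod_const, Finset.card_univ, Fintype.card_fin, smul_eq_mul,
        mul_one, abs_of_pos (by positivity)]
    have h2 : (o, fun i => o + (ε / 2) • e d i) ∈ K ×ˢ (Set.pi univ (fun _ : Fin d => K)) := by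
      refine ⟨interior_subset ho, fun i _ => interior_subset (hball ?_)⟩
      rw [Metric.mem_ball, dist_eq_norm]
      simp only [add_sub_cancel_left, norm_smul]
      have h4 : ‖e d i‖ = 1 := by simp [e]
      rw [h4, mul_one, Real.norm_of_nonneg (by positivity)]
      linarith
    have h3 := hmax' _ h2
    rw [h1] at h3
    exact lt_of_lt_of_le (by positivity) h3
  have hunit : IsUnit ((e d).det (fun i => y i - x0)) := by
    rw [isUnit_iff_ne_zero]
    intro h
    have : F (x0, y) = 0 := by unfold F; simp only; rw [h, abs_zero]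
    linarith
  obtain ⟨hli, hsp⟩ := (Basis.is_basis_iff_det (e d)).2 hunit
  let b : Basis (Fin d) ℝ (Es d) := Basis.mk hli hsp.ge
  have hb : ∀ i, b i = y i - x0 := fun i => by simp [b]
  have hb' : (b : Fin d → Es d) = fun i => y i - x0 := funext hb
  let L : Es d ≃ₗ[ℝ] Es d := b.equivFun.trans (WithLp.linearEquiv 2 ℝ (Fin d → ℝ)).symm
  have hL : ∀ v i, L v i = b.repr v i := fun v i => rfl
  refine ⟨(AffineEquiv.constVAdd ℝ (Es d) (-x0)).trans L.toAffineEquiv, ?_, ?_⟩
  · intro c hc hc1
    refine ⟨x0 + ∑ i, c i • (y i - x0), ?_, ?_⟩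
    · have h := hK.cv.sum_mem (t := Finset.univ)
        (w := fun o : Option (Fin d) => o.elim (1 - ∑ i, c i) c)
        (z := fun o : Option (Fin d) => o.elim x0 y) ?_ ?_ ?_
      · rw [Fintype.sum_option] at h
        simp only [Option.elim] at h
        convert h using 1
        simp only [smul_sub, Finset.sum_sub_distrib, sub_smul, one_smul, Finset.sum_smul]
        abel
      · rintro (_ | i) _
        · simp only [Option.elim]; linarith
        · exact hc i
      · rw [Fintype.sum_option]; simp
      · rintro (_ | i) _
        · exact hx0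
        · exact hy' i
    · have h1 : L (∑ i, c i • (y i - x0)) = c := by
        ext j
        rw [hL]
        simp only [← hb, map_sum, map_smul]
        simp [Finsupp.single_apply, Finset.sum_apply']
      show L (-x0 +ᵥ (x0 + ∑ i, c i • (y i - x0))) = c
      rw [vadd_eq_add, neg_add_cancel_left, h1]
  · rintro _ ⟨x, hx, rfl⟩ i
    have h0 : ((AffineEquiv.constVAdd ℝ (Es d) (-x0)).trans L.toAffineEquiv) x =
        L (x - x0) := by
      show L (-x0 +ᵥ x) = L (x - x0)
      rw [vadd_eq_add, neg_add_eq_sub]
    rw [h0, hL]
    have h1 : (x0, Function.update y i x) ∈ K ×ˢ (Set.pi univ (fun _ : Fin d => K)) := by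
      refine ⟨hx0, fun j _ => ?_⟩
      by_cases hj : j = i
      · subst hj; simp only [Function.update_self]; exact hx
      · simp only [Function.update_of_ne hj]; exact hy' j
    have h2 := hmax' _ h1
    have h3 : F (x0, Function.update y i x) = |b.repr (x - x0) i| * F (x0, y) := by
      unfold F
      have h4 : (fun j => Function.update y i x j - x0) = Function.update b i (x - x0) := by
        funext j
        by_cases hj : j = i
        · subst hj; simp only [Function.update_self]
        · simp only [Function.update_of_ne hj, hb]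
      simp only
      rw [h4, det_update, abs_mul, hb']
    rw [h3] at h2
    refine le_of_mul_le_mul_right (?_ : |b.repr (x - x0) i| * F (x0, y) ≤ 1 * F (x0, y)) hpos
    rw [one_mul]
    exact h2

end Pool.Agent.MFH
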