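import Pool.Agent.MFH.Targets

/-!
# MFH, OPN: multifold coverings are stable
-/

set_option autoImplicit false

open MeasureTheory Set Module
open scoped ENNReal Pointwise

namespace Pool.Agent.MFH

theorem OPN_.sep {d : ℕ} {K K' : Set (Es d)} (hK' : Body K') {ε δ : ℝ} (hε : 0 ≤ ε)
    (hεδ : ε < δ) (hKK : K ⊆ Metric.cthickening ε K') {z : Es d}
    (hz : Metric.closedBall z δ ⊆ K) : z ∈ interior K' := by
  rw [mem_interior_iff_mem_nhds]
  refine Filter.mem_of_superset (Metric.ball_mem_nhds z (sub_pos.2 hεδ)) ?_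
  intro y hy
  by_contra hyK
  obtain ⟨f, c, hf1, hf2⟩ :=
    geometric_hahn_banach_closed_point hK'.cv hK'.cp.isClosed hyK
  set w : Es d := (InnerProductSpace.toDual ℝ (Es d)).symm f with hw
  have hfw : ∀ v, f v = inner ℝ w v := fun v => by
    rw [hw, InnerProductSpace.toDual_symm_apply]
  have hw0 : w ≠ 0 := by
    intro h0
    obtain ⟨x', hx'⟩ := hK'.ne
    have h1 := hf1 x' (interior_subset hx')
    rw [hfw, h0, inner_zero_left] at h1
    rw [hfw, h0, inner_zero_left] at hf2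
    linarith
  have hwp : 0 < ‖w‖ := norm_pos_iff.2 hw0
  set u : Es d := ‖w‖⁻¹ • w with hu
  have hun : ‖u‖ = 1 := by
    rw [hu, norm_smul, norm_inv, norm_norm, inv_mul_cancel₀ hwp.ne']
  have hfu : f u = ‖w‖ := by
    rw [hfw, hu, inner_smul_right, real_inner_self_eq_norm_sq]
    field_simp
  clear_value u
  have hδ : 0 ≤ δ := hε.trans hεδ.le
  have hmem : z + δ • u ∈ K := by
    apply hz
    rw [Metric.mem_closedBall, dist_eq_norm, add_sub_cancel_left, norm_smul, hun, mul_one,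
      Real.norm_eq_abs, abs_of_nonneg hδ]
  have h2 := hKK hmem
  rw [hK'.cp.cthickening_eq_biUnion_closedBall hε] at h2
  obtain ⟨x', hx', h3⟩ := mem_iUnion₂.1 h2
  rw [Metric.mem_closedBall, dist_eq_norm] at h3
  have h4 := hf1 x' hx'
  have h5 : f y ≤ f z + ‖w‖ * ‖y - z‖ := by
    have h6 : f y = f z + f (y - z) := by rw [map_sub]; ring
    rw [h6, hfw (y - z)]
    have := real_inner_le_norm w (y - z)
    linarith
  have h6 : ‖y - z‖ < δ - ε := by
    rw [Metric.mem_ball, dist_eq_norm] at hy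
    exact hy
  have h7 : f x' ≥ f z + δ * ‖w‖ - ‖w‖ * ε := by
    have h8 : f x' = f z + δ * f u - f (z + δ • u - x') := by
      rw [map_sub, map_add, map_smul, smul_eq_mul]; ring
    rw [h8, hfu, hfw (z + δ • u - x')]
    have h9 := real_inner_le_norm w (z + δ • u - x')
    have h10 : ‖w‖ * ‖z + δ • u - x'‖ ≤ ‖w‖ * ε := mul_le_mul_of_nonneg_left h3 hwp.le
    linarith
  have h8 : ‖w‖ * ‖y - z‖ ≤ ‖w‖ * (δ - ε) := mul_le_mul_of_nonneg_left h6.le hwp.le
  linarith

theorem OPN_.unif {d : ℕ} {K : Set (Es d)} {N M : ℕ} (hK : Body K) {t : Fin M → Es d}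
    (ht : ∀ x ∈ K, N ≤ cnt K t x) : ∃ δ : ℝ, 0 < δ ∧ ∀ x ∈ K, ∃ J : Finset (Fin M),
      N ≤ J.card ∧ ∀ j ∈ J, Metric.closedBall (x - t j) δ ⊆ K := by
  refine hK.cp.induction_on (p := fun s => ∃ δ : ℝ, 0 < δ ∧ ∀ x ∈ s, ∃ J : Finset (Fin M),
      N ≤ J.card ∧ ∀ j ∈ J, Metric.closedBall (x - t j) δ ⊆ K) ?_ ?_ ?_ ?_
  · exact ⟨1, one_pos, fun x hx => absurd hx (notMem_empty x)⟩
  · rintro s s' hss ⟨δ, hδ, h⟩
    exact ⟨δ, hδ, fun x hx => h x (hss hx)⟩
  · rintro s s' ⟨δ, hδ, h⟩ ⟨δ', hδ', h'⟩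
    refine ⟨min δ δ', lt_min hδ hδ', ?_⟩
    rintro x (hx | hx)
    · obtain ⟨J, hJ, hJ'⟩ := h x hx
      exact ⟨J, hJ, fun j hj =>
        (Metric.closedBall_subset_closedBall (min_le_left _ _)).trans (hJ' j hj)⟩
    · obtain ⟨J, hJ, hJ'⟩ := h' x hx
      exact ⟨J, hJ, fun j hj =>
        (Metric.closedBall_subset_closedBall (min_le_right _ _)).trans (hJ' j hj)⟩
  · intro x hx
    classical
    set J : Finset (Fin M) := Finset.univ.filter (fun j => x - t j ∈ interior K) with hJ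
    have hcard : N ≤ J.card := by
      have h1 := ht x hx
      unfold cnt at h1
      convert h1
    have hex : ∀ j ∈ J, ∃ δ : ℝ, 0 < δ ∧ Metric.closedBall (x - t j) δ ⊆ K := by
      intro j hj
      have h1 : K ∈ nhds (x - t j) := mem_interior_iff_mem_nhds.1 (Finset.mem_filter.1 hj).2
      exact Metric.nhds_basis_closedBall.mem_iff.1 h1
    obtain ⟨δ, hδ, hδ'⟩ : ∃ δ : ℝ, 0 < δ ∧ ∀ j ∈ J, Metric.closedBall (x - t j) δ ⊆ K := by
      clear hcard
      clear_value J
      clear hJ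
      induction J using Finset.induction_on with
      | empty => exact ⟨1, one_pos, by simp⟩
      | insert j s hj ih =>
        obtain ⟨δ, hδ, h⟩ := ih fun i hi => hex i (Finset.mem_insert_of_mem hi)
        obtain ⟨δ', hδ', h'⟩ := hex j (Finset.mem_insert_self _ _)
        refine ⟨min δ δ', lt_min hδ hδ', fun i hi => ?_⟩
        rcases Finset.mem_insert.1 hi with rfl | hi
        · exact (Metric.closedBall_subset_closedBall (min_le_right _ _)).trans h'
        · exact (Metric.closedBall_subset_closedBall (min_le_left _ _)).trans (h i hi)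
    refine ⟨Metric.ball x (δ / 2), mem_nhdsWithin_of_mem_nhds
      (Metric.ball_mem_nhds x (half_pos hδ)), δ / 2, half_pos hδ, fun y hy => ?_⟩
    refine ⟨J, hcard, fun j hj => Subset.trans ?_ (hδ' j hj)⟩
    refine Metric.closedBall_subset_closedBall' ?_
    rw [dist_sub_right]
    rw [Metric.mem_ball] at hy
    linarith

theorem p_OPN : T_OPN := by
  rintro d K N M hK ⟨t, ht⟩
  obtain ⟨δ, hδ, h⟩ := OPN_.unif hK ht
  refine ⟨δ / 3, by positivity, fun K' hK' hK'K hKK' => ⟨t, fun x hx => ?_⟩⟩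
  have h1 := hK'K hx
  rw [hK.cp.cthickening_eq_biUnion_closedBall (by positivity)] at h1
  obtain ⟨y, hy, hxy⟩ := mem_iUnion₂.1 h1
  obtain ⟨J, hJ, hJ'⟩ := h y hy
  classical
  unfold cnt
  refine hJ.trans (Finset.card_le_card fun j hj => ?_)
  refine Finset.mem_filter.2 ⟨Finset.mem_univ _, ?_⟩
  refine OPN_.sep hK' (ε := δ / 3) (δ := 2 * δ / 3) (by positivity) (by linarith) hKK' ?_
  refine Subset.trans ?_ (hJ' j hj)
  refine Metric.closedBall_subset_closedBall' ?_
  rw [dist_sub_right]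
  rw [Metric.mem_closedBall] at hxy
  linarith

end Pool.Agent.MFH
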