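import Pool.Agent.MFH.Targets

set_option autoImplicit false

/-!
# MFH, PAR: a tiling body is a parallelotope
-/

open MeasureTheory Set Module
open scoped ENNReal Pointwise

namespace Pool.Agent.MFH

namespace PAR_

variable {d : ℕ}

/-- the directions of facets -/
def dirs (K : Set (Es d)) (V : Finset (Es d)) : Set (Es d) :=
  {u | u ≠ 0 ∧ ∃ b c : ℝ, (∀ x ∈ K, (inner ℝ x u : ℝ) ≤ b) ∧ (∃ v ∈ V, (inner ℝ v u : ℝ) = b) ∧
    0 < c ∧ ∀ h : ℝ, 0 ≤ h → h ≤ 1 → c * h ≤ cap K u b h}

lemma span_dirs (hFAC : T_FAC) {K : Set (Es d)} {V : Finset (Es d)} (hK : Body K)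
    (hV : K = convexHull ℝ (V : Set (Es d))) : Submodule.span ℝ (dirs K V) = ⊤ := by
  by_contra hne
  have h1 : (Submodule.span ℝ (dirs K V))ᗮ ≠ ⊥ := by
    intro h
    exact hne ((Submodule.orthogonal_eq_bot_iff).1 h)
  obtain ⟨e, he, he0⟩ := Submodule.exists_mem_ne_zero_of_ne_bot h1
  obtain ⟨u, b, c, hu, h2, h3, h4, h5⟩ := hFAC d K V hK hV e he0
  have hu0 : u ≠ 0 := by
    rintro rfl
    simp at hu
  have hmem : u ∈ dirs K V := ⟨hu0, b, c, h2, h3, h4, h5⟩
  have h6 : (inner ℝ u e : ℝ) = 0 :=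
    (Submodule.mem_orthogonal _ _).1 he u (Submodule.subset_span hmem)
  rw [real_inner_comm] at h6
  linarith

lemma exists_family {U : Set (Es d)} (h : Submodule.span ℝ U = ⊤) :
    ∃ u : Fin d → Es d, (∀ i, u i ∈ U) ∧ Submodule.span ℝ (Set.range u) = ⊤ := by
  obtain ⟨f, hf1, hf2, -⟩ := Submodule.exists_fun_fin_finrank_span_eq ℝ U
  have hd : finrank ℝ (Submodule.span ℝ U) = d := by
    rw [h, finrank_top]
    simp
  refine ⟨fun i => f (Fin.cast hd.symm i), fun i => hf1 _, ?_⟩
  have hr : Set.range (fun i => f (Fin.cast hd.symm i)) = Set.range f := by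
    ext x
    simp only [Set.mem_range]
    constructor
    · rintro ⟨i, hi⟩
      exact ⟨_, hi⟩
    · rintro ⟨i, hi⟩
      exact ⟨Fin.cast hd i, by simpa using hi⟩
  rw [hr, hf2, h]

/-- the coordinates -/
noncomputable def Phi (u : Fin d → Es d) : Es d →ₗ[ℝ] (Fin d → ℝ) :=
  LinearMap.pi fun i => (innerₗ (Es d) (u i))

lemma Phi_apply (u : Fin d → Es d) (x : Es d) (i : Fin d) : Phi u x i = inner ℝ x (u i) := by
  simp [Phi, real_inner_comm]

lemma Phi_inj {u : Fin d → Es d} (h : Submodule.span ℝ (Set.range u) = ⊤) :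
    Function.Injective (Phi u) := by
  rw [← LinearMap.ker_eq_bot, Submodule.eq_bot_iff]
  intro x hx
  have h0 : ∀ i, (inner ℝ x (u i) : ℝ) = 0 := by
    intro i
    rw [← Phi_apply]
    rw [LinearMap.mem_ker.1 hx]
    rfl
  have h1 : x ∈ (Submodule.span ℝ (Set.range u))ᗮ := by
    rw [Submodule.mem_orthogonal]
    intro y hy
    induction hy using Submodule.span_induction with
    | mem y hy =>
      obtain ⟨i, rfl⟩ := hy
      rw [real_inner_comm]
      exact h0 i
    | zero => simp
    | add y z _ _ h2 h3 => rw [inner_add_left, h2, h3, add_zero]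
    | smul a y _ h2 => rw [inner_smul_left, h2, mul_zero]
  rw [h, Submodule.top_orthogonal_eq_bot] at h1
  exact (Submodule.mem_bot ℝ).1 h1

end PAR_

open PAR_ in
/-- PAR -/
theorem p_PAR (hTWO : T_TWO) (hFAC : T_FAC) : T_PAR := by
  classical
  intro d K V hK hT
  obtain ⟨u, hu, hspan⟩ := exists_family (span_dirs hFAC hK hT.hull)
  have hex : ∀ i, ∃ b m : ℝ, m < b ∧ ∀ v ∈ V, (inner ℝ v (u i) : ℝ) = b ∨
      (inner ℝ v (u i) : ℝ) = m := by
    intro i
    obtain ⟨h0, b, c, h1, h2, h3, h4⟩ := hu i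
    obtain ⟨m, hm, h5⟩ := hTWO d K V (u i) b c hK hT h0 h1 h2 h3 h4
    exact ⟨b, m, hm, h5⟩
  choose b m hmb hbm using hex
  let P : Es d ≃ₗ[ℝ] (Fin d → ℝ) :=
    LinearEquiv.ofInjectiveOfFinrankEq (Phi u) (Phi_inj hspan) (by simp)
  have hP : ∀ x i, P x i = inner ℝ x (u i) := fun x i => Phi_apply u x i
  have himg : V.image P = Fintype.piFinset (fun i => ({m i, b i} : Finset ℝ)) := by
    apply Finset.eq_of_subset_of_card_le
    · intro y hy
      obtain ⟨v, hv, rfl⟩ := Finset.mem_image.1 hy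
      rw [Fintype.mem_piFinset]
      intro i
      rw [hP, Finset.mem_insert, Finset.mem_singleton]
      exact (hbm i v hv).symm
    · rw [Fintype.card_piFinset, Finset.card_image_of_injective _ P.injective, hT.card]
      have h1 : ∀ i, ({m i, b i} : Finset ℝ).card = 2 := fun i =>
        Finset.card_pair (ne_of_lt (hmb i))
      simp [h1]
  have hset : P '' (V : Set (Es d)) = Set.univ.pi (fun i => ({m i, b i} : Set ℝ)) := by
    rw [← Finset.coe_image, himg]
    ext y
    simp
  have hKP : P '' K = Set.univ.pi (fun i => Set.Icc (m i) (b i)) := by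
    have h1 : P '' K = convexHull ℝ (P '' (V : Set (Es d))) := by
      conv_lhs => rw [hT.hull]
      exact (P : Es d →ₗ[ℝ] (Fin d → ℝ)).image_convexHull _
    rw [h1, hset, convexHull_pi]
    congr 1
    funext i
    rw [convexHull_pair, segment_eq_Icc (le_of_lt (hmb i))]
  have hmemK : ∀ x, x ∈ K ↔ ∀ i, m i ≤ P x i ∧ P x i ≤ b i := by
    intro x
    have h1 : x ∈ K ↔ P x ∈ P '' K := (P.injective.mem_set_image).symm
    rw [h1, hKP, Set.mem_univ_pi]
    rfl
  refine ⟨P.symm m, fun i => P.symm (Pi.single i (b i - m i)), ?_, ?_⟩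
  · have h1 : LinearIndependent ℝ (fun i : Fin d => (Pi.single i (b i - m i) : Fin d → ℝ)) := by
      rw [Fintype.linearIndependent_iff]
      intro g hg i
      have h2 := congrFun hg i
      rw [Finset.sum_apply, Finset.sum_eq_single i] at h2
      · simp only [Pi.smul_apply, Pi.single_eq_same, smul_eq_mul, Pi.zero_apply] at h2
        rcases mul_eq_zero.1 h2 with h3 | h3
        · exact h3
        · exact absurd h3 (ne_of_gt (sub_pos.2 (hmb i)))
      · intro j _ hj
        simp [Pi.single_eq_of_ne (Ne.symm hj)]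
      · intro h
        exact absurd (Finset.mem_univ i) h
    exact h1.map' (P.symm : (Fin d → ℝ) →ₗ[ℝ] Es d) (LinearEquiv.ker P.symm)
  · ext x
    rw [hmemK, Set.mem_ofPred_eq]
    have hexp : ∀ (c : Fin d → ℝ) (i : Fin d),
        P (P.symm m + ∑ j, c j • P.symm (Pi.single j (b j - m j))) i =
          m i + c i * (b i - m i) := by
      intro c i
      rw [map_add, map_sum, LinearEquiv.apply_symm_apply, Pi.add_apply, Finset.sum_apply,
        Finset.sum_eq_single i]
      · rw [map_smul, LinearEquiv.apply_symm_apply, Pi.smul_apply, Pi.single_eq_same, smul_eq_mul]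
      · intro j _ hj
        rw [map_smul, LinearEquiv.apply_symm_apply, Pi.smul_apply,
          Pi.single_eq_of_ne (Ne.symm hj), smul_zero]
      · intro h
        exact absurd (Finset.mem_univ i) h
    constructor
    · intro hx
      refine ⟨fun i => (P x i - m i) / (b i - m i), fun i => ⟨?_, ?_⟩, ?_⟩
      · exact div_nonneg (sub_nonneg.2 (hx i).1) (le_of_lt (sub_pos.2 (hmb i)))
      · rw [div_le_one (sub_pos.2 (hmb i))]
        linarith [(hx i).2]
      · apply P.injective
        funext i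
        rw [hexp, div_mul_cancel₀ _ (ne_of_gt (sub_pos.2 (hmb i)))]
        ring
    · rintro ⟨c, hc, rfl⟩ i
      rw [hexp]
      have h1 := hc i
      have h2 := sub_pos.2 (hmb i)
      constructor <;> nlinarith [h1.1, h1.2]

end Pool.Agent.MFH
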