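import Pool.Agent.MFH.Targets

set_option autoImplicit false

/-!
# MFH, PLB: lower bound for parallelotopes
-/

open MeasureTheory Set Module
open scoped ENNReal Pointwise

namespace Pool.Agent.MFH

namespace PLB_

variable {d : ℕ}

/-- coefficients are unique -/
lemma coeff_eq {v : Fin d → Es d} (hv : LinearIndependent ℝ v) {x₀ : Es d} {a b : Fin d → ℝ}
    (h : x₀ + ∑ i, a i • v i = x₀ + ∑ i, b i • v i) : a = b := by
  have h1 : ∑ i, (a i - b i) • v i = 0 := by
    have h2 := add_left_cancel h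
    simp only [sub_smul, Finset.sum_sub_distrib]
    rw [h2, sub_self]
  funext i
  have := Fintype.linearIndependent_iff.1 hv _ h1 i
  linarith

/-- moving in the direction of one edge -/
lemma move (v : Fin d → Es d) (x₀ : Es d) (a : Fin d → ℝ) (s : ℝ) (i : Fin d) :
    x₀ + ∑ j, a j • v j + s • v i = x₀ + ∑ j, (Function.update a i (a i + s)) j • v j := by
  rw [add_assoc]
  congr 1
  have h1 : ∀ j, (Function.update a i (a i + s)) j • v j =
      a j • v j + (if j = i then s • v i else 0) := by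
    intro j
    by_cases hj : j = i
    · subst hj
      rw [Function.update_self, if_pos rfl, add_smul]
    · rw [Function.update_of_ne hj, if_neg hj, add_zero]
  rw [Finset.sum_congr rfl fun j _ => h1 j, Finset.sum_add_distrib, Finset.sum_ite_eq' ]
  simp

lemma strict {v : Fin d → Es d} (hv : LinearIndependent ℝ v) {x₀ : Es d} {K : Set (Es d)}
    (hK : K = {x | ∃ c : Fin d → ℝ, (∀ i, 0 ≤ c i ∧ c i ≤ 1) ∧ x = x₀ + ∑ i, c i • v i})
    {a : Fin d → ℝ} (h : x₀ + ∑ j, a j • v j ∈ interior K) (i : Fin d) :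
    0 < a i ∧ a i < 1 := by
  have hc : Continuous fun s : ℝ => x₀ + ∑ j, a j • v j + s • v i := by fun_prop
  have ho : IsOpen ((fun s : ℝ => x₀ + ∑ j, a j • v j + s • v i) ⁻¹' interior K) :=
    isOpen_interior.preimage hc
  have h0 : (0 : ℝ) ∈ (fun s : ℝ => x₀ + ∑ j, a j • v j + s • v i) ⁻¹' interior K := by
    simpa using h
  obtain ⟨ε, hε, hb⟩ := Metric.isOpen_iff.1 ho 0 h0
  have key : ∀ s : ℝ, |s| < ε → 0 ≤ a i + s ∧ a i + s ≤ 1 := by
    intro s hs
    have h1 : s ∈ Metric.ball (0 : ℝ) ε := by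
      rw [Metric.mem_ball, Real.dist_eq, sub_zero]
      exact hs
    have h2 : x₀ + ∑ j, a j • v j + s • v i ∈ K := interior_subset (hb h1)
    rw [hK] at h2
    obtain ⟨c, hc1, hc2⟩ := h2
    rw [move] at hc2
    have h3 := coeff_eq hv hc2
    have h4 := hc1 i
    rw [← h3, Function.update_self] at h4
    exact h4
  have h5 := key (ε / 2) (by rw [abs_of_pos (by linarith)]; linarith)
  have h6 := key (-(ε / 2)) (by rw [abs_neg, abs_of_pos (by linarith)]; linarith)
  constructor <;> linarith [h5.1, h5.2, h6.1, h6.2]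

/-- the vertices -/
noncomputable def pt (v : Fin d → Es d) (x₀ : Es d) (S : Finset (Fin d)) : Es d :=
  x₀ + ∑ i, (if i ∈ S then (1 : ℝ) else 0) • v i

lemma pt_sub {v : Fin d → Es d} (hv : LinearIndependent ℝ v) {x₀ : Es d} {K : Set (Es d)}
    (hK : K = {x | ∃ c : Fin d → ℝ, (∀ i, 0 ≤ c i ∧ c i ≤ 1) ∧ x = x₀ + ∑ i, c i • v i})
    {S S' : Finset (Fin d)} {t : Es d} (h : pt v x₀ S - t ∈ interior K)
    (h' : pt v x₀ S' - t ∈ interior K) : S ⊆ S' := by
  intro i hi
  by_contra hi'
  have h1 := interior_subset h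
  have h1' := interior_subset h'
  rw [hK] at h1 h1'
  obtain ⟨c, -, hc⟩ := h1
  obtain ⟨c', -, hc'⟩ := h1'
  have h2 := strict hv hK (hc ▸ h) i
  have h2' := strict hv hK (hc' ▸ h') i
  have h3 : ∑ j, (c j - c' j - ((if j ∈ S then (1 : ℝ) else 0) -
      (if j ∈ S' then (1 : ℝ) else 0))) • v j = 0 := by
    simp only [sub_smul, Finset.sum_sub_distrib]
    have h4 : pt v x₀ S - t - (pt v x₀ S' - t) =
        (x₀ + ∑ i, c i • v i) - (x₀ + ∑ i, c' i • v i) := by rw [hc, hc']
    unfold pt at h4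
    have h5 : ∀ A B C D : Es d, x₀ + A - t - (x₀ + B - t) = (x₀ + C) - (x₀ + D) →
        C - D - (A - B) = 0 := by
      intro A B C D h
      have h6 : x₀ + A - t - (x₀ + B - t) = A - B := by abel
      have h7 : (x₀ + C) - (x₀ + D) = C - D := by abel
      rw [h6, h7] at h
      rw [h, sub_self]
    exact h5 _ _ _ _ h4
  have h8 := Fintype.linearIndependent_iff.1 hv _ h3 i
  rw [if_pos hi, if_neg hi'] at h8
  linarith [h2.1, h2.2, h2'.1, h2'.2]

end PLB_

open PLB_ in
theorem p_PLB : T_PLB := by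
  classical
  rintro d K N M ⟨x₀, v, hv, hK⟩ ⟨t, ht⟩
  have hmem : ∀ S : Finset (Fin d), pt v x₀ S ∈ K := by
    intro S
    rw [hK]
    refine ⟨fun i => if i ∈ S then (1 : ℝ) else 0, fun i => ?_, rfl⟩
    dsimp only
    split_ifs <;> norm_num
  have h1 : ∑ _S : Finset (Fin d), N ≤ ∑ S : Finset (Fin d),
      ∑ j : Fin M, (if pt v x₀ S - t j ∈ interior K then 1 else 0) := by
    refine Finset.sum_le_sum fun S _ => ?_
    have h2 := ht _ (hmem S)
    unfold cnt at h2
    rw [Finset.card_filter] at h2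
    convert h2
  rw [Finset.sum_comm] at h1
  have h3 : ∀ j : Fin M, ∑ S : Finset (Fin d),
      (if pt v x₀ S - t j ∈ interior K then 1 else 0) ≤ 1 := by
    intro j
    rw [← Finset.card_filter, Finset.card_le_one]
    intro a ha b hb
    rw [Finset.mem_filter] at ha hb
    exact Finset.Subset.antisymm (pt_sub hv hK ha.2 hb.2) (pt_sub hv hK hb.2 ha.2)
  have h4 := h1.trans (Finset.sum_le_sum fun j _ => h3 j)
  simp only [Finset.sum_const, Finset.card_univ, Fintype.card_finset, Fintype.card_fin,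
    smul_eq_mul, mul_one] at h4
  rw [mul_comm]
  exact h4

end Pool.Agent.MFH
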