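import Pool.Agent.MFH.Targets

/-!
# MFH: rational weights (RAT)
-/

set_option autoImplicit false

open MeasureTheory Set Module
open scoped ENNReal Pointwise

namespace Pool.Agent.MFH

namespace RAT_

theorem rat {d : ℕ} {K : Set (Es d)} {N M n : ℕ} (t : Fin n → Es d) (a : Fin n → ℕ)
    (h : ∑ j, a j ≤ M)
    (hc : ∀ x ∈ K, N ≤ ∑ j, (open Classical in if x - t j ∈ interior K then a j else 0)) :
    Multi K N M := by
  classical
  have hcard : Fintype.card (Σ j, Fin (a j)) ≤ Fintype.card (Fin M) := by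
    simpa using h
  obtain ⟨e⟩ := Function.Embedding.nonempty_of_card_le hcard
  refine ⟨fun k => if h : ∃ p, e p = k then t h.choose.1 else 0, fun x hx => ?_⟩
  refine (hc x hx).trans ?_
  have key : ∀ p, (fun k => if h : ∃ p, e p = k then t h.choose.1 else 0) (e p) = t p.1 := by
    intro p
    have h1 : ∃ q, e q = e p := ⟨p, rfl⟩
    simp only
    rw [dif_pos h1]
    have h2 := e.injective h1.choose_spec
    rw [h2]
  unfold cnt
  have h3 : ∑ j, (if x - t j ∈ interior K then a j else 0) =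
      ((Finset.univ : Finset (Σ j, Fin (a j))).filter
        (fun p => x - t p.1 ∈ interior K)).card := by
    rw [Finset.card_filter, Fintype.sum_sigma]
    refine Finset.sum_congr rfl fun j _ => ?_
    split_ifs <;> simp
  rw [h3, ← Finset.card_map e]
  refine Finset.card_le_card ?_
  intro k hk
  rw [Finset.mem_map] at hk
  obtain ⟨p, hp, rfl⟩ := hk
  rw [Finset.mem_filter] at hp ⊢
  refine ⟨Finset.mem_univ _, ?_⟩
  have := key p
  simp only at this ⊢
  rw [this]
  exact hp.2

end RAT_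

theorem p_RAT : T_RAT := by
  classical
  intro d K hK
  obtain ⟨n, t, w, hw, hc, hs⟩ := hK
  have hs0 : 0 < (2 : ℝ) ^ d - ∑ j, w j := by linarith
  obtain ⟨N, hN⟩ := exists_nat_gt ((n : ℝ) / ((2 : ℝ) ^ d - ∑ j, w j))
  have hN0 : (0 : ℝ) < N := lt_of_le_of_lt (by positivity) hN
  have hN1 : 1 ≤ N := by exact_mod_cast hN0
  rw [div_lt_iff₀ hs0] at hN
  refine ⟨N, hN1, RAT_.rat t (fun j => ⌈(N : ℝ) * w j⌉₊) ?_ ?_⟩
  · have h1 : ((∑ j, ⌈(N : ℝ) * w j⌉₊ : ℕ) : ℝ) < ((N * 2 ^ d : ℕ) : ℝ) := by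
      push_cast
      calc ∑ j, ((⌈(N : ℝ) * w j⌉₊ : ℕ) : ℝ) ≤ ∑ j, ((N : ℝ) * w j + 1) := by
            refine Finset.sum_le_sum fun j _ => ?_
            exact (Nat.ceil_lt_add_one (mul_nonneg hN0.le (hw j))).le
        _ = N * ∑ j, w j + n := by
            rw [Finset.sum_add_distrib, ← Finset.mul_sum]; simp
        _ < (N : ℝ) * 2 ^ d := by nlinarith
    have h2 : ∑ j, ⌈(N : ℝ) * w j⌉₊ < N * 2 ^ d := by exact_mod_cast h1
    omega
  · intro x hx
    have h1 := hc x hx
    have h2 : (N : ℝ) ≤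
        ((∑ j, (if x - t j ∈ interior K then ⌈(N : ℝ) * w j⌉₊ else 0) : ℕ) : ℝ) := by
      push_cast
      calc (N : ℝ) = N * 1 := by ring
        _ ≤ N * ∑ j, (if x - t j ∈ interior K then w j else 0) :=
            mul_le_mul_of_nonneg_left h1 hN0.le
        _ = ∑ j, (if x - t j ∈ interior K then N * w j else 0) := by
            rw [Finset.mul_sum]
            refine Finset.sum_congr rfl fun j _ => ?_
            split_ifs <;> simp
        _ ≤ _ := by
            refine Finset.sum_le_sum fun j _ => ?_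
            split_ifs
            · exact Nat.le_ceil _
            · exact le_rfl
    exact_mod_cast h2

end Pool.Agent.MFH
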