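import Pool.Agent.MFH.Targets

/-!
# MFH: slabs are thin (target SLB)
-/

set_option autoImplicit false

open MeasureTheory Set Module
open scoped ENNReal Pointwise

namespace Pool.Agent.MFH

namespace SLB_

variable {d : ℕ} {K : Set (Es d)} {u : Es d}

/-- the part of `K` above a level -/
def A (K : Set (Es d)) (u : Es d) (b s : ℝ) : Set (Es d) := {x | x ∈ K ∧ b - s ≤ inner ℝ x u}

/-- the slab -/
def Z (K : Set (Es d)) (u : Es d) (b α β : ℝ) : Set (Es d) :=
  {x | x ∈ K ∧ b - β ≤ inner ℝ x u ∧ inner ℝ x u < b - α}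

theorem meas_Z (hK : IsCompact K) (b α β : ℝ) : MeasurableSet (Z K u b α β) := by
  have hi : Measurable (fun x : Es d => (inner ℝ x u : ℝ)) := by
    apply Continuous.measurable
    fun_prop
  exact hK.measurableSet.inter ((measurableSet_le measurable_const hi).inter
    (measurableSet_lt hi measurable_const))

theorem fin_A (hK : IsCompact K) (b s : ℝ) : volume (A K u b s) ≠ ⊤ :=
  ((measure_mono (fun _ h => h.1)).trans_lt hK.measure_lt_top).ne

theorem fin_Z (hK : IsCompact K) (b α β : ℝ) : volume (Z K u b α β) ≠ ⊤ :=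
  ((measure_mono (fun _ h => h.1)).trans_lt hK.measure_lt_top).ne

theorem sub_le (hK : IsCompact K) (b α β : ℝ) :
    cap K u b β - cap K u b α ≤ (volume (Z K u b α β)).toReal := by
  have h1 : A K u b β ⊆ A K u b α ∪ Z K u b α β := by
    intro x hx
    by_cases h : b - α ≤ inner ℝ x u
    · exact Or.inl ⟨hx.1, h⟩
    · exact Or.inr ⟨hx.1, hx.2, not_le.1 h⟩
  have h2 : volume (A K u b β) ≤ volume (A K u b α) + volume (Z K u b α β) :=
    (measure_mono h1).trans (measure_union_le _ _)
  have h3 := ENNReal.toReal_mono (ENNReal.add_ne_top.2 ⟨fin_A hK b α, fin_Z hK b α β⟩) h2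
  rw [ENNReal.toReal_add (fin_A hK b α) (fin_Z hK b α β)] at h3
  have h4 : cap K u b β = (volume (A K u b β)).toReal := rfl
  have h5 : cap K u b α = (volume (A K u b α)).toReal := rfl
  rw [h4, h5]
  linarith

theorem many (hK : IsCompact K) (hu : 0 < ‖u‖) {R : ℝ} (hR : K ⊆ Metric.closedBall 0 R)
    (b α β : ℝ) (m : ℕ) (hm : (m : ℝ) * (β - α) ≤ 1) (h0 : 0 < β - α) :
    (m : ℝ≥0∞) * volume (Z K u b α β) ≤
      volume (Metric.closedBall (0 : Es d) (R + 1 / ‖u‖)) := by
  let c : ℕ → Es d := fun j => -(((j : ℝ) * (β - α) / ‖u‖ ^ 2) • u)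
  let W : ℕ → Set (Es d) := fun j => (fun x => x + c j) ⁻¹' (Z K u b α β)
  have hin : ∀ j x, inner ℝ (x + c j) u = inner ℝ x u - (j : ℝ) * (β - α) := by
    intro j x
    rw [inner_add_left, inner_neg_left, inner_smul_left, real_inner_self_eq_norm_sq]
    simp only [conj_trivial]
    field_simp
    ring
  have hmW : ∀ j, MeasurableSet (W j) := fun j =>
    (meas_Z hK b α β).preimage (measurable_add_const (c j))
  have hdis : Set.PairwiseDisjoint (↑(Finset.range m) : Set ℕ) W := by
    have key : ∀ i j : ℕ, i < j → ∀ x, x ∈ W i → x ∈ W j → False := by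
      intro i j hij x hi hj
      obtain ⟨-, -, h2⟩ := hi
      obtain ⟨-, h3, -⟩ := hj
      have h2' : inner ℝ (x + c i) u < b - α := h2
      have h3' : b - β ≤ inner ℝ (x + c j) u := h3
      rw [hin] at h2' h3'
      have h4 : (i : ℝ) + 1 ≤ j := by exact_mod_cast hij
      nlinarith
    intro i _ j _ hij
    refine Set.disjoint_left.2 fun x hi hj => ?_
    rcases lt_or_gt_of_ne hij with h | h
    · exact key i j h x hi hj
    · exact key j i h x hj hi
  have hsub : (⋃ j ∈ Finset.range m, W j) ⊆ Metric.closedBall (0 : Es d) (R + 1 / ‖u‖) := by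
    intro x hx
    simp only [mem_iUnion, Finset.mem_range] at hx
    obtain ⟨j, hj, hx⟩ := hx
    have h1 : x + c j ∈ Metric.closedBall (0 : Es d) R := hR hx.1
    rw [mem_closedBall_zero_iff] at h1 ⊢
    have h2 : ‖c j‖ ≤ 1 / ‖u‖ := by
      have h3 : (j : ℝ) * (β - α) ≤ 1 := by
        have : (j : ℝ) ≤ m := by exact_mod_cast hj.le
        nlinarith
      have h4 : 0 ≤ (j : ℝ) * (β - α) / ‖u‖ ^ 2 := by positivity
      change ‖-(((j : ℝ) * (β - α) / ‖u‖ ^ 2) • u)‖ ≤ 1 / ‖u‖
      rw [norm_neg, norm_smul, Real.norm_of_nonneg h4]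
      rw [div_mul_eq_mul_div, div_le_div_iff₀ (by positivity) hu]
      nlinarith [sq_nonneg ‖u‖, mul_pos hu hu]
    calc ‖x‖ = ‖(x + c j) - c j‖ := by rw [add_sub_cancel_right]
      _ ≤ ‖x + c j‖ + ‖c j‖ := norm_sub_le _ _
      _ ≤ R + 1 / ‖u‖ := add_le_add h1 h2
  calc (m : ℝ≥0∞) * volume (Z K u b α β) = ∑ j ∈ Finset.range m, volume (W j) := by
        have : ∀ j ∈ Finset.range m, volume (W j) = volume (Z K u b α β) := by
          intro j _
          exact measure_preimage_add_right volume (c j) (Z K u b α β)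
        rw [Finset.sum_congr rfl this, Finset.sum_const, Finset.card_range, nsmul_eq_mul]
    _ = volume (⋃ j ∈ Finset.range m, W j) :=
        (measure_biUnion_finset hdis fun j _ => hmW j).symm
    _ ≤ _ := measure_mono hsub

end SLB_

open SLB_ in
/-- **SLB** -/
theorem p_SLB : T_SLB := by
  intro d K u hK hu
  have hu' : 0 < ‖u‖ := norm_pos_iff.2 hu
  obtain ⟨R, hR⟩ := hK.cp.isBounded.subset_closedBall 0
  set V : ℝ := (volume (Metric.closedBall (0 : Es d) (R + 1 / ‖u‖))).toReal with hV
  have hV0 : 0 ≤ V := ENNReal.toReal_nonneg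
  have hfin : volume (Metric.closedBall (0 : Es d) (R + 1 / ‖u‖)) ≠ ⊤ :=
    measure_closedBall_lt_top.ne
  refine ⟨2 * V + 1, by positivity, ?_⟩
  intro b α β hab
  refine (sub_le hK.cp b α β).trans ?_
  set z : ℝ := (volume (Z K u b α β)).toReal with hz
  have hz0 : 0 ≤ z := ENNReal.toReal_nonneg
  rcases hab.eq_or_lt with h | h
  · have : Z K u b α β = ∅ := by
      ext x
      constructor
      · rintro ⟨-, h1, h2⟩
        rw [h] at h2
        exact absurd h1 (not_le.2 h2)
      · exact fun hx => absurd hx (notMem_empty x)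
    rw [hz, this, measure_empty, ENNReal.toReal_zero, h]
    simp
  · have h0 : 0 < β - α := by linarith
    have main : ∀ m : ℕ, (m : ℝ) * (β - α) ≤ 1 → (m : ℝ) * z ≤ V := by
      intro m hm
      have h1 := many hK.cp hu' hR b α β m hm h0
      have h2 := ENNReal.toReal_mono hfin h1
      rwa [ENNReal.toReal_mul, ENNReal.toReal_natCast] at h2
    by_cases h1 : β - α ≤ 1
    · set m : ℕ := ⌊1 / (β - α)⌋₊ with hmd
      have hpos : 0 ≤ 1 / (β - α) := by positivity
      have hm1 : (m : ℝ) ≤ 1 / (β - α) := Nat.floor_le hpos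
      have hm2 : 1 / (β - α) < m + 1 := Nat.lt_floor_add_one _
      have hone : 1 ≤ 1 / (β - α) := by
        rw [le_div_iff₀ h0]
        linarith
      have hm3 : 1 ≤ m := by
        rw [hmd]
        exact Nat.le_floor (by exact_mod_cast hone)
      have hm4 : (1 : ℝ) ≤ m := by exact_mod_cast hm3
      have hm5 : (m : ℝ) * (β - α) ≤ 1 := by
        rw [le_div_iff₀ h0] at hm1
        exact hm1
      have h2 := main m hm5
      have h3 : 1 < ((m : ℝ) + 1) * (β - α) := by
        rw [div_lt_iff₀ h0] at hm2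
        exact hm2
      have h4 : 1 ≤ 2 * m * (β - α) := by nlinarith
      calc z = 1 * z := (one_mul z).symm
        _ ≤ (2 * m * (β - α)) * z := by gcongr
        _ = 2 * (m * z) * (β - α) := by ring
        _ ≤ 2 * V * (β - α) := by gcongr
        _ ≤ (2 * V + 1) * (β - α) := by nlinarith
    · have h2 : z ≤ V := by
        have hsub : Z K u b α β ⊆ Metric.closedBall (0 : Es d) (R + 1 / ‖u‖) := by
          intro x hx
          have h3 := hR hx.1
          rw [mem_closedBall_zero_iff] at h3 ⊢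
          have : 0 < 1 / ‖u‖ := by positivity
          linarith
        exact ENNReal.toReal_mono hfin (measure_mono hsub)
      have h3 : 1 < β - α := not_le.1 h1
      nlinarith

end Pool.Agent.MFH
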