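import Pool.Agent.MFH.Targets
import Pool.Agent.FracH.Key

/-!
# Moments of the two convolutions
-/

set_option autoImplicit false

open MeasureTheory Set Module
open scoped ENNReal Pointwise

namespace Pool.Agent.MFH

namespace SQM_

theorem vol_int {d : ℕ} {K : Set (Es d)} (hK : Body K) : volume (interior K) = volume K := by
  have h := hK.cv.addHaar_frontier (volume : Measure (Es d))
  refine le_antisymm (measure_mono interior_subset) ?_
  have hsub : K ⊆ interior K ∪ frontier K := by
    intro x hx
    by_cases hi : x ∈ interior K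
    · exact Or.inl hi
    · exact Or.inr ⟨subset_closure hx, hi⟩
  calc volume K ≤ volume (interior K ∪ frontier K) := measure_mono hsub
    _ ≤ volume (interior K) + volume (frontier K) := measure_union_le _ _
    _ = volume (interior K) := by rw [h, add_zero]

theorem main {d : ℕ} (B : Set (Es d)) (hB : MeasurableSet B) (μ : Measure (Es d))
    [IsProbabilityMeasure μ] :
    ∫⁻ z, μ {y | y - z ∈ B} = volume B ∧
    ∫⁻ x, μ {y | x - y ∈ B} = volume B ∧
    ∫⁻ z, (μ {y | y - z ∈ B}) ^ 2 = ∫⁻ x, (μ {y | x - y ∈ B}) ^ 2 := by
  classical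
  set f : Es d → ℝ≥0∞ := B.indicator 1 with hf
  have hfm : Measurable f := measurable_one.indicator hB
  set k1 : Es d → Es d → ℝ≥0∞ := fun z x => f (x - z) with hk1
  set k2 : Es d → Es d → ℝ≥0∞ := fun z x => f (z - x) with hk2
  have hk1m : Measurable (Function.uncurry k1) :=
    hfm.comp (measurable_snd.sub measurable_fst)
  have hk2m : Measurable (Function.uncurry k2) :=
    hfm.comp (measurable_fst.sub measurable_snd)
  have hF : ∀ z, μ {y | y - z ∈ B} = ∫⁻ x, k1 z x ∂μ := by
    intro z
    have hms : MeasurableSet {y : Es d | y - z ∈ B} := (measurable_id.sub_const z) hB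
    rw [← lintegral_indicator_one hms]
    refine lintegral_congr fun x => ?_
    simp only [hk1, hf]
    by_cases hx : x - z ∈ B
    · rw [indicator_of_mem hx, indicator_of_mem (show x ∈ {y : Es d | y - z ∈ B} from hx)]
      rfl
    · rw [indicator_of_notMem hx, indicator_of_notMem (show x ∉ {y : Es d | y - z ∈ B} from hx)]
  have hG : ∀ z, μ {y | z - y ∈ B} = ∫⁻ x, k2 z x ∂μ := by
    intro z
    have hms : MeasurableSet {y : Es d | z - y ∈ B} := (measurable_id.const_sub z) hB
    rw [← lintegral_indicator_one hms]
    refine lintegral_congr fun x => ?_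
    simp only [hk2, hf]
    by_cases hx : z - x ∈ B
    · rw [indicator_of_mem hx, indicator_of_mem (show x ∈ {y : Es d | z - y ∈ B} from hx)]
      rfl
    · rw [indicator_of_notMem hx, indicator_of_notMem (show x ∉ {y : Es d | z - y ∈ B} from hx)]
  have hfint : ∫⁻ z, f z = volume B := by
    rw [hf, lintegral_indicator_one hB]
  refine ⟨?_, ?_, ?_⟩
  · simp_rw [hF]
    rw [lintegral_lintegral_swap hk1m.aemeasurable]
    have : ∀ x, ∫⁻ z, k1 z x = volume B := by
      intro x
      simp only [hk1]
      rw [lintegral_sub_left_eq_self (μ := volume) f x, hfint]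
    simp_rw [this]
    rw [lintegral_const, measure_univ, mul_one]
  · simp_rw [hG]
    rw [lintegral_lintegral_swap hk2m.aemeasurable]
    have : ∀ x, ∫⁻ z, k2 z x = volume B := by
      intro x
      simp only [hk2]
      rw [lintegral_sub_right_eq_self (μ := volume) f x, hfint]
    simp_rw [this]
    rw [lintegral_const, measure_univ, mul_one]
  · simp_rw [hF, hG, pow_two]
    rw [FracH.sq_lintegral μ k1 hk1m, FracH.sq_lintegral μ k2 hk2m]
    refine lintegral_congr fun x => lintegral_congr fun y => ?_
    rw [← lintegral_sub_left_eq_self (μ := volume) (fun z => k1 z x * k1 z y) (x + y)]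
    refine lintegral_congr fun z => ?_
    simp only [hk1, hk2]
    rw [show x - (x + y - z) = z - y by abel, show y - (x + y - z) = z - x by abel, mul_comm]

end SQM_

theorem p_SQM : T_SQM := by
  intro d K hK μ hμ
  have _ : IsProbabilityMeasure μ := ⟨hμ⟩
  have h := SQM_.main (interior K) isOpen_interior.measurableSet μ
  rw [SQM_.vol_int hK] at h
  exact h

end Pool.Agent.MFH
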