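import Pool.Agent.MFH.Targets

/-!
# TIL: the tiling
-/

set_option autoImplicit false

open MeasureTheory Set Module
open scoped ENNReal Pointwise

namespace Pool.Agent.MFH

theorem p_TIL (hEQU : T_EQU) (hFNV : T_FNV) : T_TIL := by
  classical
  intro d K μ hK hμ
  obtain ⟨V, hV, hc, hs⟩ := hFNV d K μ hK hμ
  refine ⟨V, hV, hc, ?_⟩
  filter_upwards [hEQU d K μ hK hμ] with x hx hx2
  have h1 := hx hx2
  have hm : MeasurableSet {y : Es d | x - y ∈ interior K} := by
    have : IsOpen {y : Es d | x - y ∈ interior K} :=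
      isOpen_interior.preimage (continuous_const.sub continuous_id)
    exact this.measurableSet
  rw [hs _ hm] at h1
  have hq0 : ((2 : ℝ≥0∞) ^ d)⁻¹ ≠ 0 := ENNReal.inv_ne_zero.mpr
    (ENNReal.pow_ne_top (by norm_num))
  have hq1 : ((2 : ℝ≥0∞) ^ d)⁻¹ ≠ ⊤ := ENNReal.inv_ne_top.mpr (pow_ne_zero _ (by norm_num))
  have h2 := h1.trans (mul_one (((2 : ℝ≥0∞) ^ d)⁻¹)).symm
  have h3 := (ENNReal.mul_right_inj hq0 hq1).mp h2
  refine Eq.trans (congrArg Finset.card ?_) (Nat.cast_eq_one.mp h3)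
  ext v
  simp only [Finset.mem_filter, Set.mem_ofPred_eq]

end Pool.Agent.MFH
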