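import Pool.Agent.MFH.Targets

set_option autoImplicit false

/-!
# MFH, target TWO: facet normals of a tiling body take two values on the vertices
-/

open MeasureTheory Set Module Filter Topology
open scoped ENNReal Pointwise

namespace Pool.Agent.MFH

namespace TWO_

variable {d : ℕ}

theorem cap_nonneg (K : Set (Es d)) (u : Es d) (b s : ℝ) : 0 ≤ cap K u b s :=
  ENNReal.toReal_nonneg

theorem cap_neg {K : Set (Es d)} {u : Es d} {b : ℝ} (hb : ∀ x ∈ K, inner ℝ x u ≤ b) {s : ℝ}
    (hs : s < 0) : cap K u b s = 0 := by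
  have h : {x | x ∈ K ∧ b - s ≤ inner ℝ x u} = (∅ : Set (Es d)) := by
    ext x
    simp only [mem_setOf_eq, mem_empty_iff_false, iff_false, not_and, not_le]
    intro hx
    linarith [hb x hx]
  unfold cap
  rw [h, measure_empty, ENNReal.toReal_zero]

theorem cap_mono {K : Set (Es d)} (hK : Body K) (u : Es d) (b : ℝ) :
    Monotone (cap K u b) := by
  intro s t hst
  unfold cap
  refine ENNReal.toReal_mono ?_ (measure_mono ?_)
  · exact ((measure_mono (fun x hx => hx.1)).trans_lt hK.cp.measure_lt_top).ne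
  · rintro x ⟨hx, hx2⟩
    exact ⟨hx, by linarith⟩

/-- the analytic core of the argument -/
theorem core {ι : Type} (T : ℝ → ℝ) (V : Finset ι) (δ : ι → ℝ) (d : ℕ) {C c W e e2 : ℝ}
    (hneg : ∀ s < 0, T s = 0) (hmono : Monotone T) (hT0 : T 0 = 0) (hTn : ∀ s, 0 ≤ T s)
    (hcap : ∀ s, 2 ^ d * T s = ∑ v ∈ V, T (2 * s - δ v)) (he : 0 < e) (he2 : e < e2)
    (heW : e < W) (hC : 0 < C) (hc : 0 < c)
    (h0 : ∃ v ∈ V, δ v = 0) (h1 : ∃ v ∈ V, δ v = e)
    (h3 : ∀ v ∈ V, δ v = 0 ∨ δ v = e ∨ e2 ≤ δ v)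
    (hS : ∀ α β : ℝ, α ≤ β → T β - T α ≤ C * (β - α))
    (hH : ∀ r : ℝ, 0 < r → r ≤ 1 → ∀ α β : ℝ, α ≤ β →
      r ^ d * (T β - T α) ≤ T (r * β) - T (r * α) ∧
      r ^ d * (T β - T α) ≤ T (W - r * (W - β)) - T (W - r * (W - α)))
    (hlow : ∀ h : ℝ, 0 ≤ h → h ≤ 1 → c * h ≤ T h) : False := by
  classical
  set n : ℕ := (V.filter fun v => δ v = 0).card with hn
  set n' : ℕ := (V.filter fun v => δ v = e).card with hn'
  have hn1 : 1 ≤ n := by
    obtain ⟨v, hv, hv0⟩ := h0
    exact Finset.card_pos.2 ⟨v, Finset.mem_filter.2 ⟨hv, hv0⟩⟩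
  have hn1' : 1 ≤ n' := by
    obtain ⟨v, hv, hv0⟩ := h1
    exact Finset.card_pos.2 ⟨v, Finset.mem_filter.2 ⟨hv, hv0⟩⟩
  have hn1r : (1 : ℝ) ≤ n := by exact_mod_cast hn1
  have hn1r' : (1 : ℝ) ≤ n' := by exact_mod_cast hn1'
  have hsum : ∀ τ : ℝ, τ < e2 → 2 ^ d * T (τ / 2) = n * T τ + n' * T (τ - e) := by
    intro τ hτ
    rw [hcap]
    have h4 : ∀ v ∈ V, T (2 * (τ / 2) - δ v) =
        (if δ v = 0 then T τ else 0) + (if δ v = e then T (τ - e) else 0) := by
      intro v hv
      have h5 : 2 * (τ / 2) - δ v = τ - δ v := by ring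
      rw [h5]
      rcases h3 v hv with h6 | h6 | h6
      · rw [h6, if_pos rfl, if_neg (by linarith : ¬ (0 : ℝ) = e), add_zero, sub_zero]
      · rw [h6, if_pos rfl, if_neg (by linarith : ¬ e = (0 : ℝ)), zero_add]
      · rw [if_neg (by linarith : ¬ δ v = 0), if_neg (by linarith : ¬ δ v = e), add_zero]
        exact hneg _ (by linarith)
    rw [Finset.sum_congr rfl h4, Finset.sum_add_distrib, ← Finset.sum_filter,
      ← Finset.sum_filter, Finset.sum_const, Finset.sum_const, nsmul_eq_mul, nsmul_eq_mul]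
  have hmain : ∀ h : ℝ, 0 < h → h < e → e + h < e2 → h ≤ 1 →
      c ≤ 2 ^ d * (1 - (e / (e + h) * ((W - e) / (W - e + h))) ^ d) * (C / 2) := by
    intro h hh hhe hhe2 hh1
    have hA := hsum (e + h) hhe2
    have hB := hsum e he2
    have hD := hsum (e - h) (by linarith)
    have e1 : e + h - e = h := by ring
    have e2' : e - h - e = -h := by ring
    rw [e1] at hA
    rw [sub_self, hT0, mul_zero, add_zero] at hB
    rw [e2', hneg (-h) (by linarith), mul_zero, add_zero] at hD
    set r : ℝ := e / (e + h) with hr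
    set r' : ℝ := (W - e) / (W - e + h) with hr'
    have hr0 : 0 < r := by positivity
    have hr1 : r ≤ 1 := (div_le_one (by positivity)).2 (by linarith)
    have hWe : 0 < W - e := by linarith
    have hr0' : 0 < r' := by positivity
    have hr1' : r' ≤ 1 := (div_le_one (by positivity)).2 (by linarith)
    have hre : r * (e + h) = e := by
      rw [hr]
      field_simp
    have hre' : r' * (W - e + h) = W - e := by
      rw [hr']
      field_simp
    have hS0 : r ^ d * (T ((e + h) / 2) - T (e / 2)) ≤ T (e / 2) - T ((e - h) / 2) := by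
      have h5 := (hH r hr0 hr1 (e / 2) ((e + h) / 2) (by linarith)).1
      have h6 : r * ((e + h) / 2) = e / 2 := by
        rw [mul_div_assoc', hre]
      have h7 : (e - h) / 2 ≤ r * (e / 2) := by
        have h8 : e - h ≤ r * e := by
          have h9 : (e - h) * (e + h) ≤ r * e * (e + h) := by
            have h10 : r * e * (e + h) = e * e := by
              rw [mul_right_comm, hre]
            rw [h10]
            nlinarith
          exact le_of_mul_le_mul_right h9 (by linarith)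
        linarith
      rw [h6] at h5
      have h8 := hmono h7
      linarith
    have hS1 : r' ^ d * (T e - T (e - h)) ≤ T (e + h) - T e := by
      have h5 := (hH r' hr0' hr1' (e - h) e (by linarith)).2
      have h6 : W - r' * (W - (e - h)) = e := by
        have h7 : W - (e - h) = W - e + h := by ring
        rw [h7, hre']
        ring
      have h7 : W - r' * (W - e) ≤ e + h := by
        have h8 : r' * (W - e) = W - e - r' * h := by linarith
        have h9 : r' * h ≤ 1 * h := mul_le_mul_of_nonneg_right hr1' hh.le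
        linarith
      rw [h6] at h5
      have h8 := hmono h7
      linarith
    have hS2 : T ((e + h) / 2) - T (e / 2) ≤ C * (h / 2) := by
      have h5 := hS (e / 2) ((e + h) / 2) (by linarith)
      have h6 : (e + h) / 2 - e / 2 = h / 2 := by ring
      rw [h6] at h5
      exact h5
    have hrp : 0 ≤ r ^ d := by positivity
    have hrp' : 0 ≤ r' ^ d := by positivity
    have hd2 : (0 : ℝ) ≤ 2 ^ d := by positivity
    have hq1 : (r * r') ^ d ≤ 1 := pow_le_one₀ (by positivity) (mul_le_one₀ hr1 hr0'.le hr1')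
    have k1 : (n : ℝ) * (T e - T (e - h)) = 2 ^ d * (T (e / 2) - T ((e - h) / 2)) := by
      linarith
    have k2 : r' ^ d * (2 ^ d * (T (e / 2) - T ((e - h) / 2))) ≤ n * (T (e + h) - T e) := by
      rw [← k1]
      calc r' ^ d * (n * (T e - T (e - h))) = n * (r' ^ d * (T e - T (e - h))) := by ring
        _ ≤ n * (T (e + h) - T e) := mul_le_mul_of_nonneg_left hS1 (by linarith)
    have k3 : (r * r') ^ d * (2 ^ d * (T ((e + h) / 2) - T (e / 2))) ≤
        r' ^ d * (2 ^ d * (T (e / 2) - T ((e - h) / 2))) := by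
      calc (r * r') ^ d * (2 ^ d * (T ((e + h) / 2) - T (e / 2)))
          = r' ^ d * (2 ^ d * (r ^ d * (T ((e + h) / 2) - T (e / 2)))) := by
            rw [mul_pow]
            ring
        _ ≤ _ := by gcongr
    have k4 : c * h ≤ n' * T h := by
      have h5 := hlow h hh.le hh1
      have h6 : 1 * T h ≤ n' * T h := mul_le_mul_of_nonneg_right hn1r' (hTn h)
      linarith
    have k5 : (n' : ℝ) * T h ≤ 2 ^ d * (1 - (r * r') ^ d) * (T ((e + h) / 2) - T (e / 2)) := by
      nlinarith
    have k6 : 2 ^ d * (1 - (r * r') ^ d) * (T ((e + h) / 2) - T (e / 2)) ≤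
        2 ^ d * (1 - (r * r') ^ d) * (C * (h / 2)) :=
      mul_le_mul_of_nonneg_left hS2 (mul_nonneg hd2 (by linarith))
    have k7 : c * h ≤ 2 ^ d * (1 - (r * r') ^ d) * (C / 2) * h := by
      calc c * h ≤ _ := k4
        _ ≤ _ := k5
        _ ≤ _ := k6
        _ = _ := by ring
    exact le_of_mul_le_mul_right k7 hh
  have hlim : Tendsto (fun h : ℝ => 2 ^ d * (1 - (e / (e + h) * ((W - e) / (W - e + h))) ^ d) *
      (C / 2)) (𝓝[>] 0) (𝓝 0) := by
    have hc1 : ContinuousAt (fun h : ℝ =>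
        2 ^ d * (1 - (e / (e + h) * ((W - e) / (W - e + h))) ^ d) * (C / 2)) 0 := by
      have a1 : e + (0 : ℝ) ≠ 0 := by linarith
      have a2 : W - e + (0 : ℝ) ≠ 0 := by
        have : 0 < W - e := by linarith
        linarith
      have b1 : ContinuousAt (fun h : ℝ => e / (e + h)) 0 :=
        continuousAt_const.div (continuousAt_const.add continuousAt_id) a1
      have b2 : ContinuousAt (fun h : ℝ => (W - e) / (W - e + h)) 0 :=
        continuousAt_const.div (continuousAt_const.add continuousAt_id) a2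
      exact (continuousAt_const.mul (continuousAt_const.sub ((b1.mul b2).pow d))).mul
        continuousAt_const
    have h2 := hc1.tendsto
    have h4 : 2 ^ d * (1 - (e / (e + 0) * ((W - e) / (W - e + 0))) ^ d) * (C / 2) = 0 := by
      have a1 : e / (e + 0) = 1 := by
        rw [add_zero]
        exact div_self he.ne'
      have a2 : (W - e) / (W - e + 0) = 1 := by
        rw [add_zero]
        exact div_self (by linarith : W - e ≠ 0)
      rw [a1, a2]
      simp
    rw [h4] at h2
    exact h2.mono_left nhdsWithin_le_nhds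
  have hev : ∀ᶠ h : ℝ in 𝓝[>] 0, c ≤ 2 ^ d * (1 - (e / (e + h) * ((W - e) / (W - e + h))) ^ d) *
      (C / 2) := by
    have h5 : ∀ᶠ h : ℝ in 𝓝[>] 0, h < min e (min (e2 - e) 1) := by
      refine nhdsWithin_le_nhds (Iio_mem_nhds ?_)
      exact lt_min he (lt_min (by linarith) one_pos)
    filter_upwards [h5, self_mem_nhdsWithin] with h h6 h7
    have h8 := lt_min_iff.1 h6
    have h9 := lt_min_iff.1 h8.2
    exact hmain h h7 h8.1 (by linarith [h9.1]) h9.2.le
  have := ge_of_tendsto hlim hev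
  linarith

end TWO_

open TWO_ in
theorem p_TWO (hCAP : T_CAP) (hHOM : T_HOM) (hSLB : T_SLB) : T_TWO := by
  classical
  intro d K V u b c hK hT hu hb hv hc hcap
  have hVK : ∀ v ∈ V, v ∈ K := by
    intro v hv
    rw [hT.hull]
    exact subset_convexHull ℝ _ hv
  set δ : Es d → ℝ := fun v => b - inner ℝ v u with hδ
  have hδ0 : ∀ v ∈ V, 0 ≤ δ v := fun v hv => sub_nonneg.2 (hb v (hVK v hv))
  by_cases hpos : ∃ v ∈ V, 0 < δ v
  swap
  · refine ⟨b - 1, by linarith, fun v hv => Or.inl ?_⟩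
    have h1 : ¬ 0 < δ v := fun h => hpos ⟨v, hv, h⟩
    have h2 := hδ0 v hv
    have h3 : δ v = b - inner ℝ v u := rfl
    linarith
  obtain ⟨v1, hv1, hv1p⟩ := hpos
  obtain ⟨vW, hvW, hmax⟩ := V.exists_max_image δ ⟨v1, hv1⟩
  obtain ⟨ve, hve, hmin⟩ := (V.filter fun v => 0 < δ v).exists_min_image δ
    ⟨v1, Finset.mem_filter.2 ⟨hv1, hv1p⟩⟩
  have hveV : ve ∈ V := (Finset.mem_filter.1 hve).1
  have hvep : 0 < δ ve := (Finset.mem_filter.1 hve).2
  refine ⟨b - δ vW, by linarith [hmax ve hveV], ?_⟩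
  by_contra hcon
  push_neg at hcon
  obtain ⟨v2, hv2, hv2b, hv2m⟩ := hcon
  have hv2p : 0 < δ v2 := by
    refine lt_of_le_of_ne (hδ0 v2 hv2) fun h => hv2b ?_
    have h3 : δ v2 = b - inner ℝ v2 u := rfl
    linarith
  have hv2W : δ v2 < δ vW := by
    refine lt_of_le_of_ne (hmax v2 hv2) fun h => hv2m ?_
    have h3 : δ v2 = b - inner ℝ v2 u := rfl
    linarith
  have heW : δ ve < δ vW := lt_of_le_of_lt (hmin v2 (Finset.mem_filter.2 ⟨hv2, hv2p⟩)) hv2W
  obtain ⟨v3, hv3, hmin3⟩ := (V.filter fun v => δ ve < δ v).exists_min_image δ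
    ⟨vW, Finset.mem_filter.2 ⟨hvW, heW⟩⟩
  obtain ⟨C, hC, hSL⟩ := hSLB d K u hK hu
  have hneg : ∀ s < 0, cap K u b s = 0 := fun s hs => cap_neg hb hs
  have hT0 : cap K u b 0 = 0 := by
    refine le_antisymm ?_ (cap_nonneg _ _ _ _)
    refine le_of_forall_pos_le_add fun ε hε => ?_
    have h1 := hSL b (-(ε / C)) 0 (by
      have : 0 < ε / C := by positivity
      linarith)
    rw [hneg (-(ε / C)) (by
      have : 0 < ε / C := by positivity
      linarith)] at h1
    have h2 : C * (0 - -(ε / C)) = ε := by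
      rw [zero_sub, neg_neg, mul_div_cancel₀ ε hC.ne']
    linarith
  obtain ⟨v0, hv0, hv0b⟩ := hv
  refine core (cap K u b) V δ d (C := C) (c := c) (W := δ vW) (e := δ ve) (e2 := δ v3) hneg
    (cap_mono hK u b) hT0 (cap_nonneg K u b) ?_ hvep (Finset.mem_filter.1 hv3).2 heW hC hc
    ⟨v0, hv0, ?_⟩ ⟨ve, hveV, rfl⟩ ?_ (fun α β h => hSL b α β h) ?_ hcap
  · intro s
    exact hCAP d K V u b hK hT s
  · show b - inner ℝ v0 u = 0
    rw [hv0b, sub_self]
  · intro v hv
    by_cases h1 : 0 < δ v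
    · right
      by_cases h2 : δ ve < δ v
      · right
        exact hmin3 v (Finset.mem_filter.2 ⟨hv, h2⟩)
      · left
        exact le_antisymm (not_lt.1 h2) (hmin v (Finset.mem_filter.2 ⟨hv, h1⟩))
    · left
      exact le_antisymm (not_lt.1 h1) (hδ0 v hv)
  · refine hHOM d K u b (δ vW) hK ⟨v0, hVK v0 hv0, hv0b⟩ ⟨vW, hVK vW hvW, ?_⟩
    show inner ℝ vW u = b - (b - inner ℝ vW u)
    ring

end Pool.Agent.MFH
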