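import Pool.Agent.MFH.Main

/-!
# Multifold coverings: stability of the equality case
-/

set_option autoImplicit false

open MeasureTheory Set Module
open scoped ENNReal Pointwise

namespace Pool.Agent.MFH

/-- `K` lies between a parallelotope and its `(1 + δ)`-fold homothetic copy -/
def Close {d : ℕ} (δ : ℝ) (K : Set (Es d)) : Prop :=
  ∃ (P : Set (Es d)) (a : Es d), Para P ∧ P ⊆ K ∧ K ⊆ (fun y => a + (1 + δ) • y) '' P

/-- the image of a parallelotope under an affine equivalence -/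
theorem para_image {d : ℕ} {P : Set (Es d)} (hP : Para P) (A : Es d ≃ᵃ[ℝ] Es d) :
    Para (A '' P) := by
  obtain ⟨x₀, v, hv, rfl⟩ := hP
  refine ⟨A x₀, fun i => A.linear (v i), ?_, ?_⟩
  · exact hv.map' (A.linear : Es d →ₗ[ℝ] Es d) (LinearEquiv.ker A.linear)
  · have key : ∀ c : Fin d → ℝ, A (x₀ + ∑ i, c i • v i) = A x₀ + ∑ i, c i • A.linear (v i) := by
      intro c
      have h1 := A.map_vadd x₀ (∑ i, c i • v i)
      rw [vadd_eq_add, vadd_eq_add, map_sum] at h1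
      simp only [map_smul] at h1
      rw [add_comm x₀, h1, add_comm]
    ext y
    constructor
    · rintro ⟨x, ⟨c, hc, rfl⟩, rfl⟩
      exact ⟨c, hc, key c⟩
    · rintro ⟨c, hc, rfl⟩
      exact ⟨_, ⟨c, hc, rfl⟩, key c⟩

/-- closeness is invariant under affine equivalences -/
theorem close_of_image {d : ℕ} {K : Set (Es d)} {δ : ℝ} (A : Es d ≃ᵃ[ℝ] Es d)
    (h : Close δ (A '' K)) : Close δ K := by
  obtain ⟨P, a, hP, h1, h2⟩ := h
  refine ⟨A.symm '' P, A.symm.linear a - δ • A.symm 0, para_image hP A.symm, ?_, ?_⟩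
  · rintro x ⟨p, hp, rfl⟩
    obtain ⟨y, hy, rfl⟩ := h1 hp
    rwa [AffineEquiv.symm_apply_apply]
  · intro x hx
    obtain ⟨p, hp, hpx⟩ := h2 ⟨x, hx, rfl⟩
    refine ⟨A.symm p, ⟨p, hp, rfl⟩, ?_⟩
    have e1 : ∀ z : Es d, A.symm z = A.symm.linear z + A.symm 0 := by
      intro z
      have := A.symm.map_vadd 0 z
      rw [vadd_eq_add, vadd_eq_add, add_zero] at this
      exact this
    have h3 : A.symm (a + (1 + δ) • p) = x := by
      simp only at hpx
      rw [hpx, AffineEquiv.symm_apply_apply]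
    rw [← h3, e1 (a + (1 + δ) • p), e1 p, map_add, map_smul]
    simp only [smul_add, add_smul, one_smul]
    abel

/-- a ball around `o` stays in the approximating bodies -/
theorem ball_subset {d : ℕ} {K K' : Set (Es d)} {o : Es d} {r ε : ℝ} (hr : 0 < r)
    (hε : 0 ≤ ε) (hεr : ε ≤ r) (hK : Convex ℝ K) (hKc : IsCompact K)
    (ho : Metric.closedBall o (2 * r) ⊆ K') (h : K' ⊆ Metric.cthickening ε K) :
    Metric.ball o r ⊆ K := by
  intro y hy
  by_contra hyK
  obtain ⟨f, u, hf1, hf2⟩ := geometric_hahn_banach_closed_point hK hKc.isClosed hyK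
  obtain ⟨w, rfl⟩ := (InnerProductSpace.toDual ℝ (Es d)).surjective f
  simp only [InnerProductSpace.toDual_apply_apply] at hf1 hf2
  have hw : w ≠ 0 := by
    rintro rfl
    have h0 : Metric.closedBall o (2 * r) ⊆ Metric.cthickening ε K := ho.trans h
    have h1 : o ∈ Metric.cthickening ε K := h0 (Metric.mem_closedBall_self (by linarith))
    rw [hKc.cthickening_eq_biUnion_closedBall hε] at h1
    simp only [mem_iUnion, exists_prop] at h1
    obtain ⟨x', hx', -⟩ := h1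
    have h2 := hf1 x' hx'
    simp only [inner_zero_left] at h2 hf2
    linarith
  have hw0 : 0 < ‖w‖ := norm_pos_iff.mpr hw
  have hq : o + (2 * r / ‖w‖) • w ∈ Metric.closedBall o (2 * r) := by
    rw [Metric.mem_closedBall, dist_eq_norm, add_sub_cancel_left, norm_smul, Real.norm_eq_abs,
      abs_of_pos (by positivity), div_mul_cancel₀ _ hw0.ne']
  have h1 := h (ho hq)
  rw [hKc.cthickening_eq_biUnion_closedBall hε] at h1
  simp only [mem_iUnion, exists_prop] at h1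
  obtain ⟨x', hx', hd⟩ := h1
  have h2 := hf1 x' hx'
  have h3 : (inner ℝ w (o + (2 * r / ‖w‖) • w) : ℝ) = inner ℝ w o + 2 * r * ‖w‖ := by
    rw [inner_add_right, real_inner_smul_right, real_inner_self_eq_norm_sq]
    field_simp
  have h4 : (inner ℝ w (o + (2 * r / ‖w‖) • w - x') : ℝ) ≤ ‖w‖ * ε := by
    refine (real_inner_le_norm _ _).trans (mul_le_mul_of_nonneg_left ?_ hw0.le)
    rw [Metric.mem_closedBall, dist_eq_norm] at hd
    exact hd
  have h5 : (inner ℝ w (y - o) : ℝ) ≤ ‖w‖ * ‖y - o‖ := real_inner_le_norm _ _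
  have h6 : ‖y - o‖ < r := by
    rwa [Metric.mem_ball, dist_eq_norm] at hy
  rw [inner_sub_right] at h4 h5
  have h7 : ‖w‖ * ‖y - o‖ < ‖w‖ * r := mul_lt_mul_of_pos_left h6 hw0
  have h8 : ‖w‖ * ε ≤ ‖w‖ * r := mul_le_mul_of_nonneg_left hεr hw0.le
  nlinarith

/-- bodies close to a parallelotope in the Hausdorff distance -/
theorem close_of_hausdorff {d : ℕ} {K' : Set (Es d)} (hK' : Body K') (hP : Para K') {δ : ℝ}
    (hδ : 0 < δ) : ∃ ε : ℝ, 0 < ε ∧ ∀ K : Set (Es d), Body K →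
      K ⊆ Metric.cthickening ε K' → K' ⊆ Metric.cthickening ε K → Close δ K := by
  obtain ⟨o, ho⟩ := hK'.ne
  obtain ⟨s, hs, hball⟩ := Metric.nhds_basis_closedBall.mem_iff.mp
    (mem_interior_iff_mem_nhds.mp ho)
  have hoK : o ∈ K' := interior_subset ho
  set r : ℝ := s / 2 with hr
  have hr0 : 0 < r := by positivity
  have h2r : 2 * r = s := by rw [hr]; ring
  set ρ : ℝ := (1 + δ / 2) / (1 + δ) with hρ
  have hδ1 : (0 : ℝ) < 1 + δ := by linarith
  have hρ0 : 0 < ρ := by positivity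
  have hρ1 : ρ < 1 := by
    rw [hρ, div_lt_one hδ1]
    linarith
  have h1ρ : 0 < 1 - ρ := by linarith
  -- the radius
  set ε : ℝ := min (min r (δ / 2 * (2 * r))) ((1 - ρ) * r / 2) with hε
  have hε0 : 0 < ε := by
    refine lt_min (lt_min hr0 (by positivity)) (by positivity)
  have hε1 : ε ≤ r := (min_le_left _ _).trans (min_le_left _ _)
  have hε2 : ε ≤ δ / 2 * (2 * r) := (min_le_left _ _).trans (min_le_right _ _)
  have hε3 : ε ≤ (1 - ρ) * r / 2 := min_le_right _ _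
  refine ⟨ε, hε0, fun K hK h1 h2 => ?_⟩
  have hb : Metric.ball o r ⊆ K := ball_subset hr0 hε0.le hε1 hK.cv hK.cp
    (by rw [h2r]; exact hball) h2
  refine ⟨(fun y => o + ρ • (y - o)) '' K', -(δ • o), ?_, ?_, ?_⟩
  · obtain ⟨x₀, v, hv, hKe⟩ := hP
    refine ⟨o + ρ • (x₀ - o), fun i => ρ • v i, ?_, ?_⟩
    · exact hv.units_smul (fun _ => Units.mk0 ρ hρ0.ne')
    · have key : ∀ c : Fin d → ℝ, o + ρ • (x₀ + ∑ i, c i • v i - o) =
          o + ρ • (x₀ - o) + ∑ i, c i • ρ • v i := by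
        intro c
        have : (∑ i, c i • ρ • v i) = ρ • ∑ i, c i • v i := by
          rw [Finset.smul_sum]
          exact Finset.sum_congr rfl (fun i _ => smul_comm _ _ _)
        rw [this]
        simp only [smul_add, smul_sub]
        abel
      rw [hKe]
      ext y
      constructor
      · rintro ⟨x, ⟨c, hc, rfl⟩, rfl⟩
        exact ⟨c, hc, key c⟩
      · rintro ⟨c, hc, rfl⟩
        exact ⟨_, ⟨c, hc, rfl⟩, key c⟩
  · rintro x ⟨y, hy, rfl⟩
    have h3 := h2 hy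
    rw [hK.cp.cthickening_eq_biUnion_closedBall hε0.le] at h3
    simp only [mem_iUnion, exists_prop] at h3
    obtain ⟨x', hx', hd⟩ := h3
    rw [Metric.mem_closedBall, dist_eq_norm] at hd
    have h4 : o + (ρ / (1 - ρ)) • (y - x') ∈ K := by
      refine hb ?_
      rw [Metric.mem_ball, dist_eq_norm, add_sub_cancel_left, norm_smul, Real.norm_eq_abs,
        abs_of_pos (by positivity), div_mul_eq_mul_div, div_lt_iff₀ h1ρ]
      have : ρ * ‖y - x'‖ ≤ 1 * ε := mul_le_mul hρ1.le hd (norm_nonneg _) zero_le_one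
      nlinarith [mul_pos h1ρ hr0]
    have h5 := hK.cv hx' h4 hρ0.le h1ρ.le (by ring)
    have h6 : ρ • x' + (1 - ρ) • (o + (ρ / (1 - ρ)) • (y - x')) = o + ρ • (y - o) := by
      rw [smul_add, smul_smul, mul_div_cancel₀ _ h1ρ.ne']
      simp only [smul_sub, sub_smul, one_smul]
      abel
    rw [h6] at h5
    exact h5
  · intro x hx
    have h3 := h1 hx
    rw [hK'.cp.cthickening_eq_biUnion_closedBall hε0.le] at h3
    simp only [mem_iUnion, exists_prop] at h3
    obtain ⟨y, hy, hd⟩ := h3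
    rw [Metric.mem_closedBall, dist_eq_norm] at hd
    have hδ2 : (0 : ℝ) < δ / 2 := by positivity
    have h4 : o + (δ / 2)⁻¹ • (x - y) ∈ K' := by
      refine hball ?_
      rw [Metric.mem_closedBall, dist_eq_norm, add_sub_cancel_left, norm_smul, Real.norm_eq_abs,
        abs_of_pos (by positivity), inv_mul_le_iff₀ hδ2]
      rw [← h2r]
      exact hd.trans hε2
    have hden : (0 : ℝ) < 1 + δ / 2 := by positivity
    have h5 : (1 + δ / 2)⁻¹ • y + ((δ / 2) * (1 + δ / 2)⁻¹) • (o + (δ / 2)⁻¹ • (x - y)) ∈ K' := by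
      refine hK'.cv hy h4 (by positivity) (by positivity) ?_
      field_simp
    refine ⟨_, ⟨_, h5, rfl⟩, ?_⟩
    have h6 : (1 + δ) * ρ = 1 + δ / 2 := by
      rw [hρ, mul_div_cancel₀ _ hδ1.ne']
    have h7 : (1 + δ / 2) • ((1 + δ / 2)⁻¹ • y +
        ((δ / 2) * (1 + δ / 2)⁻¹) • (o + (δ / 2)⁻¹ • (x - y))) =
        y + (δ / 2) • o + (x - y) := by
      rw [smul_add, smul_smul, smul_smul, mul_inv_cancel₀ hden.ne', one_smul,
        show (1 + δ / 2) * (δ / 2 * (1 + δ / 2)⁻¹) = δ / 2 by field_simp, smul_add, smul_smul,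
        mul_inv_cancel₀ hδ2.ne', one_smul]
      abel
    simp only
    rw [smul_add, smul_smul, h6, smul_sub, h7]
    simp only [add_smul, one_smul]
    abel

/-- stability for normalized bodies -/
theorem stab_nrm (hLIM : T_LIM) (hTIL : T_TIL) (hPAR : T_PAR) (hRAT : T_RAT) (hBLA : T_BLA)
    (hOPN : T_OPN) (d : ℕ) (δ : ℝ) (hδ : 0 < δ) :
    ∃ N : ℕ, 1 ≤ N ∧ ∀ K : Set (Es d), Body K → Nrm K → ¬ Close δ K →
      Multi K N (N * 2 ^ d - 1) := by
  by_contra hcon
  push Not at hcon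
  choose! Kf hB hn hc hM using hcon
  obtain ⟨K', φ, hφ, hK', hconv⟩ := hBLA d (fun n => Kf (n + 1).factorial)
    (fun n => hB _ (Nat.succ_le_of_lt (Nat.factorial_pos _)))
    (fun n => hn _ (Nat.succ_le_of_lt (Nat.factorial_pos _)))
  have hP : ¬ Para K' := by
    intro hP
    obtain ⟨ε, hε, hcl⟩ := close_of_hausdorff hK' hP hδ
    obtain ⟨n, hn1, hn2⟩ := (hconv ε hε).exists
    exact hc _ (Nat.succ_le_of_lt (Nat.factorial_pos _))
      (hcl _ (hB _ (Nat.succ_le_of_lt (Nat.factorial_pos _))) hn1 hn2)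
  obtain ⟨N, hN, hMN⟩ := strict hLIM hTIL hPAR hRAT hK' hP
  obtain ⟨ε, hε, hopn⟩ := hOPN d K' N (N * 2 ^ d - 1) hK' hMN
  obtain ⟨n, ⟨hn1, hn2⟩, hn3⟩ := ((hconv ε hε).and (Filter.eventually_ge_atTop N)).exists
  have h1 : Multi (Kf (φ n + 1).factorial) N (N * 2 ^ d - 1) :=
    hopn _ (hB _ (Nat.succ_le_of_lt (Nat.factorial_pos _))) hn1 hn2
  have h2 : N ∣ (φ n + 1).factorial := by
    refine Nat.dvd_factorial (by omega) ?_
    have := hφ.id_le n
    simp only [id] at this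
    omega
  obtain ⟨k, hk⟩ := h2
  have hfac : 0 < (φ n + 1).factorial := Nat.factorial_pos _
  have hk0 : 1 ≤ k := by
    rcases Nat.eq_zero_or_pos k with h0 | h0
    · rw [h0, mul_zero] at hk
      omega
    · exact h0
  refine hM (φ n + 1).factorial (Nat.succ_le_of_lt (Nat.factorial_pos _)) ?_
  have h3 := MUM_.mult d _ N (N * 2 ^ d - 1) k h1
  have h4 : (φ n + 1).factorial = k * N := by rw [hk, mul_comm]
  rw [← h4] at h3
  refine MUM_.pad d _ _ _ _ ?_ h3
  rw [Nat.mul_sub, mul_one, h4, ← mul_assoc]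
  exact Nat.sub_le_sub_left hk0 _

/-- stability -/
theorem stab (hLIM : T_LIM) (hTIL : T_TIL) (hPAR : T_PAR) (hRAT : T_RAT) (hBLA : T_BLA)
    (hOPN : T_OPN) (hNOR : T_NOR) (hAFF : T_AFF) (d : ℕ) (δ : ℝ) (hδ : 0 < δ) :
    ∃ N : ℕ, 1 ≤ N ∧ ∀ K : Set (Es d), Body K → ¬ Close δ K → Multi K N (N * 2 ^ d - 1) := by
  obtain ⟨N, hN, h⟩ := stab_nrm hLIM hTIL hPAR hRAT hBLA hOPN d δ hδ
  refine ⟨N, hN, fun K hK hc => ?_⟩
  obtain ⟨A, hA⟩ := hNOR d K hK
  obtain ⟨h1, h2⟩ := hAFF d K A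
  exact h2 N _ (h _ (h1 hK) hA (fun hc' => hc (close_of_image A hc')))

end Pool.Agent.MFH
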