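import Pool.Agent.MFH.Defs

/-!
# Multifold coverings of convex bodies (MP_eba1ef_gt): exact targets

Every target is a `Prop` with its proof in the docstring. One file per target:
`Pool/Agent/MFH/P_X.lean`, theorem `Pool.Agent.MFH.p_X (other targets) : T_X`.
-/

set_option autoImplicit false

open MeasureTheory Set Module
open scoped ENNReal Pointwise

namespace Pool.Agent.MFH

/-! ## A. the extremal measure -/

/-- GAM. Finite games. Proof: as `frac` in `Pool/Agent/FracH/Frac.lean` (import it; `minimax` is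
there). Suppose the claim fails for `ρ, q`. Let `o ∈ interior K`, `δ = (1 - ρ) / 2`, and let
`x i`, `i : Fin n`, be the finite net of `frac` (`K` is covered by the open sets
`{y | y - x i + δ • o ∈ δ • interior K}`), `vv z i = 1` if `x i - z ∈ ρ • K`, else `0`. For all
weights `m ≥ 0` with positive sum there is `z` with `q * ∑ m ≤ ∑ m i * vv z i`: otherwise the
probability measure `∑ (m i / ∑ m) • dirac (x i)` satisfies the claim (`K` is closed, `ρ • K` is
compact). By `minimax` some convex combination `∑ w k • vv (z k)` is `≥ q` at all `i`; the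
translates of `interior K` by `z k - δ • o - (1 - (ρ + δ)) • o` with the weights `w k / q` form a
fractional cover (the computation at the end of `frac`) of total weight `1 / q < 2 ^ d`, so
`FracLT K (2 ^ d)`, a contradiction. -/
def T_GAM : Prop := ∀ (d : ℕ) (K : Set (Es d)), Body K → ¬ FracLT K (2 ^ d) →
  ∀ ρ : ℝ, 0 < ρ → ρ < 1 → ∀ q : ℝ, ((2 : ℝ) ^ d)⁻¹ < q →
    ∃ μ : Measure (Es d), μ univ = 1 ∧ μ Kᶜ = 0 ∧
      ∀ z : Es d, μ {y | y - z ∈ ρ • K} ≤ ENNReal.ofReal q

/-- LIM (from GAM). The limit measure. Proof: GAM with `ρ = 1 - 1/(n+2)`, `q = 2^(-d) + 1/(n+1)`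
gives `μ n`; regard them as probability measures on the compact space `K` (`Measure.comap` of the
coercion; `MeasurableEmbedding.subtype_coe`). `ProbabilityMeasure K` is compact (Mathlib instance,
`Mathlib/MeasureTheory/Measure/Prokhorov.lean`), so they converge along `Filter.hyperfilter ℕ`
(`Ultrafilter.le_nhds_lim`) to some `ν`; `μ` is the image of `ν`. Let `o ∈ interior K`, `z` a
point, `r < 1`, `U r = {y | y - z - (1 - r) • o ∈ r • interior K}`. It is open, and for large `n`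
(`r ≤ ρ = ρ n`) it is contained in `{y | y - z' ∈ ρ • K}`, `z' = z + (1 - r) • o - (ρ - r) • o`,
since `r • K + (ρ - r) • o ⊆ ρ • K` by convexity. `le_liminf_measure_open_of_tendsto` gives
`μ (U r) ≤ liminf ofReal (q n) = 2^(-d)`. Finally `{y | y - z ∈ interior K}` is the increasing union
of the `U (1 - 1/(k+2))`: if `x ∈ interior K` then `(x - (1 - r) • o) / r → x` as `r → 1`; and
`r • interior K + (1 - r) • o ⊆ r' • interior K + (1 - r') • o` for `r ≤ r'`. -/
def T_LIM : Prop := ∀ (d : ℕ) (K : Set (Es d)), Body K → ¬ FracLT K (2 ^ d) →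
  ∃ μ : Measure (Es d), Ext K μ

/-- SQM. Moments of the two convolutions. Proof: `volume (interior K) = volume K`
(`Convex.addHaar_frontier`). Tonelli: `∫⁻ z, μ {y | y - z ∈ int K} = ∫⁻ y, volume {z | y - z ∈
int K} ∂μ = volume K` (reflection and translation invariance), the same for the second.
`∫⁻ z, μ{..}^2 = ∫⁻ y, ∫⁻ y', volume {z | y - z ∈ int K ∧ y' - z ∈ int K}`, and
`∫⁻ x, μ {y | x - y ∈ int K}^2 = ∫⁻ y, ∫⁻ y', volume {x | x - y ∈ int K ∧ x - y' ∈ int K}`; the
reflection `x = y + y' - z` maps one set onto the other (`x - y = y' - z`). See `sq_lintegral` in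
`Pool/Agent/FracH/Key.lean`. -/
def T_SQM : Prop := ∀ (d : ℕ) (K : Set (Es d)), Body K → ∀ μ : Measure (Es d), μ univ = 1 →
  ∫⁻ z, μ {y | y - z ∈ interior K} = volume K ∧
  ∫⁻ x, μ {y | x - y ∈ interior K} = volume K ∧
  ∫⁻ z, (μ {y | y - z ∈ interior K}) ^ 2 = ∫⁻ x, (μ {y | x - y ∈ interior K}) ^ 2

/-- EQU (from SQM). Equality in the second moment. Proof: let `q = 2^(-d)`, `f z = μ {y - z ∈
int K}`, `h x = μ {x - y ∈ int K}` (as real functions, all values in `[0, 1]`). `h` vanishes outside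
`2 • K` (`μ Kᶜ = 0`; `K + K = 2 • K` by convexity) and `f ≤ q` (`Ext.le`). So `∫ h^2 = ∫ f^2 ≤ q ∫ f
= q vol K`, `∫ h = vol K`, `vol (2 • K) = 2^d vol K = vol K / q`, and
`∫_{2 K} (h - q)^2 = ∫ h^2 - 2 q ∫ h + q^2 vol (2 K) ≤ q vol K - 2 q vol K + q vol K = 0`.
Hence `h = q` a.e. on `2 • K`. -/
def T_EQU : Prop := ∀ (d : ℕ) (K : Set (Es d)) (μ : Measure (Es d)), Body K → Ext K μ →
  ∀ᵐ x : Es d, x ∈ (2 : ℝ) • K → μ {y | x - y ∈ interior K} = ((2 : ℝ≥0∞) ^ d)⁻¹

/-- ATM (from EQU). Extreme points are atoms. Proof: let `v` be an extreme point, `r > 0`,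
`C = {y ∈ K | r ≤ dist y v}`, compact. For `y ∈ C` the point `2 v - y` is not in `K` (`v` would be
the midpoint of `y ≠ v` and `2 v - y`), so `Metric.infDist (2 • v - y) K` is positive on `C`, hence
`≥ m` for some `m > 0` (if `C` is empty take `m = 1`). If `dist x (2 v) < m` and `y ∈ K`,
`x - y ∈ K`, then `infDist (2 v - y) K ≤ dist (2 v - y) (x - y) < m`, so `y ∉ C`, `dist y v < r`.
`2 v` is in `2 • K = closure (interior (2 • K))` (convex with nonempty interior), so the ball of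
radius `m` around `2 v` meets the open set `interior (2 • K)` in a nonempty open set, which contains
a point `x` with `μ {y | x - y ∈ interior K} = 2^(-d)` by EQU. As `μ Kᶜ = 0`:
`2^(-d) ≤ μ (closedBall v r)`. Let `r = 1/(n+1) → 0` (continuity from above, `μ` is finite). -/
def T_ATM : Prop := ∀ (d : ℕ) (K : Set (Es d)) (μ : Measure (Es d)), Body K → Ext K μ →
  ∀ v ∈ K.extremePoints ℝ, ((2 : ℝ≥0∞) ^ d)⁻¹ ≤ μ {v}

/-- FNV (from ATM). The measure is uniform on `2 ^ d` points. Proof: a finite set of extreme points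
has at most `2^d` elements (`∑ μ {v} ≤ 1`), so the set of extreme points is finite; let `V` be this
set. By Krein-Milman (`closure_convexHull_extremePoints`; the convex hull of a finite set is
compact) `K = convexHull V`. Let `o ∈ interior K`. For `v ∈ V` and `z` with `v - z ∈ interior K`:
`2^(-d) ≤ μ {v} ≤ μ {y | y - z ∈ interior K} ≤ 2^(-d)`; such `z` exist (`z = v - o`), so
`μ {v} = 2^(-d)` and `μ ({y | y - z ∈ interior K} \ {v}) = 0`. Let `t ∈ K`, `t ∉ V`. Then
`t = a • v + (1 - a) • w` with `v ∈ V`, `0 < a`, `a ≤ 1`, `w ∈ K` (a coefficient of `t` in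
`convexHull V` is positive; `a = 1` is impossible, but harmless). With `z = a • (v - o)`:
`v - z = a • o + (1 - a) • v` and `t - z = a • o + (1 - a) • w` are in `interior K`
(`Convex.combo_interior_self_mem_interior`), so the open set `{y | y - z ∈ interior K} \ {v}` is a
neighbourhood of `t` of measure `0`. So `μ (K \ V) = 0` (`measure_null_of_locally_null`) and
`μ = ∑ 2^(-d) • dirac v`; `μ univ = 1` gives `V.card = 2^d`. -/
def T_FNV : Prop := ∀ (d : ℕ) (K : Set (Es d)) (μ : Measure (Es d)), Body K → Ext K μ →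
  ∃ V : Finset (Es d), K = convexHull ℝ (V : Set (Es d)) ∧ V.card = 2 ^ d ∧
    ∀ s : Set (Es d), MeasurableSet s →
      μ s = ((2 : ℝ≥0∞) ^ d)⁻¹ * ((open Classical in (V.filter (fun v => v ∈ s)).card : ℕ) : ℝ≥0∞)

/-- TIL (from EQU, FNV). Tiling. Proof: the set `s = {y | x - y ∈ interior K}` is open; for almost
every `x ∈ 2 • K` its measure is `2^(-d)` by EQU and `2^(-d) * #(V.filter (x - v ∈ interior K))` by
FNV; cancel. -/
def T_TIL : Prop := ∀ (d : ℕ) (K : Set (Es d)) (μ : Measure (Es d)), Body K → Ext K μ →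
  ∃ V : Finset (Es d), Tile K V

/-! ## B. coverings -/

/-- COV. Polytopes with few vertices. Proof: `V` is nonempty, `k = V.card ≥ 1`, `o ∈ interior K`,
`ε = 1 / k`; translates by `ε • (v - o)`, `v ∈ V`, and arbitrary ones to have `2^d` of them. Let
`x ∈ K`, `x = ∑ a v • v` with `a v ≥ 0`, `∑ a v = 1` (`Finset.mem_convexHull` or
`Finset.centerMass`): some `a v ≥ ε`. Then `x - ε • (v - o) = ε • o + (1 - ε) • w`, where
`(1 - ε) • w = (a v - ε) • v + ∑_{v' ≠ v} a v' • v'`, `w ∈ K` (if `ε = 1`, then `k = 1`, `K` is a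
point, `d = 0`, everything is trivial: `x - (v - o) = o` as `x = v`), so it is in `interior K`. -/
def T_COV : Prop := ∀ (d : ℕ) (K : Set (Es d)) (V : Finset (Es d)), Body K →
  K = convexHull ℝ (V : Set (Es d)) → V.card ≤ 2 ^ d → Multi K 1 (2 ^ d)

/-- RAT. Rational weights. Proof: let `s = W - ∑ w > 0` where `W = 2^d`, `n` the number of
translates, `N ≥ 1` with `n < N s`, `a j = ⌈N w j⌉₊ ≤ N w j + 1`. Then
`∑ a j ≤ N ∑ w + n < N 2^d`, so `∑ a j ≤ N 2^d - 1 = M`. Take the translate `t j` `a j` times (index set `Σ j, Fin (a j)`, of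
cardinality `∑ a j`, embedded in `Fin M`; the remaining translates are arbitrary). A point `x ∈ K`
is in at least `∑_{j : x - t j ∈ int K} a j ≥ N ∑_{..} w j ≥ N` of them. -/
def T_RAT : Prop := ∀ (d : ℕ) (K : Set (Es d)), FracLT K (2 ^ d) →
  ∃ N : ℕ, 1 ≤ N ∧ Multi K N (N * 2 ^ d - 1)

/-- MUM. Multiples and more translates. Proof: `(j, i) ↦ t j` on `Fin M × Fin k ≃ Fin (k * M)`;
for the second, the old translates and arbitrary ones. -/
def T_MUM : Prop := (∀ (d : ℕ) (K : Set (Es d)) (N M k : ℕ), Multi K N M →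
    Multi K (k * N) (k * M)) ∧
  ∀ (d : ℕ) (K : Set (Es d)) (N M M' : ℕ), M ≤ M' → Multi K N M → Multi K N M'

/-- PLB. Lower bound for parallelotopes. Proof: let `K` be given by `x₀`, `v`. If `x ∈ interior K`,
`x = x₀ + ∑ c i • v i` (unique `c`), then `x ± ε • v i ∈ K` for small `ε > 0`, so `0 < c i < 1`. For
`S : Finset (Fin d)` let `p S = x₀ + ∑ i ∈ S, v i ∈ K`. If `p S - t` and `p S' - t` are in
`interior K`, `S ≠ S'`, say `i ∈ S \ S'`, the `i`-th coefficients differ by `1`, a contradiction.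
So every translate contains at most one of the `2^d` points `p S`; double counting:
`N 2^d ≤ ∑ S, cnt K t (p S) ≤ M`. -/
def T_PLB : Prop := ∀ (d : ℕ) (K : Set (Es d)) (N M : ℕ), Para K → Multi K N M → N * 2 ^ d ≤ M

/-! ## C. uniformity -/

/-- AFF. Affine invariance. Proof: an affine equivalence `A` of `Es d` is a homeomorphism (finite
dimension), `interior (A '' K) = A '' interior K`; with the linear part `L`, `A x - t' = A (x - L⁻¹
(..))`: `A x - A.linear t = A (x - t)`. So the translates `t j` for `K` correspond to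
`A.linear (t j)` for `A '' K`. -/
def T_AFF : Prop := ∀ (d : ℕ) (K : Set (Es d)) (A : Es d ≃ᵃ[ℝ] Es d), (Body K → Body (A '' K)) ∧
  ∀ N M : ℕ, Multi (A '' K) N M → Multi K N M

/-- NOR. Normal position. Proof: the continuous function
`(x₀, .., x_d) ↦ |det (x_1 - x₀, .., x_d - x₀)|` on `K^(d+1)` (compact) has a maximum, which is
positive since `K` has interior points (`o, o + ε e_1, .., o + ε e_d`). Let `b i = x_{i+1} - x₀`, a
basis, and `A` the affine equivalence with `A (x₀ + ∑ c i • b i) = c`. `Nrm.lo`: a point with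
`c ≥ 0`, `∑ c ≤ 1` is a convex combination of the `x_i`. `Nrm.hi`: for `x ∈ K`, `x - x₀ = ∑ c j •
b j`, replacing `x_{i+1}` by `x` multiplies the determinant by `c i` (multilinear and alternating),
so `|c i| ≤ 1` by maximality. -/
def T_NOR : Prop := ∀ (d : ℕ) (K : Set (Es d)), Body K → ∃ A : Es d ≃ᵃ[ℝ] Es d, Nrm (A '' K)

/-- OPN. Multifold coverings are stable. Proof: `o ∈ interior K`, `closedBall o (2 r) ⊆ K`, `r > 0`.
For `ρ < 1` let `Kρ = {o + ρ • (y - o) | y ∈ interior K}` (open, increasing in `ρ`, with union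
`interior K` for `ρ < 1`) and `Wρ = {x | N ≤ #{j | x - t j ∈ Kρ}}`, open, increasing, and the `Wρ`
cover the compact `K`: some `ρ < 1` (and `ρ > 0`) has `K ⊆ Wρ`. There is `ε > 0` with
`cthickening ε K ⊆ Wρ` (`IsCompact.exists_cthickening_subset_open`), `ε < r`,
`ρ ε < (1 - ρ) r`. Let `K'` be as in the statement. (1) `ball o r ⊆ K'`: otherwise `y ∈ ball o r`,
`y ∉ K'`, and a unit vector `u` with `⟪x', u⟫ < ⟪y, u⟫` for `x' ∈ K'`
(`geometric_hahn_banach_closed_point`); `o + (2 r) • u ∈ K` has distance `≤ ε` from some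
`x' ∈ K'`, `⟪x', u⟫ ≥ ⟪o, u⟫ + 2 r - ε > ⟪o, u⟫ + r ≥ ⟪y, u⟫`. (2) `Kρ ⊆ interior K'`: for
`y ∈ K` take `x' ∈ K'`, `dist y x' ≤ ε`; `o + ρ • (y - o) = ρ • x' + (1 - ρ) • p`,
`p = o + (ρ / (1 - ρ)) • (y - x') ∈ ball o r ⊆ interior K'`. (3) For `x ∈ K' ⊆ Wρ` at least `N` of
the `x - t j` are in `Kρ ⊆ interior K'`. -/
def T_OPN : Prop := ∀ (d : ℕ) (K : Set (Es d)) (N M : ℕ), Body K → Multi K N M →
  ∃ ε : ℝ, 0 < ε ∧ ∀ K' : Set (Es d), Body K' → K' ⊆ Metric.cthickening ε K →
    K ⊆ Metric.cthickening ε K' → Multi K' N M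

/-- BLA. Selection of convergent subsequences (Blaschke). Proof: the `K n` are nonempty compact
subsets of the compact cube `Q = {x | ∀ i, |x i| ≤ 1}` (`Nrm.hi`). `NonemptyCompacts Q` is a compact
space (`Mathlib/Topology/Sets/VietorisTopology.lean`) and metric for the Hausdorff distance, so a
subsequence converges to a compact `K'`; `K` = its image. Convergence in Hausdorff distance gives
the two inclusions. `K` is convex: for `x, y ∈ K` take `x n, y n ∈ K (φ n)` close to `x, y`;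
`a x n + b y n ∈ K (φ n)` is close to `a x + b y` and to `K`, which is closed. `Nrm.lo`: a point of
all `K n` is a limit of itself, so it is in `K`; `Nrm.hi`: closedness. The interior of `K` contains
the interior of the simplex `Nrm.lo`. (A direct diagonal argument is also possible.) -/
def T_BLA : Prop := ∀ (d : ℕ) (K : ℕ → Set (Es d)), (∀ n, Body (K n)) → (∀ n, Nrm (K n)) →
  ∃ (K' : Set (Es d)) (φ : ℕ → ℕ), StrictMono φ ∧ Body K' ∧
    ∀ ε : ℝ, 0 < ε → ∀ᶠ n in Filter.atTop, K (φ n) ⊆ Metric.cthickening ε K' ∧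
      K' ⊆ Metric.cthickening ε (K (φ n))

/-! ## D. the equality case -/

/-- CAP. Cap volumes of a tiling body. Proof: `2^d * cap K u b s` is the volume of
`{x ∈ 2 • K | 2 b - 2 s ≤ ⟪x, u⟫}` (scaling by `2`). Split it according to the unique `v ∈ V` with
`x - v ∈ interior K` (`Tile.one`, almost everywhere; `v + interior K ⊆ 2 • K` since `V ⊆ K`): the
part of `v` is `v + {y ∈ interior K | b - (2 s - (b - ⟪v, u⟫)) ≤ ⟪y, u⟫}`, whose volume is
`cap K u b (2 s - (b - ⟪v, u⟫))` (the frontier of the convex set `K` is a null set). -/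
def T_CAP : Prop := ∀ (d : ℕ) (K : Set (Es d)) (V : Finset (Es d)) (u : Es d) (b : ℝ), Body K →
  Tile K V → ∀ s : ℝ,
    2 ^ d * cap K u b s = ∑ v ∈ V, cap K u b (2 * s - (b - inner ℝ v u))

/-- HOM. Homotheties. Proof: the difference `cap β - cap α` is the volume of the slab
`{x ∈ K | b - β ≤ ⟪x, u⟫ < b - α}`. The homothety `x ↦ p + r • (x - p)` maps `K` into `K` (convex)
and multiplies volumes by `r^d`. For `p` with `⟪p, u⟫ = b` it maps this slab into the slab of
`r α, r β`; for `p` with `⟪p, u⟫ = b - W` into the slab of `W - r (W - α)`, `W - r (W - β)`. -/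
def T_HOM : Prop := ∀ (d : ℕ) (K : Set (Es d)) (u : Es d) (b W : ℝ), Body K →
  (∃ p ∈ K, inner ℝ p u = b) → (∃ p ∈ K, inner ℝ p u = b - W) →
  ∀ r : ℝ, 0 < r → r ≤ 1 → ∀ α β : ℝ, α ≤ β →
    r ^ d * (cap K u b β - cap K u b α) ≤ cap K u b (r * β) - cap K u b (r * α) ∧
    r ^ d * (cap K u b β - cap K u b α) ≤
      cap K u b (W - r * (W - β)) - cap K u b (W - r * (W - α))

/-- SLB. Slabs are thin. Proof: the slab `Z = {x ∈ K | b - β ≤ ⟪x, u⟫ < b - α}`, `h = β - α`. If
`h = 0` it is empty; if `h ≥ 1` use `volume K`. If `0 < h < 1` let `m = ⌊1 / h⌋₊ ≥ 1 / (2 h)`; the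
translates `Z + (j * h / ‖u‖^2) • u`, `j < m`, are pairwise disjoint (different values of `⟪·, u⟫`)
and contained in `closedBall 0 (R + 1 / ‖u‖)` if `K ⊆ closedBall 0 R` (`j h ≤ 1`). So
`m * vol Z ≤ vol (closedBall ..)`. -/
def T_SLB : Prop := ∀ (d : ℕ) (K : Set (Es d)) (u : Es d), Body K → u ≠ 0 →
  ∃ C : ℝ, 0 < C ∧ ∀ b α β : ℝ, α ≤ β → cap K u b β - cap K u b α ≤ C * (β - α)

/-- TWO (from CAP, HOM, SLB). Facet normals take two values. Proof: write `T s = cap K u b s`;
`T s = 0` for `s < 0` (empty set), `T` is monotone, `T 0 = 0` by SLB. `δ v = b - ⟪v, u⟫ ≥ 0`,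
`W = max δ` on `V`; `W > 0` since `K` has interior points and `u ≠ 0`. As `K = convexHull V`,
`0 ≤ b - ⟪x, u⟫ ≤ W` on `K`; the values `b` and `b - W` are attained on `V ⊆ K`.
Suppose that some `δ v` is in `(0, W)`; let `e` be the smallest positive value of `δ`, `e < W`,
`n ≥ 1` the number of `v` with `δ v = 0`, `n' ≥ 1` the number with `δ v = e`, and let `e₂ > e` be
the smallest value `> e`. CAP: `2^d T (τ/2) = n T τ + n' T (τ - e)` for `τ < e₂` (the other
`T (τ - δ v)` are `0`). With `κ = 2^d / n` and small `h > 0` (`h < e`, `e + h < e₂`, `h < W - e`, `h < 1`):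
`T (e + h) = κ T ((e+h)/2) - (n'/n) T h`, `T e = κ T (e/2)`, `T (e - h) = κ T ((e-h)/2)`. Let
`S₁ = T ((e+h)/2) - T (e/2)`, `S₀ = T (e/2) - T ((e-h)/2)`. HOM (first) with `r = e/(e+h)` on
`[e/2, (e+h)/2]`: image `[r e/2, e/2]`, `r e / 2 ≥ (e - h)/2`, so `S₀ ≥ r^d S₁`. HOM (second) with
`r' = (W - e)/(W - e + h)` on `[e - h, e]`: image `[e, e + r' h]`, so
`T (e + h) - T e ≥ r'^d (T e - T (e - h)) = r'^d κ S₀ ≥ (r r')^d κ S₁`. Hence
`(n'/n) c h ≤ (n'/n) T h ≤ κ (1 - (r r')^d) S₁ ≤ κ (1 - (r r')^d) C h / 2` (SLB), and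
`(r r')^d → 1` as `h → 0`: contradiction. So `δ v ∈ {0, W}` on `V`; `m = b - W`. -/
def T_TWO : Prop := ∀ (d : ℕ) (K : Set (Es d)) (V : Finset (Es d)) (u : Es d) (b c : ℝ), Body K →
  Tile K V → u ≠ 0 → (∀ x ∈ K, inner ℝ x u ≤ b) → (∃ v ∈ V, inner ℝ v u = b) → 0 < c →
  (∀ h : ℝ, 0 ≤ h → h ≤ 1 → c * h ≤ cap K u b h) →
    ∃ m : ℝ, m < b ∧ ∀ v ∈ V, inner ℝ v u = b ∨ inner ℝ v u = m

/-- FAC. Facet normals in all directions. Proof: let `o ∈ interior K`, `closedBall o r ⊆ K ⊆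
closedBall o R`, `0 < r`, `V' = {v - o | v ∈ V}`. Choose `y` with `‖y - e‖` small, outside the
finite union of the proper subspaces `span B`, `B ⊆ V'` with `span B ≠ ⊤` (proper subspaces are null sets,
`Measure.addHaar_submodule`; an open ball is not contained in a null set). Let `s > 0` be maximal
with `x = o + s • y ∈ K` (`K` compact, `y ≠ 0`); `x` is not in the interior, so there is `u₀ ≠ 0`
with `⟪z, u₀⟫ ≤ ⟪x, u₀⟫` for all `z ∈ K` (`geometric_hahn_banach_open_point` for `interior K`, then the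
closure). As `closedBall o r ⊆ K`, `r ‖u₀‖ ≤ ⟪x - o, u₀⟫`. Normalize: `u = u₀ / ⟪x - o, u₀⟫`, so
`⟪z - o, u⟫ ≤ 1` on `K`, `⟪x - o, u⟫ = 1`, `‖u‖ ≤ 1 / r`. `s ‖y‖ = ‖x - o‖ ≤ R`, so
`⟪y, u⟫ = 1 / s ≥ ‖y‖ / R` and `⟪e, u⟫ ≥ ‖y‖ / R - ‖y - e‖ / r > 0` if `‖y - e‖` is small.
`b = 1 + ⟪o, u⟫`. `x ∈ K = convexHull V` is a convex combination of elements of `V`; those with
positive coefficient have `⟪v - o, u⟫ = 1`; let `B ⊆ V'` be the set of all `v - o` with
`⟪v - o, u⟫ = 1`. `s • y ∈ span B`, so `y ∈ span B` and by the choice of `y` `span B = ⊤`. So `B`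
contains a basis; with `o` its elements span `Es d` affinely and the set
`D = convexHull ({0} ∪ B)` has nonempty interior, `o + D ⊆ K`, `0 ≤ ⟪z, u⟫ ≤ 1` on `D`, `0 ∈ D`.
For `0 ≤ h ≤ 1`: the part `{z ∈ D | ⟪z, u⟫ < 1 - h}` is contained in `(1 - h) • D`
(if `h < 1`; write `z = ∑ a i • b i` with `b i ∈ B`, `∑ a i = ⟪z, u⟫ ≤ 1 - h`), so
`vol {z ∈ D | 1 - h ≤ ⟪z, u⟫} ≥ (1 - (1 - h)^d) vol D ≥ h vol D` (`d ≥ 1` since `e ≠ 0`), and
`c = vol D > 0`. -/
def T_FAC : Prop := ∀ (d : ℕ) (K : Set (Es d)) (V : Finset (Es d)), Body K →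
  K = convexHull ℝ (V : Set (Es d)) → ∀ e : Es d, e ≠ 0 → ∃ (u : Es d) (b c : ℝ),
    0 < (inner ℝ e u : ℝ) ∧ (∀ x ∈ K, inner ℝ x u ≤ b) ∧ (∃ v ∈ V, inner ℝ v u = b) ∧ 0 < c ∧
    ∀ h : ℝ, 0 ≤ h → h ≤ 1 → c * h ≤ cap K u b h

/-- PAR (from TWO, FAC). Proof: let `U` be the set of the `u ≠ 0` which satisfy the conclusion of
FAC except the first one. If `span U` is not `⊤` there is `e ≠ 0` orthogonal to it
(`Submodule.exists_mem_ne_zero_of_ne_bot` for the orthogonal complement), a contradiction to FAC.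
So `U` contains a basis `u i`, `i : Fin d` (`exists_linearIndependent`, `Basis.extend` ...). By TWO
there are `b i`, `m i < b i` with `⟪v, u i⟫ ∈ {b i, m i}` for `v ∈ V`. The map
`Φ x = (⟪x, u i⟫)_i` is a linear equivalence `Es d → (Fin d → ℝ)`; it maps `V` injectively into
`∏ {m i, b i}` which has `2^d` elements, so `Φ '' V = Set.univ.pi (fun i => {m i, b i})`
(`V.card = 2^d`) and `Φ '' K = convexHull (Φ '' V) = Set.univ.pi (fun i => Icc (m i) (b i))`
(`convexHull_pi`, `LinearMap.image_convexHull`). Take `x₀ = Φ⁻¹ m` and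
`v i = Φ⁻¹ (Pi.single i (b i - m i))`. -/
def T_PAR : Prop := ∀ (d : ℕ) (K : Set (Es d)) (V : Finset (Es d)), Body K → Tile K V → Para K

end Pool.Agent.MFH
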